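import Pool.Agent.NH41.CK.LOC
import Pool.Agent.Y989.SD.T_WIN

/-!
Project CK (helper41): the one-arm probabilities inside a domain with windows.
-/

set_option autoImplicit false

namespace Pool.Agent.NH41.CK.ARM

open H974 H973 Finset Pool.Agent.Y989.SD
open TH976 (sd sd_self sd_comm sd_tri sd_pos Ar Cmp EH fkg incr_and vseg pr_all vseg_reach)
open Pool.Agent.NH41.CK.HG Pool.Agent.NH41.CK.BLK Pool.Agent.NH41.CK.LOC
open Pool.Agent.H160R2.CV (P ar)
open Pool.Agent.H160R2.CV.Quad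
open Pool.Agent.H389R2.CD

/-! ### the frame of a window -/

section frame

variable {g : LSym} (hg : ∀ (y z : Vtx) (n : ℤ), g.ψ y ∈ BX (g.ψ z) n ↔ y ∈ BX z n)

include hg

theorem sd_pres (y z : Vtx) : sd (g.ψ y) (g.ψ z) = sd y z := by
  apply le_antisymm
  · rw [← mem_BX_sd, hg, mem_BX_sd]
  · rw [← mem_BX_sd, ← hg, mem_BX_sd]

variable {T : Finset Vtx} {h' : ℤ → ℤ} {L : ℤ}
  (hT : ∀ y ∈ QB L, (g.ψ y ∈ T ↔ h' y.1 ≤ y.2))

include hT

/-- the strip above a box of `T` is in `T` -/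
theorem strip {x0 : Vtx} {A m : ℕ} {H : ℤ} (hx0 : sd x0 (0, 0) ≤ A) (hm : BX (g.ψ x0) (m : ℤ) ⊆ T)
    (h1 : (A : ℤ) + m ≤ L) (h2 : (A : ℤ) + H ≤ 32 * L) {a t : ℤ}
    (ha : x0.1 - m ≤ a ∧ a ≤ x0.1 + m) (ht : x0.2 ≤ t ∧ t ≤ x0.2 + H) : g.ψ (a, t) ∈ T := by
  unfold TH976.sd at hx0
  simp only at hx0
  have h3 : g.ψ (a, x0.2) ∈ T := by
    apply hm
    rw [hg, mem_BX]
    simp only
    omega
  have h4 := (hT (a, x0.2) (by rw [mem_QB]; simp only; omega)).mp h3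
  simp only at h4
  refine (hT (a, t) ?_).mpr ?_
  · rw [mem_QB]
    simp only
    omega
  · simp only
    omega

end frame

/-- crossings of long rectangles -/
theorem pr_TBk (k : ℕ) {a b c d : ℤ} {S : Finset Edg} (hS : RE a b c d ⊆ S) {m : ℤ} (hm : 0 < m)
    (h1 : 0 < d - c) (h2 : d - c ≤ (8 + 6 * (k : ℤ)) * m) (h3 : 2 * m ≤ b - a) :
    (1 / 2 : ℝ) ^ (48 * (k + 1)) ≤ Pr P S (TBc a b c d) := by
  have e : Pr P S (TBc a b c d) = hh (1 / 2) (d - c) (b - a) :=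
    pr_TBc (1 / 2) (TBE_subset_RE.trans hS)
  rw [e]
  exact (hh_long k hm).trans (hh_mono (by norm_num) (by norm_num) h1 h2 h3)

/-- paths from the neighbourhood of a vertex upward -/
theorem hook (hE : S_EMB) (k : ℕ) {T : Finset Vtx} {v x : Vtx} {L : ℤ} {B α : ℝ}
    (hw : Win T v L B α) {A m H : ℕ} (hx : sd x v ≤ A) (hm1 : 1 ≤ m) (hm : BX x (m : ℤ) ⊆ T)
    (hH : 1 ≤ H) (h1 : (A : ℤ) + m ≤ L) (h2 : (A : ℤ) + H ≤ 32 * L) (h3 : H ≤ (8 + 6 * k) * m) :
    (1 / 2 : ℝ) ^ (48 * (k + 1)) ≤ Pr P (ES T) (fun F => ∃ a b : Vtx, a ∈ T ∧ sd a x ≤ m ∧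
      H ≤ sd b v + A ∧ Reach (↑F : Set Edg) a b) := by
  obtain ⟨g, h', s, hv, hg, -, -, -, hT⟩ := hE T v L B α hw
  obtain ⟨x0, rfl⟩ := g.ψ.surjective x
  rw [← hv, sd_pres hg] at hx
  have hS : RE (x0.1 - m) (x0.1 + m) x0.2 (x0.2 + H) ⊆ ES (WIN.tT g T) := by
    intro e he
    have h4 := mem_RE_ends he
    unfold inR at h4
    rw [mem_ES, WIN.mem_tT, WIN.mem_tT]
    exact ⟨strip hg hT hx hm h1 h2 h4.1.1 h4.1.2, strip hg hT hx hm h1 h2 h4.2.1 h4.2.2⟩
  have h5 := pr_TBk k hS (m := m) (by omega) (by omega) (by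
    have : ((H : ℕ) : ℤ) ≤ (((8 + 6 * k) * m : ℕ) : ℤ) := by exact_mod_cast h3
    push_cast at this
    linarith) (by omega)
  refine h5.trans ?_
  have h6 := WIN.pr_tT g T (fun F => ∃ a b : Vtx, a ∈ T ∧ sd a (g.ψ x0) ≤ m ∧
      H ≤ sd b v + A ∧ Reach (↑F : Set Edg) a b)
  change _ ≤ Pr hf (ES T) _
  rw [h6]
  refine Pr_mono okhalf ?_
  rintro F - ⟨a, a', ha, ha', hr⟩
  refine ⟨g.ψ (a, x0.2), g.ψ (a', x0.2 + H), ?_, ?_, ?_, ?_⟩
  · exact strip hg hT hx hm h1 h2 (a := a) (t := x0.2) (by omega) (by omega)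
  · rw [sd_pres hg]
    unfold TH976.sd
    simp only
    omega
  · rw [← hv, sd_pres hg]
    unfold TH976.sd at hx ⊢
    simp only at hx ⊢
    omega
  · exact (WIN.reach_mp g F _ _).mpr (hr.mono Set.inter_subset_left)

/-- a path from a vertex upward -/
theorem hook0 (hE : S_EMB) {T : Finset Vtx} {v x : Vtx} {L : ℤ} {B α : ℝ}
    (hw : Win T v L B α) {A H : ℕ} (hx : sd x v ≤ A) (hxT : x ∈ T)
    (h1 : (A : ℤ) ≤ L) (h2 : (A : ℤ) + H ≤ 32 * L) :
    (1 / 2 : ℝ) ^ H ≤ Pr P (ES T) (fun F => ∃ b : Vtx,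
      H ≤ sd b v + A ∧ Reach (↑F : Set Edg) x b) := by
  obtain ⟨g, h', s, hv, hg, -, -, -, hT⟩ := hE T v L B α hw
  obtain ⟨x0, rfl⟩ := g.ψ.surjective x
  rw [← hv, sd_pres hg] at hx
  have hm : BX (g.ψ x0) ((0 : ℕ) : ℤ) ⊆ T := by
    intro y hy
    rw [mem_BX_sd] at hy
    have : y = g.ψ x0 := by
      by_contra hc
      have := sd_pos hc
      omega
    rw [this]
    exact hxT
  have hS : vseg x0 H ⊆ ES (WIN.tT g T) := by
    intro e he
    unfold TH976.vseg at he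
    rw [Finset.mem_image] at he
    obtain ⟨i, hi, rfl⟩ := he
    rw [Finset.mem_range] at hi
    rw [mem_ES, WIN.mem_tT, WIN.mem_tT, src_mk, tgt_false]
    exact ⟨strip hg hT hx hm (by push_cast; omega) h2 (a := x0.1) (by push_cast; omega) (by omega),
      strip hg hT hx hm (by push_cast; omega) h2 (a := x0.1) (by push_cast; omega) (by omega)⟩
  have hc : (vseg x0 H).card ≤ H := by
    unfold TH976.vseg
    exact Finset.card_image_le.trans (by rw [Finset.card_range])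
  have h6 := WIN.pr_tT g T (fun F => ∃ b : Vtx,
      H ≤ sd b v + A ∧ Reach (↑F : Set Edg) (g.ψ x0) b)
  change _ ≤ Pr hf (ES T) _
  rw [h6]
  calc (1 / 2 : ℝ) ^ H ≤ (1 / 2 : ℝ) ^ (vseg x0 H).card :=
        pow_le_pow_of_le_one (by norm_num) (by norm_num) hc
    _ ≤ _ := pr_all hS
    _ ≤ _ := by
      refine Pr_mono okP ?_
      intro F _ hF
      refine ⟨g.ψ (x0.1, x0.2 + H), ?_, ?_⟩
      · rw [← hv, sd_pres hg]
        unfold TH976.sd at hx ⊢
        simp only at hx ⊢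
        omega
      · exact (WIN.reach_mp g F _ _).mpr (vseg_reach (by exact_mod_cast hF))

/-! ### powers -/

theorem EH_small {s n : ℝ} (hn : 0 < n) (hs : n ≤ s) : EH s n = n ^ (-(5 / 48 : ℝ)) := by
  unfold TH976.EH
  rw [min_eq_left ((one_le_div hn).mpr hs), Real.one_rpow, mul_one]

theorem EH_big {s n : ℝ} (hs0 : 0 < s) (hs : s ≤ n) :
    EH s n = s ^ (-(5 / 48 : ℝ)) * (s / n) ^ (1 / 3 : ℝ) := by
  have hn : 0 < n := hs0.trans_le hs
  unfold TH976.EH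
  rw [min_eq_right ((div_le_one hn).mpr hs), Real.div_rpow hs0.le hn.le,
    Real.div_rpow hs0.le hn.le]
  simp only [Real.rpow_def_of_pos hn, Real.rpow_def_of_pos hs0]
  rw [← Real.exp_sub, ← Real.exp_sub, ← Real.exp_add, ← Real.exp_add]
  congr 1
  ring

theorem EH_ge {s n : ℝ} (hn : 0 < n) (hs0 : 0 < s) (hs : n ≤ 14 * s) :
    n ^ (-(5 / 48 : ℝ)) ≤ 14 * EH s n := by
  unfold TH976.EH
  have h1 : (1 / 14 : ℝ) ≤ min 1 (s / n) := by
    apply le_min (by norm_num)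
    rw [le_div_iff₀ hn]
    linarith
  have h2 : (1 / 14 : ℝ) ≤ (min 1 (s / n)) ^ (11 / 48 : ℝ) := by
    calc (1 / 14 : ℝ) = (1 / 14 : ℝ) ^ (1 : ℝ) := (Real.rpow_one _).symm
      _ ≤ (1 / 14 : ℝ) ^ (11 / 48 : ℝ) :=
          Real.rpow_le_rpow_of_exponent_ge (by norm_num) (by norm_num) (by norm_num)
      _ ≤ _ := Real.rpow_le_rpow (by norm_num) h1 (by norm_num)
  have h3 : 0 < n ^ (-(5 / 48 : ℝ)) := Real.rpow_pos_of_pos hn _
  nlinarith

/-! ### the bounds -/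

theorem up0 {T : Finset Vtx} (x : Vtx) (n : ℕ) : aT T x n ≤ ar n := by
  refine le_trans (Pr_mono okP ?_) (pr_LA (ES T) x n)
  rintro F - ⟨v, h1, h2⟩
  refine LA_of_reach ?_ h2
  unfold TH976.sd at h1
  unfold Pool.Agent.H160R2.CV.nv
  simp only [Prod.fst_sub, Prod.snd_sub]
  exact h1

theorem lo0 {T : Finset Vtx} {x : Vtx} {n : ℕ} (h : BX x (n : ℤ) ⊆ T) : ar n ≤ aT T x n := by
  have h1 := Pool.Agent.H160R2.CV.TwoAux.pr_QQ (v := x) (r := n) (S := ES T) (bo_ES h)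
  rw [← h1]
  refine Pr_mono okP fun F _ hF => ?_
  obtain ⟨u, hu, hr⟩ := Pool.Agent.H160R2.CV.TwoAux.far_of_QQ hF
  refine ⟨u, ?_, hr⟩
  unfold Pool.Agent.H160R2.CV.nv at hu
  simp only [Prod.fst_sub, Prod.snd_sub] at hu
  unfold TH976.sd
  exact hu

/-- the deterministic part of the lower bound -/
theorem join {T : Finset Vtx} {x v : Vtx} {F : Finset Edg} (hF : F ⊆ ES T) {r R n h : ℕ}
    (hxv : sd x v ≤ h) (hR : 64 * r ≤ R) (hn : n + h ≤ R) (hH : HT T v r (64 * r) F)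
    (hr1 : 1 ≤ r) (hX : Cx T v r R F) {a b : Vtx} (ha : a ∈ T) (hav : sd a v ≤ r)
    (hbv : 64 * r ≤ sd b v) (hab : Reach (↑F : Set Edg) a b) (hxa : Reach (↑F : Set Edg) x a) :
    Ar x n F := by
  obtain ⟨z, -, -, -, hz⟩ := hH
  have hz' : Blk T (fun u => sd u v ≤ r) (fun w => 64 * r ≤ sd w v) z F := by
    refine Blk_imp (fun u hu => mem_BX_sd.mpr hu) (fun w hw => ?_) hz
    have := (notMem_BX_sd (u := w) (v := v) (n := 64 * r) (by omega)).mpr hw
    push_cast at this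
    exact this
  obtain ⟨u, w, hu, h1, h2, h3⟩ := hX
  have m1 := HB_meet hF hz' ha hav hbv hab
  have m2 := HB_meet hF hz' hu h1 (hR.trans h2) h3
  refine ⟨w, ?_, hxa.trans (m1.trans (m2.symm.trans h3))⟩
  have := sd_tri w x v
  omega

theorem Ex_incr (S : Finset Edg) (T : Finset Vtx) (x v : Vtx) (m H A : ℕ) :
    IncrE S (fun F => ∃ a b : Vtx, a ∈ T ∧ sd a x ≤ m ∧
      H ≤ sd b v + A ∧ Reach (↑F : Set Edg) a b) := by
  rintro F G h - ⟨a, b, h1, h2, h3, h4⟩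
  exact ⟨a, b, h1, h2, h3, h4.mono (by exact_mod_cast h)⟩

theorem Ex0_incr (S : Finset Edg) (x v : Vtx) (H A : ℕ) :
    IncrE S (fun F => ∃ b : Vtx, H ≤ sd b v + A ∧ Reach (↑F : Set Edg) x b) := by
  rintro F G h - ⟨b, h3, h4⟩
  exact ⟨b, h3, h4.mono (by exact_mod_cast h)⟩

theorem HT_incr (S : Finset Edg) (T : Finset Vtx) (v : Vtx) (r R : ℤ) : IncrE S (HT T v r R) := by
  rintro F G hFG - ⟨z, h1, h2, h3, h4⟩
  refine ⟨z, h1, h2, h3, ?_⟩
  intro u hu hA w hw hB hr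
  refine h4 u hu hA w hw hB (hr.mono ?_)
  have h5 : ∀ y, (y ∈ T ∧ ¬ Reach (G : Set Edg) z y) → (y ∈ T ∧ ¬ Reach (F : Set Edg) z y) :=
    fun y hy => ⟨hy.1, fun h2 => hy.2 (h2.mono (by exact_mod_cast hFG))⟩
  rintro e ⟨he1, he2⟩
  exact ⟨h5 _ he1, h5 _ he2⟩

/-- the constant of the hook -/
noncomputable def kh : ℝ := (1 / 2 : ℝ) ^ 21792

theorem kh_pos : 0 < kh := by unfold kh; positivity

/-- lower bound near the boundary -/
theorem lo1 (hE : S_EMB) (hI : S_INT) {B α cW : ℝ} (hcW : 0 < cW)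
    (hW : ∀ (T : Finset Vtx) (v : Vtx) (L : ℤ), Win T v L B α → ∀ r R : ℤ, 1 ≤ r → r ≤ R → R ≤ L →
      cW * ((r : ℝ) / R) ^ (1 / 3 : ℝ) ≤ Pr hf (ES T) (XT T v r R) ∧
      (128 * r ≤ L → cW ≤ Pr hf (ES T) (HT T v r (64 * r)))) :
    ∃ c : ℝ, 0 < c ∧ ∀ (T : Finset Vtx) (L : ℤ), Dm T L B α → ∀ x ∈ T, ∀ n : ℕ, hgt T x ≤ n →
      (1000 : ℤ) * n ≤ L →
      c * (ar (hgt T x) * ((hgt T x : ℝ) / n) ^ (1 / 3 : ℝ)) ≤ aT T x n := by
  obtain ⟨cI, hcI, hI⟩ := hI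
  have hk := kh_pos
  refine ⟨min 1 (min cI 1) * kh * cW * (cW * (7 / 460)), by positivity, ?_⟩
  intro T L hD x hx n hn hL
  obtain ⟨v, hv, hxv, hwin⟩ := base hD hx
  have hpos := hgt_pos hx
  set h := hgt T x with hh
  have hxv6 : sd x v ≤ 6 * h := by omega
  obtain ⟨w1, -⟩ := hW T v L hwin (7 * h) (460 * n) (by omega) (by omega) (by omega)
  obtain ⟨-, w2⟩ := hW T v L hwin (7 * h) (7 * h) (by omega) le_rfl (by omega)
  have w2 := w2 (by omega)
  have hn0 : (0 : ℝ) < n := by exact_mod_cast (by omega : 0 < n)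
  have hh0 : (0 : ℝ) < h := by exact_mod_cast (by omega : 0 < h)
  set q : ℝ := ((h : ℝ) / n) ^ (1 / 3 : ℝ) with hq
  have hq0 : 0 < q := by positivity
  -- the crossing
  have w1' : cW * (7 / 460) * q ≤ Pr P (ES T) (Cx T v (7 * h) (460 * n)) := by
    have e : Pr P (ES T) (Cx T v (7 * h) (460 * n)) =
        Pr hf (ES T) (XT T v (7 * h) (460 * n)) := by
      have := bT_eq T v (7 * h) (n := 460 * n) (by omega)
      unfold bT at this
      rw [this]
      push_cast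
      rfl
    rw [e]
    refine le_trans ?_ w1
    rw [mul_assoc]
    apply mul_le_mul_of_nonneg_left _ hcW.le
    push_cast
    have e2 : (7 * (h : ℝ)) / (460 * n) = (7 / 460) * (h / n) := by
      field_simp
    rw [e2, Real.mul_rpow (by norm_num) (by positivity)]
    apply mul_le_mul_of_nonneg_right _ hq0.le
    calc (7 / 460 : ℝ) = (7 / 460 : ℝ) ^ (1 : ℝ) := (Real.rpow_one _).symm
      _ ≤ (7 / 460 : ℝ) ^ (1 / 3 : ℝ) :=
          Real.rpow_le_rpow_of_exponent_ge (by norm_num) (by norm_num) (by norm_num)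
  have w2' : cW ≤ Pr P (ES T) (HT T v (7 * h) (64 * (7 * h))) := w2
  have hA1 : ar h ≤ 1 := Pool.Agent.H160R2.CV.ar_le_one h
  have hA0 : 0 < ar h := Pool.Agent.H160R2.CV.ar_pos h
  rcases Nat.lt_or_ge h 4 with h4 | h4
  · -- a vertex at the boundary
    have p1 := hook0 hE hwin (A := 6 * h) (H := 454 * h) hxv6 hx (by push_cast; omega)
      (by push_cast; omega)
    have p1' : kh ≤ Pr P (ES T) (fun F => ∃ b : Vtx,
        454 * h ≤ sd b v + 6 * h ∧ Reach (↑F : Set Edg) x b) := by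
      refine le_trans ?_ p1
      unfold kh
      exact pow_le_pow_of_le_one (by norm_num) (by norm_num) (by omega)
    have i1 := Ex0_incr (ES T) x v (454 * h) (6 * h)
    have i2 := HT_incr (ES T) T v (7 * h) (64 * (7 * h))
    have i3 := Cx_incr (ES T) T v (7 * h) (460 * n)
    have q1 := fkg i1 i2 hcW.le p1' w2'
    have q2 := fkg (incr_and i1 i2) i3 (by positivity) q1 w1'
    have e0 : min 1 (min cI 1) ≤ 1 := min_le_left _ _
    have e1 : 0 < min 1 (min cI 1) := lt_min one_pos (lt_min hcI one_pos)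
    calc min 1 (min cI 1) * kh * cW * (cW * (7 / 460)) * (ar h * q)
        = (min 1 (min cI 1) * ar h) * (kh * cW * (cW * (7 / 460) * q)) := by ring
      _ ≤ 1 * (kh * cW * (cW * (7 / 460) * q)) := by
          apply mul_le_mul_of_nonneg_right _ (by positivity)
          calc min 1 (min cI 1) * ar h ≤ 1 * 1 := mul_le_mul e0 hA1 hA0.le zero_le_one
            _ = 1 := one_mul 1
      _ = kh * cW * (cW * (7 / 460) * q) := one_mul _
      _ ≤ _ := q2
      _ ≤ _ := by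
        refine Pr_mono okP ?_
        rintro F hF ⟨⟨⟨b, hb, hxb⟩, k2⟩, k3⟩
        exact join hF hxv6 (r := 7 * h) (R := 460 * n) (by omega) (by omega)
          (by push_cast; exact k2) (by omega) k3 hx (by omega) (by omega) hxb (Reach.refl _ _)
  · -- a vertex with some space around
    set m := (h - 1) / 3 with hm
    have hm1 : 1 ≤ m := by omega
    have hb3 : BX x ((3 * m : ℕ) : ℤ) ⊆ T := hgt_ball (by omega)
    have hb1 : BX x ((m : ℕ) : ℤ) ⊆ T := hgt_ball (by omega)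
    have p0 : ar h ≤ Pr P (ES T) (Ar x (3 * m)) :=
      (Pool.Agent.H160R2.CV.ar_anti (by omega)).trans (lo0 hb3)
    have p1 : kh ≤ _ := hook hE 453 hwin (A := 6 * h) (m := m) (H := 454 * h) hxv6 hm1 hb1
      (by omega) (by push_cast; omega) (by push_cast; omega) (by omega)
    have p2 : min 1 (min cI 1) ≤ Pr P (ES T) (HB T x m (3 * m)) := by
      refine ((min_le_right _ _).trans (min_le_left _ _)).trans (hI T x m hm1 ?_)
      push_cast at hb3
      exact hb3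
    have e1 : 0 < min 1 (min cI 1) := lt_min one_pos (lt_min hcI one_pos)
    have i0 := Ar_incr (ES T) x (3 * m)
    have i1 := Ex_incr (ES T) T x v m (454 * h) (6 * h)
    have i2 := HT_incr (ES T) T v (7 * h) (64 * (7 * h))
    have i3 := Cx_incr (ES T) T v (7 * h) (460 * n)
    have i4 := HB_incr (ES T) T x m (3 * m)
    have q0 := fkg i4 i1 hk.le p2 p1
    have q1 := fkg (incr_and i4 i1) i2 hcW.le q0 w2'
    have q2 := fkg (incr_and (incr_and i4 i1) i2) i3 (by positivity) q1 w1'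
    have q3 := fkg (incr_and (incr_and (incr_and i4 i1) i2) i3) i0 hA0.le q2 p0
    calc min 1 (min cI 1) * kh * cW * (cW * (7 / 460)) * (ar h * q)
        = min 1 (min cI 1) * kh * cW * (cW * (7 / 460) * q) * ar h := by ring
      _ ≤ _ := q3
      _ ≤ _ := by
        refine Pr_mono okP ?_
        rintro F hF ⟨⟨⟨⟨⟨z, hzT, hz⟩, ⟨a, b, haT, hax, hb, hab⟩⟩, k2⟩, k3⟩, ⟨w, hw, hxw⟩⟩
        have t1 := sd_tri a x v
        have t2 := sd_tri b x v
        have m1 := HB_meet hF hz hx (by rw [sd_self]; omega) hw hxw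
        have m2 := HB_meet hF hz haT hax (by omega) hab
        exact join hF hxv6 (r := 7 * h) (R := 460 * n) (by omega) (by omega)
          (by push_cast; exact k2) (by omega) k3 haT (by omega) (by omega) hab
          (m1.trans m2.symm)

theorem t_ARM : S_WIN → S_EMB → S_INT → ArS → S_ARM := by
  intro hW hE hI hA B α hα
  obtain ⟨cW, CW, hcW, hCW, hW⟩ := hW B α hα
  obtain ⟨K1, hK1⟩ := TH976.ar_cmp hA
  obtain ⟨c1, hc1, hlo⟩ := lo1 hE hI (B := B) (α := α) hcW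
    (fun T v L hw r R h1 h2 h3 => ⟨(hW T v L hw r R h1 h2 h3).2.1, (hW T v L hw r R h1 h2 h3).2.2.2⟩)
  have hK : 1 ≤ K1 := (hK1 1 le_rfl).hk
  have hK0 : 0 < K1 := by linarith
  refine ⟨1000, 14 * K1 * (1 + CW) * (1 + c1⁻¹), by norm_num, ?_, ?_⟩
  · have h1 : 0 < c1⁻¹ := inv_pos.mpr hc1
    have h2 : 1 ≤ 14 * K1 := by linarith
    have h3 : 1 ≤ 14 * K1 * (1 + CW) := by nlinarith
    nlinarith
  intro T L hD x hx n hn hL
  have hci : 0 < c1⁻¹ := inv_pos.mpr hc1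
  have hpos := hgt_pos hx
  have hn0 : (0 : ℝ) < n := by exact_mod_cast hn
  have hh0 : (0 : ℝ) < hgt T x := by exact_mod_cast hpos
  have hE0 : 0 < EH (hgt T x) n := TH976.EH_pos hn0 hh0
  have hC1 : 14 * K1 ≤ 14 * K1 * (1 + CW) * (1 + c1⁻¹) := by
    have h3 : 14 * K1 ≤ 14 * K1 * (1 + CW) := by nlinarith
    nlinarith [mul_pos (mul_pos (by norm_num : (0:ℝ) < 14) hK0) (by linarith : 0 < 1 + CW)]
  have hC2 : 14 * K1 * CW ≤ 14 * K1 * (1 + CW) * (1 + c1⁻¹) := by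
    have h3 : 14 * K1 * CW ≤ 14 * K1 * (1 + CW) := by nlinarith
    nlinarith [mul_pos (mul_pos (by norm_num : (0:ℝ) < 14) hK0) (by linarith : 0 < 1 + CW)]
  have hC3 : K1 * c1⁻¹ ≤ 14 * K1 * (1 + CW) * (1 + c1⁻¹) := by
    have h3 : K1 ≤ 14 * K1 * (1 + CW) := by nlinarith
    have h4 : 0 < K1 * (1 + CW) := by positivity
    nlinarith [mul_pos h4 hci]
  have hup : aT T x n ≤ 14 * K1 * (1 + CW) * (1 + c1⁻¹) * EH (hgt T x) n := by
    rcases Nat.lt_or_ge (14 * hgt T x) n with h14 | h14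
    · obtain ⟨v, hv, hxv, hwin⟩ := base hD hx
      set h := hgt T x with hh
      have h1 := aT_split hx (c := v) (m := h) (r := 7 * h) (n := n - 6 * h) (N := n) (by omega)
        (by omega) (by omega)
      have h2 : aT T x h ≤ K1 * (h : ℝ) ^ (-(5 / 48 : ℝ)) := (up0 x h).trans (hK1 h hpos).l
      have h3 : bT T v (7 * h) (n - 6 * h) ≤ CW * (14 * ((h : ℝ) / n)) ^ (1 / 3 : ℝ) := by
        rw [bT_eq T v (7 * h) (n := n - 6 * h) (by omega)]
        have h5 := (hW T v L hwin ((7 * h : ℕ) : ℤ) ((n - 6 * h : ℕ) : ℤ) (by omega) (by omega)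
          (by omega)).1
        refine h5.trans (mul_le_mul_of_nonneg_left ?_ hCW.le)
        refine Real.rpow_le_rpow (by positivity) ?_ (by norm_num)
        have h6 : (n : ℝ) ≤ 2 * (((n - 6 * h : ℕ) : ℤ) : ℝ) := by
          have : (n : ℤ) ≤ 2 * ((n - 6 * h : ℕ) : ℤ) := by omega
          exact_mod_cast this
        have h7 : (0 : ℝ) < (((n - 6 * h : ℕ) : ℤ) : ℝ) := by linarith
        rw [div_le_iff₀ h7]
        push_cast
        have : 14 * ((h : ℝ) / n) * (((n - 6 * h : ℕ) : ℝ)) =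
          (7 * h) * (2 * ((n - 6 * h : ℕ) : ℝ) / n) := by ring
        rw [this]
        have h8 : 1 ≤ 2 * ((n - 6 * h : ℕ) : ℝ) / n := by
          rw [le_div_iff₀ hn0]
          push_cast at h6
          linarith
        nlinarith
      have h4 : EH h n = (h : ℝ) ^ (-(5 / 48 : ℝ)) * ((h : ℝ) / n) ^ (1 / 3 : ℝ) :=
        EH_big hh0 (by exact_mod_cast (by omega : h ≤ n))
      have h5 : (14 * ((h : ℝ) / n)) ^ (1 / 3 : ℝ) ≤ 14 * ((h : ℝ) / n) ^ (1 / 3 : ℝ) := by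
        rw [Real.mul_rpow (by norm_num) (by positivity)]
        apply mul_le_mul_of_nonneg_right _ (by positivity)
        calc (14 : ℝ) ^ (1 / 3 : ℝ) ≤ (14 : ℝ) ^ (1 : ℝ) :=
              Real.rpow_le_rpow_of_exponent_le (by norm_num) (by norm_num)
          _ = 14 := Real.rpow_one _
      calc aT T x n ≤ aT T x h * bT T v (7 * h) (n - 6 * h) := h1
        _ ≤ (K1 * (h : ℝ) ^ (-(5 / 48 : ℝ))) * (CW * (14 * ((h : ℝ) / n)) ^ (1 / 3 : ℝ)) :=
            mul_le_mul h2 h3 (bT_nonneg _ _ _ _) (by positivity)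
        _ ≤ (K1 * (h : ℝ) ^ (-(5 / 48 : ℝ))) * (CW * (14 * ((h : ℝ) / n) ^ (1 / 3 : ℝ))) := by
            apply mul_le_mul_of_nonneg_left _ (by positivity)
            exact mul_le_mul_of_nonneg_left h5 hCW.le
        _ = 14 * K1 * CW * EH h n := by rw [h4]; ring
        _ ≤ _ := mul_le_mul_of_nonneg_right hC2 hE0.le
    · have h2 : aT T x n ≤ K1 * (n : ℝ) ^ (-(5 / 48 : ℝ)) := (up0 x n).trans (hK1 n hn).l
      have h3 := EH_ge hn0 hh0 (by exact_mod_cast h14 : (n : ℝ) ≤ 14 * hgt T x)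
      calc aT T x n ≤ K1 * (14 * EH (hgt T x) n) := h2.trans (mul_le_mul_of_nonneg_left h3 hK0.le)
        _ = 14 * K1 * EH (hgt T x) n := by ring
        _ ≤ _ := mul_le_mul_of_nonneg_right hC1 hE0.le
  have hlow : EH (hgt T x) n ≤ 14 * K1 * (1 + CW) * (1 + c1⁻¹) * aT T x n := by
    have ha0 := aT_nonneg T x n
    rcases Nat.lt_or_ge n (hgt T x) with h | h
    · have h1 := lo0 (hgt_ball h)
      rw [EH_small hn0 (by exact_mod_cast h.le)]
      calc (n : ℝ) ^ (-(5 / 48 : ℝ)) ≤ K1 * ar n := (hK1 n hn).r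
        _ ≤ K1 * aT T x n := mul_le_mul_of_nonneg_left h1 hK0.le
        _ ≤ 14 * K1 * aT T x n := by
            apply mul_le_mul_of_nonneg_right _ ha0
            linarith
        _ ≤ _ := mul_le_mul_of_nonneg_right hC1 ha0
    · have h1 := hlo T L hD x hx n h (by push_cast at hL; exact hL)
      have h4 : EH (hgt T x) n = (hgt T x : ℝ) ^ (-(5 / 48 : ℝ)) * ((hgt T x : ℝ) / n) ^ (1 / 3 : ℝ) :=
        EH_big hh0 (by exact_mod_cast h)
      rw [h4]
      have h5 : ar (hgt T x) * ((hgt T x : ℝ) / n) ^ (1 / 3 : ℝ) ≤ c1⁻¹ * aT T x n := by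
        rw [inv_mul_eq_div, le_div_iff₀ hc1, mul_comm]
        exact h1
      calc (hgt T x : ℝ) ^ (-(5 / 48 : ℝ)) * ((hgt T x : ℝ) / n) ^ (1 / 3 : ℝ)
          ≤ (K1 * ar (hgt T x)) * ((hgt T x : ℝ) / n) ^ (1 / 3 : ℝ) :=
            mul_le_mul_of_nonneg_right (hK1 _ hpos).r (by positivity)
        _ = K1 * (ar (hgt T x) * ((hgt T x : ℝ) / n) ^ (1 / 3 : ℝ)) := by ring
        _ ≤ K1 * (c1⁻¹ * aT T x n) := mul_le_mul_of_nonneg_left h5 hK0.le
        _ = K1 * c1⁻¹ * aT T x n := by ring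
        _ ≤ _ := mul_le_mul_of_nonneg_right hC3 ha0
  have hCC : 1 ≤ 14 * K1 * (1 + CW) * (1 + c1⁻¹) := le_trans (by linarith) hC1
  have ha : 0 < aT T x n := by
    by_contra hcon
    push Not at hcon
    have : EH (hgt T x) n ≤ 0 := hlow.trans (mul_nonpos_of_nonneg_of_nonpos (by linarith) hcon)
    linarith
  exact ⟨hCC, ha, hE0, hup, hlow⟩

end Pool.Agent.NH41.CK.ARM
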