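import Pool.Agent.NH41.CK.Stm

/-!
Project CK (helper41): elementary lemmas on the height and on boxes.
-/

set_option autoImplicit false

namespace Pool.Agent.NH41.CK.HG

open H974 H973 Finset Pool.Agent.Y989.SD
open TH976 (sd sd_self sd_comm sd_tri sd_pos)

theorem mem_BX_sd {u v : Vtx} {n : ℕ} : u ∈ BX v (n : ℤ) ↔ sd u v ≤ n := by
  rw [mem_BX]
  unfold TH976.sd
  omega

theorem notMem_BX_sd {u v : Vtx} {n : ℕ} (hn : 1 ≤ n) : u ∉ BX v ((n : ℤ) - 1) ↔ n ≤ sd u v := by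
  rw [mem_BX]
  unfold TH976.sd
  omega

theorem exists_out (T : Finset Vtx) (x : Vtx) : ∃ y : Vtx, y ∉ T ∧ sd x y = hgt T x := by
  have h : {d : ℕ | ∃ y : Vtx, y ∉ T ∧ sd x y = d}.Nonempty := by
    obtain ⟨y, hy⟩ := Infinite.exists_notMem_finset T
    exact ⟨_, y, hy, rfl⟩
  exact Nat.sInf_mem h

theorem hgt_le {T : Finset Vtx} {x y : Vtx} (hy : y ∉ T) : hgt T x ≤ sd x y :=
  Nat.sInf_le ⟨y, hy, rfl⟩

theorem hgt_lip (T : Finset Vtx) (u v : Vtx) : hgt T u ≤ hgt T v + sd u v := by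
  obtain ⟨y, hy, h⟩ := exists_out T v
  have h1 := hgt_le (x := u) hy
  have h2 := sd_tri u v y
  omega

theorem hgt_pos {T : Finset Vtx} {x : Vtx} (hx : x ∈ T) : 1 ≤ hgt T x := by
  obtain ⟨y, hy, h⟩ := exists_out T x
  rw [← h]
  apply sd_pos
  rintro rfl
  exact hy hx

theorem hgt_ball {T : Finset Vtx} {x : Vtx} {n : ℕ} (hn : n < hgt T x) : BX x (n : ℤ) ⊆ T := by
  intro y hy
  rw [mem_BX_sd] at hy
  by_contra hc
  have := hgt_le (x := x) hc
  rw [sd_comm] at this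
  omega

theorem walk {T : Finset Vtx} {x y : Vtx} (hy : y ∉ T) (n : ℕ) : ∀ w : Vtx, w ∈ T →
    (min x.1 y.1 ≤ w.1 ∧ w.1 ≤ max x.1 y.1) ∧ (min x.2 y.2 ≤ w.2 ∧ w.2 ≤ max x.2 y.2) →
    (w.1 - y.1).natAbs + (w.2 - y.2).natAbs = n → ∃ u, btT T u ∧
      (min x.1 y.1 ≤ u.1 ∧ u.1 ≤ max x.1 y.1) ∧ (min x.2 y.2 ≤ u.2 ∧ u.2 ≤ max x.2 y.2) := by
  induction n with
  | zero =>
    intro w hw hr hn
    exfalso
    apply hy
    have h1 : w.1 = y.1 := by omega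
    have h2 : w.2 = y.2 := by omega
    rw [← (Prod.ext h1 h2 : w = y)]
    exact hw
  | succ n ih =>
    intro w hw hr hn
    obtain ⟨w1, w2⟩ := w
    simp only at hr hn
    rcases lt_trichotomy w1 y.1 with h | h | h
    · by_cases hT : (w1 + 1, w2) ∈ T
      · exact ih _ hT (by simp only; omega) (by simp only; omega)
      · exact ⟨(w1, w2), ⟨hw, Or.inl hT⟩, hr⟩
    · rcases lt_trichotomy w2 y.2 with h' | h' | h'
      · by_cases hT : (w1, w2 + 1) ∈ T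
        · exact ih _ hT (by simp only; omega) (by simp only; omega)
        · exact ⟨(w1, w2), ⟨hw, Or.inr (Or.inr (Or.inl hT))⟩, hr⟩
      · omega
      · by_cases hT : (w1, w2 - 1) ∈ T
        · exact ih _ hT (by simp only; omega) (by simp only; omega)
        · exact ⟨(w1, w2), ⟨hw, Or.inr (Or.inr (Or.inr hT))⟩, hr⟩
    · by_cases hT : (w1 - 1, w2) ∈ T
      · exact ih _ hT (by simp only; omega) (by simp only; omega)
      · exact ⟨(w1, w2), ⟨hw, Or.inr (Or.inl hT)⟩, hr⟩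

theorem hgt_btT {T : Finset Vtx} {x : Vtx} (hx : x ∈ T) : ∃ u, btT T u ∧ sd x u ≤ hgt T x := by
  obtain ⟨y, hy, h⟩ := exists_out T x
  obtain ⟨u, hu, h1, h2⟩ := walk (x := x) hy _ x hx (by omega) rfl
  refine ⟨u, hu, ?_⟩
  rw [← h]
  unfold TH976.sd
  omega

end Pool.Agent.NH41.CK.HG
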