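import Pool.Agent.NH41.CK.INT
import Pool.Agent.NH41.CK.HG

/-!
Project CK (helper41): blocking clusters at every scale.
-/

set_option autoImplicit false

namespace Pool.Agent.NH41.CK.BLK

open H974 H973 Finset Pool.Agent.Y989.SD
open TH976 (sd sd_self sd_comm sd_tri sd_pos)
open Pool.Agent.NH41.CK.HG

theorem Blk_imp {T : Finset Vtx} {A B A' B' : Vtx → Prop} {z : Vtx} {F : Finset Edg}
    (hA : ∀ u, A' u → A u) (hB : ∀ w, B' w → B w) (h : Blk T A B z F) : Blk T A' B' z F :=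
  fun u hu hAu w hw hBw => h u hu (hA u hAu) w hw (hB w hBw)

theorem HB_mono {T : Finset Vtx} {x : Vtx} {r r' R R' : ℕ} (h1 : r' ≤ r) (h2 : R ≤ R')
    {F : Finset Edg} (h : HB T x r R F) : HB T x r' R' F := by
  obtain ⟨z, hz, hb⟩ := h
  exact ⟨z, hz, Blk_imp (fun u hu => hu.trans h1) (fun w hw => h2.trans hw) hb⟩

/-- the base of a window near a vertex -/
theorem base {T : Finset Vtx} {L : ℤ} {B α : ℝ} (hD : Dm T L B α) {x : Vtx} (hx : x ∈ T) :
    ∃ v ∈ T, sd x v ≤ hgt T x + 5 ∧ Win T v L B α := by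
  obtain ⟨u, hu, h1⟩ := hgt_btT hx
  obtain ⟨v, hv, h2, h3⟩ := hD u hu
  have := sd_tri x u v
  exact ⟨v, hv, by omega, h3⟩

theorem t_BLK : S_WIN → S_INT → S_BLK := by
  intro hW hI B α hα
  obtain ⟨c1, C1, hc1, -, hW⟩ := hW B α hα
  obtain ⟨c2, hc2, hI⟩ := hI
  refine ⟨1152, min c1 c2, by norm_num, lt_min hc1 hc2, ?_⟩
  intro T L hD x hx r hr hL
  push_cast at hL
  rcases Nat.lt_or_ge (3 * r) (hgt T x) with h | h
  · refine (min_le_right _ _).trans ((hI T x r hr ?_).trans (Pr_mono okhalf fun F _ hF => ?_))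
    · have := hgt_ball h
      push_cast at this
      exact this
    · exact HB_mono le_rfl (by omega) hF
  · obtain ⟨v, hv, h1, h2⟩ := base hD hx
    refine (min_le_left _ _).trans (((hW T v L h2 (9 * r) (9 * r) (by omega) le_rfl
      (by omega)).2.2.2 (by omega)).trans (Pr_mono okhalf fun F _ hF => ?_))
    obtain ⟨z, hz, -, -, hb⟩ := hF
    refine ⟨z, hz, Blk_imp ?_ ?_ hb⟩
    · intro u hu
      have h3 := sd_tri u x v
      rw [mem_BX]
      unfold TH976.sd at h3 hu h1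
      omega
    · intro w hw
      have h3 := sd_tri w v x
      rw [sd_comm v x] at h3
      rw [mem_BX]
      unfold TH976.sd at h3 hw h1
      omega

end Pool.Agent.NH41.CK.BLK
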