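import Pool.Agent.NH41.CK.GOOD2

/-!
Project CK (helper41): adding a point, in terms of the profile (with the diameter as a separate
constant).
-/

set_option autoImplicit false

namespace Pool.Agent.NH41.CK.GOOD3

open H974 H973 Finset Pool.Agent.Y989.SD
open TH976 (sd sd_self sd_comm sd_tri sd_pos Ar Cmp EH fkg incr_and Reg Good PD Near Diam)
open Pool.Agent.NH41.CK.HG Pool.Agent.NH41.CK.BLK Pool.Agent.NH41.CK.LOC
open Pool.Agent.H160R2.CV (P)
open Pool.Agent.H160R2.CV.Quad
open H362P (Cn Cn_insert Cn_incr hit_or)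
open Pool.Agent.NH41.CK.GOOD (upper1 upper2 bT_le lower1 lower2 pf_one pow_bd bD_eq)

/-- The properties of the lattice domain which are used. -/
structure Net2 (T : Finset Vtx) (S K M : ℕ) (c : ℝ) : Prop where
  hK : 3 ≤ K
  hS : 1 ≤ S
  hM : 1 ≤ M
  hc : 0 < c
  blk : ∀ x ∈ T, ∀ r : ℕ, 1 ≤ r → r ≤ S → c ≤ Pr hf (ES T) (HB T x r (K * r))
  lnk : ∀ x ∈ T, ∀ y ∈ T, c ≤ Pr hf (ES T) (LB T x y S (K * S))
  dia : ∀ x ∈ T, ∀ y ∈ T, sd x y ≤ M * S
  arm : ∀ x ∈ T, ∀ n : ℕ, 1 ≤ n → n ≤ K * S → Cmp c⁻¹ (Pr hf (ES T) (Ar x n)) (pf T x n)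

/-- Adding a point. -/
def S_GOOD2 : Prop := ∀ (K M : ℕ) (c k : ℝ), ∃ c' : ℝ, 0 < c' ∧ ∀ (T : Finset Vtx) (S : ℕ),
  Net2 T S K M c → Reg (↑T : Set Vtx) (pf T) k → Good (↑T : Set Vtx) (pf T) c'

/-- the data -/
structure Dat (T : Finset Vtx) (S K M : ℕ) (c k κ Q : ℝ) : Prop where
  net : Net2 T S K M c
  reg : Reg (↑T : Set Vtx) (pf T) k
  hκ : κ = c⁻¹
  hκ1 : 1 ≤ κ
  hQ1 : 1 ≤ Q
  hkQ : k ≤ Q
  near : ∀ v ∈ T, ∀ n m : ℕ, 1 ≤ n → 1 ≤ m → m ≤ 12 * K ^ 3 * M * n → pf T v n ≤ Q * pf T v m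

variable {T : Finset Vtx} {S K M : ℕ} {c k κ Q : ℝ}

theorem Dat.of (hn : Net2 T S K M c) (hr : Reg (↑T : Set Vtx) (pf T) k) {x : Vtx} (hx : x ∈ T) :
    Dat T S K M c k c⁻¹ (k ^ (12 * K ^ 3 * M + 1)) := by
  have hk := hr.hk
  refine ⟨hn, hr, rfl, (hn.arm x hx 1 le_rfl ?_).hk, one_le_pow₀ hk, ?_, ?_⟩
  · exact Nat.mul_pos (by linarith [hn.hK]) hn.hS
  · exact le_self_pow₀ hk (by omega)
  · intro v hv n m h1 h2 h3
    exact Pool.Agent.NH41.CK.GOOD.near hr hv (12 * K ^ 3 * M) h1 h2 h3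

theorem Dat.near1 (h : Dat T S K M c k κ Q) {v : Vtx} (hv : v ∈ T) {n m : ℕ} (h1 : 1 ≤ n)
    (h2 : 1 ≤ m) (h3 : m ≤ 12 * K ^ 3 * n) : pf T v n ≤ Q * pf T v m := by
  refine h.near v hv n m h1 h2 (h3.trans (Nat.mul_le_mul_right n ?_))
  exact Nat.le_mul_of_pos_right _ h.net.hM

theorem Dat.near2 (h : Dat T S K M c k κ Q) {v : Vtx} (hv : v ∈ T) {n m : ℕ} (h1 : 1 ≤ n)
    (h2 : 1 ≤ m) (h3 : m ≤ M * n) : pf T v n ≤ Q * pf T v m := by
  refine h.near v hv n m h1 h2 (h3.trans (Nat.mul_le_mul_right n ?_))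
  refine Nat.le_mul_of_pos_left _ ?_
  have := h.net.hK
  have : 0 < K ^ 3 := pow_pos (by omega) 3
  omega

/-- `p ≤ κ q` from `c p ≤ q` -/
theorem Dat.inv (h : Dat T S K M c k κ Q) {p q : ℝ} (hpq : c * p ≤ q) : p ≤ κ * q := by
  have hc := h.net.hc
  rw [h.hκ, inv_mul_eq_div, le_div_iff₀ hc, mul_comm]
  exact hpq

theorem Dat.up (h : Dat T S K M c k κ Q) {v : Vtx} (hv : v ∈ T) {n : ℕ} (h1 : 1 ≤ n)
    (h2 : n ≤ K * S) : aT T v n ≤ κ * pf T v n := by
  rw [h.hκ]
  exact (h.net.arm v hv n h1 h2).l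

theorem Dat.lo (h : Dat T S K M c k κ Q) {v : Vtx} (hv : v ∈ T) {n : ℕ} (h1 : 1 ≤ n)
    (h2 : n ≤ K * S) : pf T v n ≤ κ * aT T v n := by
  rw [h.hκ]
  exact (h.net.arm v hv n h1 h2).r

theorem Dat.pos (h : Dat T S K M c k κ Q) {v : Vtx} (hv : v ∈ T) {n : ℕ} (h1 : 1 ≤ n) :
    0 < pf T v n := h.reg.pos v hv n h1

theorem claimU (h : Dat T S K M c k κ Q) {X : Finset Vtx} (hXT : ∀ u ∈ X, u ∈ T) {x y : Vtx}
    (hx : x ∈ T) (hy : y ∈ X) {a D : ℕ} (hxy : sd x y = a) (ha : 1 ≤ a) (hD : 1 ≤ D)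
    (hX : ∀ u ∈ X, a ≤ sd u x) (hXD : ∀ u ∈ X, sd u y ≤ D) :
    pf T y D * Pr P (ES T) (fun F => Cn (insert x X) (↑F)) ≤
      (κ * Q) ^ 8 * ((pf T x a * pf T y (max a D)) * Pr P (ES T) (fun F => Cn X (↑F))) := by
  have hyT := hXT y hy
  have hK := h.net.hK
  have hS := h.net.hS
  have hM := h.net.hM
  have haM : a ≤ M * S := by
    have := h.net.dia x hx y hyT
    omega
  have hκ1 := h.hκ1
  have hQ1 := h.hQ1
  have hκ0 : 0 < κ := by linarith
  have hQ0 : 0 < Q := by linarith
  have e1 := h.pos hx ha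
  have e2 := h.pos hyT hD
  have e3 := h.pos hyT (n := max a D) (by omega)
  have pI : 0 ≤ Pr P (ES T) (fun F => Cn (insert x X) (↑F)) := Pr_nonneg okP _ _
  have pX : 0 ≤ Pr P (ES T) (fun F => Cn X (↑F)) := Pr_nonneg okP _ _
  have hIX : Pr P (ES T) (fun F => Cn (insert x X) (↑F)) ≤ Pr P (ES T) (fun F => Cn X (↑F)) :=
    Pr_mono okP (fun F _ hF u hu v hv => hF u (Finset.mem_insert_of_mem hu) v
      (Finset.mem_insert_of_mem hv))
  have K3 : K * K ≤ K ^ 3 := by nlinarith [Nat.mul_pos (by omega : 0 < K) (by omega : 0 < K)]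
  have K2 : 3 * K ≤ K * K := Nat.mul_le_mul_right K hK
  rcases Nat.lt_or_ge a K with haK | haK
  · -- small distance
    have n1 : 1 ≤ Q * pf T x a := by
      have := h.near1 hx (n := 1) (m := a) le_rfl ha (by nlinarith)
      rwa [pf_one hx] at this
    have n2 : pf T y D ≤ Q * pf T y (max a D) := by
      apply h.near1 hyT hD (by omega)
      have h1 : max a D ≤ K * D := max_le (by nlinarith) (by nlinarith)
      exact h1.trans (Nat.mul_le_mul_right D (by nlinarith))
    calc pf T y D * Pr P (ES T) (fun F => Cn (insert x X) (↑F))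
        ≤ (Q * pf T y (max a D)) * Pr P (ES T) (fun F => Cn X (↑F)) :=
          mul_le_mul n2 hIX pI (by positivity)
      _ = 1 * ((Q * pf T y (max a D)) * Pr P (ES T) (fun F => Cn X (↑F))) := (one_mul _).symm
      _ ≤ (Q * pf T x a) * ((Q * pf T y (max a D)) * Pr P (ES T) (fun F => Cn X (↑F))) :=
          mul_le_mul_of_nonneg_right n1 (by positivity)
      _ = (κ ^ 0 * Q ^ 2) * ((pf T x a * pf T y (max a D)) *
          Pr P (ES T) (fun F => Cn X (↑F))) := by ring
      _ ≤ _ := mul_le_mul_of_nonneg_right (pow_bd hκ1 hQ1 (by norm_num) (by norm_num))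
          (by positivity)
  · rcases Nat.lt_or_ge a (12 * K ^ 3 * M * D) with hsm | hbig
    · -- the diameter is not small
      obtain ⟨r, hKr, hr1, hrS, hra⟩ : ∃ r : ℕ, K * r ≤ a ∧ 1 ≤ r ∧ r ≤ S ∧
          (a ≤ 12 * K ^ 3 * r ∨ a ≤ M * r) := by
        have hKr : K * (a / K) ≤ a := Nat.mul_div_le a K
        rcases Nat.le_total (a / K) S with h1 | h1
        · have hrK : a < K * (a / K + 1) := Nat.lt_mul_div_succ a (by omega)
          have hr1 : 1 ≤ a / K := (Nat.one_le_div_iff (by omega)).mpr haK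
          refine ⟨a / K, hKr, hr1, h1, Or.inl ?_⟩
          generalize a / K = r at *
          have h1 : a ≤ 2 * K * r := by nlinarith
          exact h1.trans (Nat.mul_le_mul_right r (by nlinarith))
        · exact ⟨S, (Nat.mul_le_mul_left K h1).trans hKr, hS, le_rfl, Or.inr haM⟩
      have hrN : r ≤ K * S := hrS.trans (Nat.le_mul_of_pos_left S (by omega))
      have hr_le : r ≤ a := (Nat.le_mul_of_pos_left r (by omega)).trans hKr
      have hnr : pf T x r ≤ Q * pf T x a := by
        rcases hra with hra | hra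
        · exact h.near1 hx hr1 ha hra
        · exact h.near2 hx hr1 ha hra
      have u1 := upper1 (T := T) (X := X) (x := x) (y := y) (r := r) (R := K * r) hy
        (by rw [sd_comm, hxy]; exact hr_le) (fun u hu => hKr.trans (hX u hu))
        (h.net.blk x hx r hr1 hrS)
      have u2 := h.inv u1
      have n1 : aT T x r ≤ κ * (Q * pf T x a) :=
        (h.up hx hr1 hrN).trans (mul_le_mul_of_nonneg_left hnr hκ0.le)
      have n2 : pf T y D ≤ Q * pf T y (max a D) := by
        apply h.near y hyT D (max a D) hD (by omega)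
        refine max_le hsm.le (Nat.le_mul_of_pos_left D ?_)
        exact Nat.mul_pos (by omega) hM
      calc pf T y D * Pr P (ES T) (fun F => Cn (insert x X) (↑F))
          ≤ (Q * pf T y (max a D)) * (κ * ((κ * (Q * pf T x a)) *
              Pr P (ES T) (fun F => Cn X (↑F)))) := by
            apply mul_le_mul n2 _ pI (by positivity)
            refine u2.trans (mul_le_mul_of_nonneg_left ?_ hκ0.le)
            exact mul_le_mul_of_nonneg_right n1 pX
        _ = (κ ^ 2 * Q ^ 2) * ((pf T x a * pf T y (max a D)) *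
            Pr P (ES T) (fun F => Cn X (↑F))) := by ring
        _ ≤ _ := mul_le_mul_of_nonneg_right (pow_bd hκ1 hQ1 (by norm_num) (by norm_num))
            (by positivity)
    · -- the new point is far from the others
      have hK0 : 0 < K := by omega
      have hK3 : 27 ≤ K ^ 3 := by
        calc 27 = 3 ^ 3 := by norm_num
          _ ≤ K ^ 3 := Nat.pow_le_pow_left hK 3
      have hbig1 : 12 * K ^ 3 * D ≤ a := by
        refine le_trans ?_ hbig
        exact Nat.mul_le_mul_right D (Nat.le_mul_of_pos_right _ hM)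
      have hbig2 : 12 * K ^ 3 * D ≤ S := by
        have h1 : M * (12 * K ^ 3 * D) ≤ M * S := by
          refine le_trans (le_of_eq ?_) (hbig.trans haM)
          ring
        exact Nat.le_of_mul_le_mul_left h1 hM
      have hKKD' : K * (K * D) ≤ K ^ 3 * D := by
        calc K * (K * D) = (K * K) * D := by ring
          _ ≤ K ^ 3 * D := Nat.mul_le_mul_right D K3
      have hKD : K * D ≤ K * (K * D) := Nat.le_mul_of_pos_left _ hK0
      have hDK : D ≤ K * D := Nat.le_mul_of_pos_left _ hK0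
      have hb1 : 12 * (K ^ 3 * D) ≤ a := by
        rw [← mul_assoc]
        exact hbig1
      have hb2 : 12 * (K ^ 3 * D) ≤ S := by
        rw [← mul_assoc]
        exact hbig2
      have hSK : S ≤ K * S := Nat.le_mul_of_pos_left S hK0
      obtain ⟨n, hn1, hn3, hnN, hKKD, hna⟩ : ∃ n : ℕ, 1 ≤ n ∧ 2 * n + 1 ≤ a ∧ n ≤ K * S ∧
          K * (K * D) ≤ n ∧ (a ≤ 12 * K ^ 3 * n ∨ a ≤ M * n) := by
        have ha324 : 324 ≤ a := by nlinarith
        rcases Nat.le_total (a / 3) (K * S) with h1 | h1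
        · refine ⟨a / 3, by omega, by omega, h1, by omega, Or.inl ?_⟩
          have h2 : a ≤ 6 * (a / 3) := by omega
          refine h2.trans (Nat.mul_le_mul_right _ (by omega))
        · refine ⟨K * S, by omega, by omega, le_rfl, by omega, Or.inr ?_⟩
          exact haM.trans (Nat.mul_le_mul_left M hSK)
      have hKDS : K * D ≤ S := by omega
      have hnx : pf T x n ≤ Q * pf T x a := by
        rcases hna with h1 | h1
        · exact h.near1 hx hn1 ha h1
        · exact h.near2 hx hn1 ha h1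
      have hmax : max a D = a := max_eq_left (by omega)
      have hny : pf T y n ≤ Q * pf T y (max a D) := by
        rw [hmax]
        rcases hna with h1 | h1
        · exact h.near1 hyT hn1 ha h1
        · exact h.near2 hyT hn1 ha h1
      have u1 := upper2 hXT (x := x) (y := y) (n := n) (r := D) (R := K * D) hy
        (by omega) hDK (by omega) hXD (h.net.blk y hyT D hD (by omega))
      have u2 := h.inv u1
      have b1 := bT_le hyT (r := K * D) (R := K * (K * D)) (n := n) hKD hKKD h.net.hc.le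
        (h.net.blk y hyT (K * D) (by omega) hKDS)
      have b2 := h.inv b1
      have n1 : aT T x n ≤ κ * (Q * pf T x a) :=
        (h.up hx hn1 hnN).trans (mul_le_mul_of_nonneg_left hnx hκ0.le)
      have n2 : aT T y n ≤ κ * (Q * pf T y (max a D)) :=
        (h.up hyT hn1 hnN).trans (mul_le_mul_of_nonneg_left hny hκ0.le)
      have n3 : pf T y D ≤ Q * (κ * aT T y (K * (K * D))) := by
        have h1 : 1 ≤ K * (K * D) := by omega
        refine (h.near1 hyT hD h1 ?_).trans
          (mul_le_mul_of_nonneg_left (h.lo hyT h1 (by omega)) hQ0.le)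
        calc K * (K * D) = (K * K) * D := by ring
          _ ≤ 12 * K ^ 3 * D := Nat.mul_le_mul_right D (by nlinarith)
      have a0 := aT_nonneg T x n
      have a1 := aT_nonneg T y (K * (K * D))
      have a2 := bT_nonneg T y (K * D) n
      calc pf T y D * Pr P (ES T) (fun F => Cn (insert x X) (↑F))
          ≤ (Q * (κ * aT T y (K * (K * D)))) *
              (κ * (aT T x n * (bT T y (K * D) n * Pr P (ES T) (fun F => Cn X (↑F))))) :=
            mul_le_mul n3 u2 pI (by positivity)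
        _ = (Q * κ * κ) * (aT T x n * ((aT T y (K * (K * D)) * bT T y (K * D) n) *
              Pr P (ES T) (fun F => Cn X (↑F)))) := by ring
        _ ≤ (Q * κ * κ) * ((κ * (Q * pf T x a)) * ((κ * (κ * (Q * pf T y (max a D)))) *
              Pr P (ES T) (fun F => Cn X (↑F)))) := by
            apply mul_le_mul_of_nonneg_left _ (by positivity)
            apply mul_le_mul n1 _ (by positivity) (by positivity)
            apply mul_le_mul_of_nonneg_right _ pX
            exact b2.trans (mul_le_mul_of_nonneg_left n2 hκ0.le)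
        _ = (κ ^ 5 * Q ^ 3) * ((pf T x a * pf T y (max a D)) *
            Pr P (ES T) (fun F => Cn X (↑F))) := by ring
        _ ≤ _ := mul_le_mul_of_nonneg_right (pow_bd hκ1 hQ1 (by norm_num) (by norm_num))
            (by positivity)

/-- the link between two points -/
theorem link (h : Dat T S K M c k κ Q) {x y : Vtx} (hx : x ∈ T) (hy : y ∈ T) {a : ℕ}
    (hxy : sd x y = a) (ha : 1 ≤ a) : ∃ s R : ℕ, R ≤ 3 * K * a ∧ R ≤ K * S ∧ 1 ≤ R ∧
      ((s = a ∧ R = 3 * K * a) ∨ (s = S ∧ R = K * S)) ∧ c ≤ Pr P (ES T) (LB T x y s R) := by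
  have hK := h.net.hK
  have hS := h.net.hS
  rcases Nat.lt_or_ge S (3 * a) with h1 | h1
  · refine ⟨S, K * S, ?_, le_rfl, Nat.mul_pos (by omega) hS, Or.inr ⟨rfl, rfl⟩,
      h.net.lnk x hx y hy⟩
    calc K * S ≤ K * (3 * a) := Nat.mul_le_mul_left K h1.le
      _ = 3 * K * a := by ring
  · refine ⟨a, 3 * K * a, le_rfl, ?_, ?_, Or.inl ⟨rfl, rfl⟩, ?_⟩
    · calc 3 * K * a = K * (3 * a) := by ring
        _ ≤ K * S := Nat.mul_le_mul_left K h1
    · exact Nat.mul_pos (by omega) ha
    · refine (h.net.blk x hx (2 * a) (by omega) (by omega)).trans (Pr_mono okhalf ?_)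
      rintro F - ⟨z, hz, hb⟩
      have hKa : 3 * a ≤ K * a := Nat.mul_le_mul_right a hK
      have e : 3 * K * a = 3 * (K * a) := by ring
      have e2 : K * (2 * a) = 2 * (K * a) := by ring
      refine ⟨z, hz, Blk_imp ?_ ?_ hb, Blk_imp ?_ ?_ hb⟩
      · intro u hu; omega
      · intro w hw; omega
      · intro u hu
        have := sd_tri u y x
        have := sd_comm x y
        omega
      · intro w hw
        have := sd_tri w x y
        omega

theorem claimL (h : Dat T S K M c k κ Q) {X : Finset Vtx} (hXT : ∀ u ∈ X, u ∈ T) {x y z0 : Vtx}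
    (hx : x ∈ T) (hy : y ∈ X) (hz0 : z0 ∈ X) {a D : ℕ} (hxy : sd x y = a) (ha : 1 ≤ a)
    (hD : 1 ≤ D) (hcase : D ≤ 4 * K ∨ D ≤ 2 * sd z0 y) :
    (pf T x a * pf T y (max a D)) * Pr P (ES T) (fun F => Cn X (↑F)) ≤
      (κ * Q) ^ 8 * (pf T y D * Pr P (ES T) (fun F => Cn (insert x X) (↑F))) := by
  have hyT := hXT y hy
  have hK := h.net.hK
  have hS := h.net.hS
  have hM := h.net.hM
  have haM : a ≤ M * S := by
    have := h.net.dia x hx y hyT
    omega
  have hκ1 := h.hκ1
  have hQ1 := h.hQ1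
  have hκ0 : 0 < κ := by linarith
  have hQ0 : 0 < Q := by linarith
  have hk1 := h.reg.hk
  have hkQ := h.hkQ
  have e1 := h.pos hx ha
  have e2 := h.pos hyT hD
  have e3 := h.pos hyT (n := max a D) (by omega)
  have e4 := h.pos hyT ha
  have pI : 0 ≤ Pr P (ES T) (fun F => Cn (insert x X) (↑F)) := Pr_nonneg okP _ _
  have pX : 0 ≤ Pr P (ES T) (fun F => Cn X (↑F)) := Pr_nonneg okP _ _
  have K3 : K * K ≤ K ^ 3 := by nlinarith [Nat.mul_pos (by omega : 0 < K) (by omega : 0 < K)]
  have K2 : 3 * K ≤ K * K := Nat.mul_le_mul_right K hK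
  obtain ⟨s, R, r2, r3, r4, r5, hlb⟩ := link h hx hyT hxy ha
  have hRM : R ≤ 12 * K ^ 3 * a := r2.trans (Nat.mul_le_mul_right a (by nlinarith))
  have g1 : pf T x a ≤ Q * (κ * aT T x R) :=
    (h.near1 hx ha r4 hRM).trans (mul_le_mul_of_nonneg_left (h.lo hx r4 r3) hQ0.le)
  have g2 : pf T y a ≤ Q * (κ * aT T y R) :=
    (h.near1 hyT ha r4 hRM).trans (mul_le_mul_of_nonneg_left (h.lo hyT r4 r3) hQ0.le)
  have b0 := aT_nonneg T x R
  have b1 := aT_nonneg T y R
  by_cases hsm : D ≤ 4 * K ∨ a ≤ 4 * K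
  · have l0 := lower1 hx hyT hy hlb
    have l1 : (aT T x R * aT T y R) * Pr P (ES T) (fun F => Cn X (↑F)) ≤
        κ * Pr P (ES T) (fun F => Cn (insert x X) (↑F)) := by
      apply h.inv
      rw [← mul_assoc]
      exact l0
    rcases hsm with hsm | hsm
    · have g3 : pf T y (max a D) ≤ Q * pf T y a :=
        (h.reg.anti y hyT a (max a D) ha (le_max_left _ _)).trans
          (mul_le_mul_of_nonneg_right hkQ e4.le)
      have g4 : 1 ≤ Q * pf T y D := by
        have := h.near1 hyT (n := 1) (m := D) le_rfl hD (by nlinarith)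
        rwa [pf_one hyT] at this
      calc (pf T x a * pf T y (max a D)) * Pr P (ES T) (fun F => Cn X (↑F))
          ≤ ((Q * (κ * aT T x R)) * (Q * (Q * (κ * aT T y R)))) *
              Pr P (ES T) (fun F => Cn X (↑F)) := by
            apply mul_le_mul_of_nonneg_right _ pX
            apply mul_le_mul g1 _ e3.le (by positivity)
            exact g3.trans (mul_le_mul_of_nonneg_left g2 hQ0.le)
        _ = (Q ^ 3 * κ ^ 2) * ((aT T x R * aT T y R) * Pr P (ES T) (fun F => Cn X (↑F))) := by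
            ring
        _ ≤ (Q ^ 3 * κ ^ 2) * (κ * Pr P (ES T) (fun F => Cn (insert x X) (↑F))) :=
            mul_le_mul_of_nonneg_left l1 (by positivity)
        _ = 1 * ((Q ^ 3 * κ ^ 2) * (κ * Pr P (ES T) (fun F => Cn (insert x X) (↑F)))) :=
            (one_mul _).symm
        _ ≤ (Q * pf T y D) * ((Q ^ 3 * κ ^ 2) *
              (κ * Pr P (ES T) (fun F => Cn (insert x X) (↑F)))) :=
            mul_le_mul_of_nonneg_right g4 (by positivity)
        _ = (κ ^ 3 * Q ^ 4) * (pf T y D * Pr P (ES T) (fun F => Cn (insert x X) (↑F))) := by ring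
        _ ≤ _ := mul_le_mul_of_nonneg_right (pow_bd hκ1 hQ1 (by norm_num) (by norm_num))
            (by positivity)
    · have g3 : pf T y (max a D) ≤ Q * pf T y D :=
        (h.reg.anti y hyT D (max a D) hD (le_max_right _ _)).trans
          (mul_le_mul_of_nonneg_right hkQ e2.le)
      have g5 : pf T x a ≤ Q := by
        have := h.reg.anti x hx 1 a le_rfl ha
        rw [pf_one hx, mul_one] at this
        exact this.trans hkQ
      have hR1 : R ≤ 12 * K ^ 3 * 1 := by
        have h1 : R ≤ 3 * K * (4 * K) := r2.trans (Nat.mul_le_mul_left _ hsm)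
        nlinarith
      have g6 : 1 ≤ Q * (κ * aT T x R) := by
        have := (h.near1 hx (n := 1) (m := R) le_rfl r4 hR1).trans
          (mul_le_mul_of_nonneg_left (h.lo hx r4 r3) hQ0.le)
        rwa [pf_one hx] at this
      have g7 : 1 ≤ Q * (κ * aT T y R) := by
        have := (h.near1 hyT (n := 1) (m := R) le_rfl r4 hR1).trans
          (mul_le_mul_of_nonneg_left (h.lo hyT r4 r3) hQ0.le)
        rwa [pf_one hyT] at this
      have g8 : 1 ≤ (Q * (κ * aT T x R)) * (Q * (κ * aT T y R)) := by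
        calc (1 : ℝ) = 1 * 1 := (one_mul 1).symm
          _ ≤ _ := mul_le_mul g6 g7 zero_le_one (by positivity)
      calc (pf T x a * pf T y (max a D)) * Pr P (ES T) (fun F => Cn X (↑F))
          ≤ (Q * (Q * pf T y D)) * Pr P (ES T) (fun F => Cn X (↑F)) := by
            apply mul_le_mul_of_nonneg_right _ pX
            exact mul_le_mul g5 g3 e3.le hQ0.le
        _ = 1 * ((Q * (Q * pf T y D)) * Pr P (ES T) (fun F => Cn X (↑F))) := (one_mul _).symm
        _ ≤ ((Q * (κ * aT T x R)) * (Q * (κ * aT T y R))) * ((Q * (Q * pf T y D)) *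
              Pr P (ES T) (fun F => Cn X (↑F))) := mul_le_mul_of_nonneg_right g8 (by positivity)
        _ = (Q ^ 4 * κ ^ 2 * pf T y D) * ((aT T x R * aT T y R) *
              Pr P (ES T) (fun F => Cn X (↑F))) := by ring
        _ ≤ (Q ^ 4 * κ ^ 2 * pf T y D) * (κ * Pr P (ES T) (fun F => Cn (insert x X) (↑F))) :=
            mul_le_mul_of_nonneg_left l1 (by positivity)
        _ = (κ ^ 3 * Q ^ 4) * (pf T y D * Pr P (ES T) (fun F => Cn (insert x X) (↑F))) := by ring
        _ ≤ _ := mul_le_mul_of_nonneg_right (pow_bd hκ1 hQ1 (by norm_num) (by norm_num))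
            (by positivity)
  · push Not at hsm
    obtain ⟨hD4, ha4⟩ := hsm
    have hfar : D ≤ 2 * sd z0 y := by
      rcases hcase with h1 | h1
      · omega
      · exact h1
    set m := min a D with hm
    have hm1 : 1 ≤ m := by omega
    have hK0 : 0 < 2 * K := by omega
    obtain ⟨q, hq1, hKq, hqS, hqn⟩ : ∃ q : ℕ, 1 ≤ q ∧ K * q + K * q ≤ m ∧ q ≤ S ∧
        (m ≤ 12 * K ^ 3 * q ∨ m ≤ M * q) := by
      have hqm : 2 * K * (m / (2 * K)) ≤ m := Nat.mul_div_le m (2 * K)
      have hmq : m < 2 * K * (m / (2 * K) + 1) := Nat.lt_mul_div_succ m hK0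
      have hq1 : 1 ≤ m / (2 * K) := (Nat.one_le_div_iff hK0).mpr (by omega)
      rcases Nat.le_total (m / (2 * K)) S with h1 | h1
      · refine ⟨m / (2 * K), hq1, ?_, h1, Or.inl ?_⟩
        · calc K * (m / (2 * K)) + K * (m / (2 * K)) = 2 * K * (m / (2 * K)) := by ring
            _ ≤ m := hqm
        · generalize m / (2 * K) = q at *
          have h1 : m ≤ 4 * K * q := by nlinarith
          exact h1.trans (Nat.mul_le_mul_right q (by nlinarith))
      · refine ⟨S, hS, ?_, le_rfl, Or.inr ?_⟩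
        · calc K * S + K * S = 2 * K * S := by ring
            _ ≤ 2 * K * (m / (2 * K)) := Nat.mul_le_mul_left _ h1
            _ ≤ m := hqm
        · exact (min_le_left a D).trans haM
    have hqK : q ≤ K * q := Nat.le_mul_of_pos_left q (by omega)
    have hKqS : K * q ≤ K * S := Nat.mul_le_mul_left K hqS
    have hqs : q ≤ s := by
      rcases r5 with r5 | r5
      · omega
      · omega
    have hKqR : K * q ≤ R := by
      rcases r5 with ⟨-, r5⟩ | ⟨-, r5⟩
      · have h1 : a ≤ 3 * K * a := Nat.le_mul_of_pos_left a (by omega)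
        omega
      · omega
    have l2 := lower2 hx hyT hy hz0 (s := s) (R := R) (q := q) (Q := K * q) hqs hKqR
      (by omega) h.net.hc.le hlb (h.net.blk y hyT q hq1 hqS)
    have l3 : (aT T x R * bT T y q R) * Pr P (ES T) (fun F => Cn X (↑F)) ≤
        κ * (κ * Pr P (ES T) (fun F => Cn (insert x X) (↑F))) := by
      apply h.inv
      apply h.inv
      calc c * (c * ((aT T x R * bT T y q R) * Pr P (ES T) (fun F => Cn X (↑F))))
          = c * c * (aT T x R * bT T y q R) * Pr P (ES T) (fun F => Cn X (↑F)) := by ring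
        _ ≤ _ := l2
    have s1 : aT T y R ≤ aT T y q * bT T y q R :=
      aT_split hyT (c := y) (m := q) (r := q) (n := R) (N := R) (by rw [sd_self]; omega)
        (by omega) (by rw [sd_self]; omega)
    have s2 : aT T y q ≤ κ * (Q * pf T y m) := by
      refine (h.up hyT hq1 (by omega)).trans (mul_le_mul_of_nonneg_left ?_ hκ0.le)
      rcases hqn with h1 | h1
      · exact h.near1 hyT hq1 hm1 h1
      · exact h.near2 hyT hq1 hm1 h1
    have b2 := bT_nonneg T y q R
    have em := h.pos hyT hm1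
    have hmm : pf T y (max a D) * pf T y m = pf T y D * pf T y a := by
      rcases le_total a D with h1 | h1
      · rw [hm, max_eq_right h1, min_eq_left h1]
      · rw [hm, max_eq_left h1, min_eq_right h1]; ring
    have s3 : pf T y (max a D) ≤ Q ^ 2 * κ ^ 2 * (pf T y D * bT T y q R) := by
      have s4 : pf T y (max a D) * pf T y m ≤
          (Q ^ 2 * κ ^ 2 * (pf T y D * bT T y q R)) * pf T y m := by
        calc pf T y (max a D) * pf T y m = pf T y D * pf T y a := hmm
          _ ≤ pf T y D * (Q * (κ * ((κ * (Q * pf T y m)) * bT T y q R))) := by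
              apply mul_le_mul_of_nonneg_left _ e2.le
              refine g2.trans (mul_le_mul_of_nonneg_left ?_ hQ0.le)
              apply mul_le_mul_of_nonneg_left _ hκ0.le
              exact s1.trans (mul_le_mul_of_nonneg_right s2 b2)
          _ = _ := by ring
      exact le_of_mul_le_mul_right s4 em
    calc (pf T x a * pf T y (max a D)) * Pr P (ES T) (fun F => Cn X (↑F))
        ≤ ((Q * (κ * aT T x R)) * (Q ^ 2 * κ ^ 2 * (pf T y D * bT T y q R))) *
            Pr P (ES T) (fun F => Cn X (↑F)) := by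
          apply mul_le_mul_of_nonneg_right _ pX
          exact mul_le_mul g1 s3 e3.le (by positivity)
      _ = (Q ^ 3 * κ ^ 3 * pf T y D) * ((aT T x R * bT T y q R) *
            Pr P (ES T) (fun F => Cn X (↑F))) := by ring
      _ ≤ (Q ^ 3 * κ ^ 3 * pf T y D) * (κ * (κ * Pr P (ES T) (fun F => Cn (insert x X) (↑F)))) :=
          mul_le_mul_of_nonneg_left l3 (by positivity)
      _ = (κ ^ 5 * Q ^ 3) * (pf T y D * Pr P (ES T) (fun F => Cn (insert x X) (↑F))) := by ring
      _ ≤ _ := mul_le_mul_of_nonneg_right (pow_bd hκ1 hQ1 (by norm_num) (by norm_num))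
          (by positivity)

/-! ### any vertex of `X` instead of the nearest one -/

theorem both (h : Dat T S K M c k κ Q) {X : Finset Vtx} (hXT : ∀ u ∈ X, u ∈ T) {x y : Vtx}
    (hx : x ∈ T) (hxX : x ∉ X) (hy : y ∈ X) {a D : ℕ} (hn : Near x X a) (hd : Diam X D) :
    (pf T x a * pf T y (max a (max D 1))) * Pr P (ES T) (fun F => Cn X (↑F)) ≤
      (κ * Q) ^ 9 * (pf T y (max D 1) * Pr P (ES T) (fun F => Cn (insert x X) (↑F))) ∧
    pf T y (max D 1) * Pr P (ES T) (fun F => Cn (insert x X) (↑F)) ≤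
      (κ * Q) ^ 9 * ((pf T x a * pf T y (max a (max D 1))) *
        Pr P (ES T) (fun F => Cn X (↑F))) := by
  obtain ⟨⟨y0, hy0, hay⟩, hmin⟩ := hn
  obtain ⟨⟨p, hp, r, hr, hD⟩, hmax⟩ := hd
  have ha1 : 1 ≤ a := by
    rw [hay]
    apply sd_pos
    rintro rfl
    exact hxX hy0
  set D' := max D 1 with hD'
  have hD1 : 1 ≤ D' := le_max_right _ _
  have hyT := hXT y hy
  have hy0T := hXT y0 hy0
  have hK := h.net.hK
  have hS := h.net.hS
  have hyy : sd y y0 ≤ D' := by
    have := hmax ⟨y, hy, y0, hy0, rfl⟩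
    omega
  have hκ1 := h.hκ1
  have hQ1 := h.hQ1
  have hκ0 : 0 < κ := by linarith
  have hQ0 : 0 < Q := by linarith
  have hk1 := h.reg.hk
  have hkQ := h.hkQ
  have hkW : k ≤ κ * Q := by nlinarith
  have q1 := h.reg.rat y hyT y0 hy0T D' (max a D') hyy hD1 (le_max_right a D')
  have q2 := h.reg.rat y0 hy0T y hyT D' (max a D') (by rw [sd_comm]; exact hyy) hD1
    (le_max_right a D')
  have a1 := h.pos hx ha1
  have u1 := h.pos hyT hD1
  have u2 := h.pos hy0T hD1
  have u3 := h.pos hyT (n := max a D') (by omega)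
  have u4 := h.pos hy0T (n := max a D') (by omega)
  have pX : 0 ≤ Pr P (ES T) (fun F => Cn X (↑F)) := Pr_nonneg okP _ _
  have pI : 0 ≤ Pr P (ES T) (fun F => Cn (insert x X) (↑F)) := Pr_nonneg okP _ _
  have hW0 : 0 < κ * Q := by positivity
  constructor
  · have hc : ∃ z0 ∈ X, D' ≤ 4 * K ∨ D' ≤ 2 * sd z0 y0 := by
      have h1 : D ≤ sd p y0 + sd r y0 := by
        rw [hD, sd_comm r y0]
        exact sd_tri p y0 r
      rcases Nat.lt_or_ge (sd p y0) (sd r y0) with h2 | h2
      · exact ⟨r, hr, by omega⟩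
      · exact ⟨p, hp, by omega⟩
    obtain ⟨z0, hz0, hc⟩ := hc
    have hh := claimL h hXT hx hy0 hz0 hay.symm ha1 hD1 hc
    generalize Pr P (ES T) (fun F => Cn (insert x X) (↑F)) = pI' at *
    generalize Pr P (ES T) (fun F => Cn X (↑F)) = pX' at *
    generalize pf T x a = A at *
    generalize pf T y (max a D') = B at *
    generalize pf T y0 (max a D') = B' at *
    generalize pf T y D' = C at *
    generalize pf T y0 D' = C' at *
    have : ((A * B) * pX') * C' ≤ ((κ * Q) ^ 9 * (C * pI')) * C' := by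
      calc ((A * B) * pX') * C' = (A * pX') * (C' * B) := by ring
        _ ≤ (A * pX') * (k * (B' * C)) := mul_le_mul_of_nonneg_left q2 (by positivity)
        _ = k * (((A * B') * pX') * C) := by ring
        _ ≤ (κ * Q) * (((A * B') * pX') * C) := mul_le_mul_of_nonneg_right hkW (by positivity)
        _ ≤ (κ * Q) * (((κ * Q) ^ 8 * (C' * pI')) * C) := by
            apply mul_le_mul_of_nonneg_left _ hW0.le
            exact mul_le_mul_of_nonneg_right hh u1.le
        _ = _ := by ring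
    exact le_of_mul_le_mul_right this u2
  · have hh := claimU h hXT hx hy0 hay.symm ha1 hD1 (fun u hu => by
      have := hmin ⟨u, hu, rfl⟩
      rw [sd_comm]
      exact this) (fun u hu => by
      have := hmax ⟨u, hu, y0, hy0, rfl⟩
      omega)
    generalize Pr P (ES T) (fun F => Cn (insert x X) (↑F)) = pI' at *
    generalize Pr P (ES T) (fun F => Cn X (↑F)) = pX' at *
    generalize pf T x a = A at *
    generalize pf T y (max a D') = B at *
    generalize pf T y0 (max a D') = B' at *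
    generalize pf T y D' = C at *
    generalize pf T y0 D' = C' at *
    have : (C * pI') * B' ≤ ((κ * Q) ^ 9 * ((A * B) * pX')) * B' := by
      calc (C * pI') * B' = pI' * (C * B') := by ring
        _ ≤ pI' * (k * (B * C')) := mul_le_mul_of_nonneg_left q1 pI
        _ = k * ((C' * pI') * B) := by ring
        _ ≤ (κ * Q) * ((C' * pI') * B) := mul_le_mul_of_nonneg_right hkW (by positivity)
        _ ≤ (κ * Q) * (((κ * Q) ^ 8 * ((A * B') * pX')) * B) := by
            apply mul_le_mul_of_nonneg_left _ hW0.le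
            exact mul_le_mul_of_nonneg_right hh u3.le
        _ = _ := by ring
    exact le_of_mul_le_mul_right this u4

theorem t_GOOD2 : S_GOOD2 := by
  intro K M c k
  by_cases hck : 0 < c ∧ 1 ≤ k
  swap
  · refine ⟨1, one_pos, fun T S hn hr => ?_⟩
    exact absurd ⟨hn.hc, hr.hk⟩ hck
  obtain ⟨hc, hk⟩ := hck
  have hW : 0 < (c⁻¹ * k ^ (12 * K ^ 3 * M + 1)) ^ 9 := by positivity
  refine ⟨((c⁻¹ * k ^ (12 * K ^ 3 * M + 1)) ^ 9)⁻¹, inv_pos.mpr hW, fun T S hn hr => ?_⟩
  refine TH976.good_of (inv_pos.mpr hW) (fun v hv n hn' => hr.pos v hv n hn') ?_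
  intro X x y a d hX hx hxX hy hna hd
  obtain ⟨m0, hm0⟩ := bD_eq T
  refine ⟨m0, fun m hm => ?_⟩
  rw [hm0 m hm]
  have hD := Dat.of hn hr hx
  obtain ⟨h1, h2⟩ := both hD hX hx hxX hy hna hd
  constructor
  · rw [inv_mul_le_iff₀ hW]
    exact h1
  · rw [inv_mul_le_iff₀ hW]
    exact h2

end Pool.Agent.NH41.CK.GOOD3
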