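import Pool.Agent.NH41.CK.INT
import Pool.Agent.Y989.SD.T_CHN

/-!
Project CK: macroscopic annuli are blocked by the same cluster.
-/

set_option autoImplicit false

namespace Pool.Agent.NH41.CK.LNK

open H974 H973 Finset Pool.Agent.Y989.SD
open TH976 (sd sd_comm sd_tri pr_TB)

/-! ### the events -/

/-- the cluster of `z` blocks the annulus of radii `N`, `3 N` around `x` -/
def BI (T : Finset Vtx) (x : Vtx) (N : ℕ) (z : Vtx) (F : Finset Edg) : Prop :=
  Blk T (fun u => sd u x ≤ N) (fun w => 3 * N ≤ sd w x) z F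

/-- a path from the neighbourhood of `x` -/
def XI (T : Finset Vtx) (x : Vtx) (N : ℕ) (F : Finset Edg) : Prop :=
  ∃ u ∈ T, 2 * sd u x ≤ N ∧ ∃ w ∈ T, 4 * N ≤ sd w x ∧ Reach (F : Set Edg) u w

/-- the event of an interior anchor -/
def An (T : Finset Vtx) (x : Vtx) (N : ℕ) (F : Finset Edg) : Prop :=
  HB T x N (3 * N) F ∧ XI T x N F

theorem HB_incr (S : Finset Edg) (T : Finset Vtx) (x : Vtx) (r R : ℕ) : IncrE S (HB T x r R) := by
  rintro F G hFG - ⟨z, h1, h2⟩
  exact ⟨z, h1, CHN.Blk.mono hFG h2⟩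

theorem XI_incr (S : Finset Edg) (T : Finset Vtx) (x : Vtx) (N : ℕ) : IncrE S (XI T x N) := by
  rintro F G hFG - ⟨u, h1, h2, w, h3, h4, h5⟩
  exact ⟨u, h1, h2, w, h3, h4, h5.mono (by exact_mod_cast hFG)⟩

theorem An_incr (S : Finset Edg) (T : Finset Vtx) (x : Vtx) (N : ℕ) : IncrE S (An T x N) :=
  fun F G hFG hG hF => ⟨HB_incr S T x N (3 * N) F G hFG hG hF.1, XI_incr S T x N F G hFG hG hF.2⟩

theorem pr_XI {T : Finset Vtx} {x : Vtx} {N : ℕ} (hN : 20 ≤ N) (hT : BX x (5 * N) ⊆ T) :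
    dlt ≤ Pr hf (ES T) (XI T x N) := by
  obtain ⟨m, hm⟩ : ∃ m : ℤ, m = (N : ℤ) / 4 := ⟨_, rfl⟩
  change dlt ≤ Pr Pool.Agent.H160R2.CV.P (ES T) (XI T x N)
  have p : dlt ≤ Pr Pool.Agent.H160R2.CV.P (ES T)
      (TBc (x.1 - m) (x.1 + m) x.2 (x.2 + 4 * N)) :=
    pr_TB (m := m) (INT.RE_sub_ES hT (by omega) (by omega) (by omega) (by omega)) (by omega)
      (by omega) (by omega) (by omega)
  refine p.trans (Pr_mono okhalf fun F _ h => ?_)
  obtain ⟨a, a', ha, ha', hr⟩ := h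
  refine ⟨(a, x.2), hT ?_, ?_, (a', x.2 + 4 * N), hT ?_, ?_, hr.mono Set.inter_subset_left⟩
  · rw [mem_BX]
    simp only
    omega
  · unfold TH976.sd
    simp only
    omega
  · rw [mem_BX]
    simp only
    omega
  · unfold TH976.sd
    simp only
    omega

theorem pr_An {cI : ℝ} (hint : ∀ (T : Finset Vtx) (x : Vtx) (r : ℕ), 1 ≤ r →
    BX x (3 * r) ⊆ T → cI ≤ Pr hf (ES T) (HB T x r (3 * r))) {T : Finset Vtx} {x : Vtx} {N : ℕ}
    (hN : 20 ≤ N) (hT : BX x (5 * N) ⊆ T) : cI * dlt ≤ Pr hf (ES T) (An T x N) := by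
  have h1 := hint T x N (by omega) (fun y hy => hT (by rw [mem_BX] at hy ⊢; omega))
  have h2 := pr_XI hN hT
  refine le_trans ?_ (Pr_harris okhalf (HB_incr (ES T) T x N (3 * N)) (XI_incr (ES T) T x N))
  exact mul_le_mul h1 h2 dlt_pos.le (Pr_nonneg okhalf _ _)

/-! ### deterministic part -/

theorem Blk.set {T : Finset Vtx} {F : Finset Edg} {A B A' B' : Vtx → Prop} {z : Vtx}
    (hb : Blk T A B z F) (hA : ∀ u, A' u → A u) (hB : ∀ w, B' w → B w) : Blk T A' B' z F :=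
  fun u hu hAu w hw hBw => hb u hu (hA u hAu) w hw (hB w hBw)

theorem stepI {T : Finset Vtx} {F : Finset Edg} (hF : F ⊆ ES T) {x x' z z' : Vtx} {N : ℕ}
    (h : 8 * sd x x' ≤ N) (hz : BI T x N z F) (hz' : BI T x' N z' F) (hX : XI T x N F) :
    Reach (F : Set Edg) z z' := by
  obtain ⟨u, hu, hu2, w, hw, hw2, hr⟩ := hX
  have t1 := sd_tri u x x'
  have t2 := sd_tri w x' x
  have t3 := sd_comm x x'
  have e1 : Reach (F : Set Edg) z u := CHN.meets hF hz hu (by omega) hw (by omega) hr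
  have e2 : Reach (F : Set Edg) z' u := CHN.meets hF hz' hu (by omega) hw (by omega) hr
  exact e1.trans e2.symm

theorem chain {T : Finset Vtx} {F : Finset Edg} (hF : F ⊆ ES T) {xs : ℕ → Vtx} {N m : ℕ}
    (hcl : ∀ j < m, 8 * sd (xs j) (xs (j + 1)) ≤ N) (hA : ∀ j < m + 1, An T (xs j) N F) {z : Vtx}
    (hz : BI T (xs 0) N z F) : ∀ j < m + 1, BI T (xs j) N z F := by
  intro j
  induction j with
  | zero => exact fun _ => hz
  | succ j ih =>
    intro hj
    have h1 := ih (by omega)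
    obtain ⟨⟨z', -, h2⟩, -⟩ := hA (j + 1) hj
    have h3 := stepI hF (hcl j (by omega)) h1 h2 (hA j (by omega)).2
    exact CHN.Blk.congr h2 h3.symm

/-! ### geometry -/

theorem ball_mem {f : ℂ → ℂ} {l : ℝ} (hl : 0 < l)
    (hlip : ∀ z ∈ disc, ∀ w ∈ disc, l * ‖z - w‖ ≤ ‖f z - f w‖) (hcpt : IsCompact (f '' disc))
    (hint : ∀ w, ‖w‖ < 1 → f w ∈ interior (f '' disc)) {ζ : ℂ} {t : ℝ} (ht : 0 < t)
    (hζ : ‖ζ‖ ≤ 1 - t) {p : ℂ} (hp : ‖p - f ζ‖ < l * t) : p ∈ f '' disc := by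
  have hζd : ζ ∈ disc := by
    unfold disc
    rw [Metric.mem_closedBall, dist_zero_right]
    linarith
  have hsub : Metric.ball (f ζ) (l * t) ⊆ interior (f '' disc) := by
    refine IsPreconnected.subset_left_of_subset_union isOpen_interior
      (hcpt.isClosed.isOpen_compl) ?_ ?_ ?_ (convex_ball _ _).isPreconnected
    · exact Set.disjoint_left.2 fun q hq hq' => hq' (interior_subset hq)
    · intro q hq
      by_cases hqS : q ∈ f '' disc
      · left
        obtain ⟨w, hw, rfl⟩ := hqS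
        refine hint w ?_
        rw [Metric.mem_ball, dist_eq_norm] at hq
        have h1 := (hlip w hw ζ hζd).trans_lt hq
        have h2 : ‖w - ζ‖ < t := lt_of_mul_lt_mul_left h1 hl.le
        have h3 := norm_le_norm_add_norm_sub' w ζ
        linarith
      · exact Or.inr hqS
    · refine ⟨f ζ, Metric.mem_ball_self (by positivity), hint ζ (by linarith)⟩
  refine interior_subset (hsub ?_)
  rw [Metric.mem_ball, dist_eq_norm]
  exact hp

/-- rounding -/
noncomputable def rnd (ε : ℝ) (p : ℂ) : Vtx := (⌊p.re / ε⌋, ⌊p.im / ε⌋)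

theorem rnd_pos {ε : ℝ} (hε : 0 < ε) (x : Vtx) : rnd ε (pos ε x) = x := by
  unfold rnd pos
  simp only
  rw [mul_div_cancel_left₀ _ hε.ne', mul_div_cancel_left₀ _ hε.ne', Int.floor_intCast,
    Int.floor_intCast]

theorem pos_rnd {ε : ℝ} (hε : 0 < ε) (p : ℂ) : ‖pos ε (rnd ε p) - p‖ ≤ 2 * ε := by
  have key : ∀ a : ℝ, |ε * (⌊a / ε⌋ : ℝ) - a| ≤ ε := by
    intro a
    have h1 := Int.floor_le (a / ε)
    have h2 := Int.lt_floor_add_one (a / ε)
    rw [le_div_iff₀ hε] at h1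
    rw [div_lt_iff₀ hε] at h2
    rw [abs_le]
    constructor
    · nlinarith
    · nlinarith
  refine (Complex.norm_le_abs_re_add_abs_im _).trans ?_
  rw [Complex.sub_re, Complex.sub_im]
  have h1 := key p.re
  have h2 := key p.im
  change |ε * (⌊p.re / ε⌋ : ℝ) - p.re| + |ε * (⌊p.im / ε⌋ : ℝ) - p.im| ≤ 2 * ε
  linarith

theorem natAbs_cast (d : ℤ) : (d.natAbs : ℝ) = |(d : ℝ)| := by
  rw [Nat.cast_natAbs, Int.cast_abs]

theorem sd_le_norm {ε : ℝ} (hε : 0 < ε) (v w : Vtx) :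
    ε * (sd v w : ℝ) ≤ ‖pos ε v - pos ε w‖ := by
  have h1 := Complex.abs_re_le_norm (pos ε v - pos ε w)
  have h2 := Complex.abs_im_le_norm (pos ε v - pos ε w)
  rw [CHN.pos_sub_re, abs_mul, abs_of_pos hε] at h1
  rw [CHN.pos_sub_im, abs_mul, abs_of_pos hε] at h2
  unfold TH976.sd
  rcases max_cases (v.1 - w.1).natAbs (v.2 - w.2).natAbs with ⟨h3, -⟩ | ⟨h3, -⟩
  · rw [h3, natAbs_cast]
    exact h1
  · rw [h3, natAbs_cast]
    exact h2

theorem norm_le_sd {ε : ℝ} (hε : 0 < ε) (v w : Vtx) :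
    ‖pos ε v - pos ε w‖ ≤ 2 * (ε * (sd v w : ℝ)) := by
  refine (Complex.norm_le_abs_re_add_abs_im _).trans ?_
  rw [CHN.pos_sub_re, CHN.pos_sub_im, abs_mul, abs_mul, abs_of_pos hε, ← natAbs_cast,
    ← natAbs_cast]
  have h1 : ((v.1 - w.1).natAbs : ℝ) ≤ (sd v w : ℝ) := by
    exact_mod_cast le_max_left _ _
  have h2 : ((v.2 - w.2).natAbs : ℝ) ≤ (sd v w : ℝ) := by
    exact_mod_cast le_max_right _ _
  nlinarith

theorem close {ε ρ' : ℝ} (hε : 0 < ε) (hρ' : 0 < ρ') (h : ε * 100 ≤ ρ') {v w : Vtx}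
    (hvw : ‖pos ε v - pos ε w‖ ≤ ρ' / 20 + 4 * ε) : 8 * sd v w ≤ ⌊ρ' / ε⌋₊ := by
  obtain ⟨h1, h2⟩ := CHN.lattice_dist hε h hvw
  have h3 : ((⌊ρ' / ε⌋₊ : ℕ) : ℤ) = ⌊ρ' / ε⌋ := Int.natCast_floor_eq_floor (by positivity)
  rw [← h3, Int.abs_eq_natAbs] at h1 h2
  unfold TH976.sd
  omega

/-! ### the theorem -/

theorem t_LNK : S_WIN → S_GA → S_INT → S_LNK := by
  intro hWIN hGA hINT f g Mf α hf' ρ B ε0 hρ hε0 hGD
  obtain ⟨l, H, hl, hH, hlip, -, -, hcpt, hint⟩ := hGA f g Mf α hf'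
  obtain ⟨cW, C, hcW, hC, hwin⟩ := hWIN B α hf'.al0
  obtain ⟨cI, hcI, hI⟩ := hINT
  have hlip1 : ∀ z ∈ disc, ∀ w ∈ disc, l * ‖z - w‖ ≤ ‖f z - f w‖ :=
    fun z hz w hw => (hlip z hz w hw).1
  have memd : ∀ w : ℂ, ‖w‖ ≤ 1 → w ∈ disc := by
    intro w hw
    unfold disc
    rw [Metric.mem_closedBall, dist_zero_right]
    exact hw
  -- the constants
  obtain ⟨M, hM⟩ := exists_nat_gt (40 * H / l + 2)
  obtain ⟨K, hK⟩ := exists_nat_gt (128 * (M : ℝ) + (260 * M + 40) * (ρ / l) + 3)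
  have hM0 : (0 : ℝ) ≤ M := Nat.cast_nonneg _
  have hK1 : (128 : ℝ) * M + 3 < K := by
    have : 0 ≤ (260 * (M : ℝ) + 40) * (ρ / l) := by positivity
    linarith
  have hM2 : 2 < M := by
    have : 0 ≤ 40 * H / l := by positivity
    exact_mod_cast (by linarith : (2 : ℝ) < M)
  have hKn : 128 * M + 3 < K := by exact_mod_cast hK1
  refine ⟨K, by omega, fun ρ' hρ' hKρ => ?_⟩
  have k2 : (260 * (M : ℝ) + 40) * ρ' ≤ l := by
    have h1 : (260 * (M : ℝ) + 40) * (ρ / l) * ρ' ≤ ρ := by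
      refine le_trans ?_ hKρ
      have : (260 * (M : ℝ) + 40) * (ρ / l) ≤ K := by linarith
      exact mul_le_mul_of_nonneg_right this hρ'.le
    have h2 : (260 * (M : ℝ) + 40) * (ρ / l) * ρ' = ((260 * (M : ℝ) + 40) * ρ' / l) * ρ := by
      ring
    rw [h2] at h1
    have h3 : (260 * (M : ℝ) + 40) * ρ' / l ≤ 1 := by
      by_contra h4
      push Not at h4
      nlinarith
    rwa [div_le_one hl] at h3
  have k3 : 128 * (M : ℝ) * ρ' ≤ ρ := by nlinarith
  obtain ⟨t1, ht1⟩ : ∃ t1 : ℝ, t1 = 20 * ρ' / l := ⟨_, rfl⟩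
  have hlt : l * t1 = 20 * ρ' := by
    rw [ht1]
    field_simp
  have ht1pos : 0 < t1 := by
    rw [ht1]
    positivity
  have ht1half : t1 ≤ 1 / 2 := by
    rw [ht1, div_le_iff₀ hl]
    nlinarith
  obtain ⟨m, hm⟩ := exists_nat_gt (20 * H / ρ')
  have hm0 : (0 : ℝ) < m := lt_of_le_of_lt (by positivity) hm
  obtain ⟨c1, hc1e⟩ : ∃ c1 : ℝ, c1 = cI * dlt := ⟨_, rfl⟩
  have hc1 : 0 < c1 := by
    rw [hc1e]
    exact mul_pos hcI dlt_pos
  obtain ⟨c0, hc0e⟩ : ∃ c0 : ℝ, c0 = min 1 cW * c1 ^ (m + 1) := ⟨_, rfl⟩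
  have hc0 : 0 < c0 := by
    rw [hc0e]
    exact mul_pos (lt_min one_pos hcW) (pow_pos hc1 _)
  refine ⟨c0 * c0, min ε0 (min (ρ' / 100) (l / 8)), by positivity,
    lt_min hε0 (lt_min (by positivity) (by positivity)), ?_⟩
  intro ε hε hε1
  have hεε0 : ε ≤ ε0 := hε1.trans (min_le_left _ _)
  have hε100 : ε * 100 ≤ ρ' := by
    have := hε1.trans ((min_le_right _ _).trans (min_le_left _ _))
    linarith
  have hεl : ε * 8 ≤ l := by
    have := hε1.trans ((min_le_right _ _).trans (min_le_right _ _))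
    linarith
  obtain ⟨hTD, hbase, -⟩ := hGD ε hε hεε0
  obtain ⟨N, hN⟩ : ∃ N, N = ⌊ρ' / ε⌋₊ := ⟨_, rfl⟩
  obtain ⟨T, hT⟩ : ∃ T, T = TD f ε := ⟨_, rfl⟩
  rw [← hN, ← hT]
  rw [← hT] at hTD hbase
  have hN100 : 100 ≤ N := by
    rw [hN]
    apply Nat.le_floor
    rw [le_div_iff₀ hε]
    push_cast
    linarith
  have hN1 : ε * (N : ℝ) ≤ ρ' := by
    have := Nat.floor_le (a := ρ' / ε) (by positivity)
    rw [← hN, le_div_iff₀ hε] at this
    linarith
  have hN2 : ρ' - ε ≤ ε * N := by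
    have := Nat.lt_floor_add_one (ρ' / ε)
    rw [← hN, div_lt_iff₀ hε] at this
    nlinarith
  -- the anchors
  have anchor : ∀ ζ : ℂ, ‖ζ‖ ≤ 1 - t1 → BX (rnd ε (f ζ)) (5 * N) ⊆ T := by
    intro ζ hζ y hy
    rw [hTD]
    refine ball_mem hl hlip1 hcpt hint ht1pos hζ ?_
    have h1 := norm_le_sd hε y (rnd ε (f ζ))
    have h2 := pos_rnd hε (f ζ)
    have h3 : sd y (rnd ε (f ζ)) ≤ 5 * N := by
      rw [mem_BX] at hy
      unfold TH976.sd
      omega
    have h3' : (sd y (rnd ε (f ζ)) : ℝ) ≤ 5 * N := by exact_mod_cast h3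
    have h4 : ε * (sd y (rnd ε (f ζ)) : ℝ) ≤ ε * (5 * N) := mul_le_mul_of_nonneg_left h3' hε.le
    have h5 : pos ε y - f ζ =
        (pos ε y - pos ε (rnd ε (f ζ))) + (pos ε (rnd ε (f ζ)) - f ζ) := by ring
    rw [h5, hlt]
    refine (norm_add_le _ _).trans_lt ?_
    nlinarith
  -- the chain
  obtain ⟨xs, hxs⟩ : ∃ xs : ℂ → ℕ → Vtx, ∀ ζ j, xs ζ j = rnd ε (f (((j / m : ℝ) : ℂ) * ζ)) :=
    ⟨_, fun _ _ => rfl⟩
  have hx0 : ∀ ζ, xs ζ 0 = rnd ε (f 0) := by
    intro ζ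
    rw [hxs]
    simp
  have hxm : ∀ ζ, xs ζ m = rnd ε (f ζ) := by
    intro ζ
    rw [hxs, div_self hm0.ne', Complex.ofReal_one, one_mul]
  have hnj : ∀ ζ : ℂ, ‖ζ‖ ≤ 1 - t1 → ∀ j : ℕ, j ≤ m → ‖((j / m : ℝ) : ℂ) * ζ‖ ≤ 1 - t1 := by
    intro ζ hζ j hj
    rw [norm_mul, Complex.norm_real, Real.norm_of_nonneg (by positivity)]
    have h1 : (j / m : ℝ) ≤ 1 := by
      rw [div_le_one hm0]
      exact_mod_cast hj
    have h2 := mul_le_mul_of_nonneg_right h1 (norm_nonneg ζ)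
    linarith
  have hcl : ∀ ζ : ℂ, ‖ζ‖ ≤ 1 - t1 → ∀ j < m, 8 * sd (xs ζ j) (xs ζ (j + 1)) ≤ N := by
    intro ζ hζ j hj
    rw [hN]
    refine close hε hρ' hε100 ?_
    rw [hxs, hxs]
    have h1 := pos_rnd hε (f (((j / m : ℝ) : ℂ) * ζ))
    have h2 := pos_rnd hε (f ((((j + 1 : ℕ) / m : ℝ) : ℂ) * ζ))
    have h3 : ‖f (((j / m : ℝ) : ℂ) * ζ) - f ((((j + 1 : ℕ) / m : ℝ) : ℂ) * ζ)‖ ≤ ρ' / 20 := by
      refine (hlip _ (memd _ ((hnj ζ hζ j hj.le).trans (by linarith))) _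
        (memd _ ((hnj ζ hζ (j + 1) hj).trans (by linarith)))).2.trans ?_
      have e : ((j / m : ℝ) : ℂ) * ζ - (((j + 1 : ℕ) / m : ℝ) : ℂ) * ζ =
          -(((1 / m : ℝ) : ℂ) * ζ) := by
        push_cast
        ring
      rw [e, norm_neg, norm_mul, Complex.norm_real, Real.norm_of_nonneg (by positivity)]
      rw [div_lt_iff₀ hρ'] at hm
      have h4 : 1 / (m : ℝ) * ‖ζ‖ ≤ 1 / m * 1 :=
        mul_le_mul_of_nonneg_left (by linarith) (by positivity)
      have h5 : H * (1 / (m : ℝ) * ‖ζ‖) ≤ H * (1 / m * 1) := mul_le_mul_of_nonneg_left h4 hH.le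
      refine h5.trans ?_
      rw [mul_one, mul_one_div, div_le_iff₀ hm0]
      nlinarith
    have h7 : pos ε (rnd ε (f (((j / m : ℝ) : ℂ) * ζ))) -
        pos ε (rnd ε (f ((((j + 1 : ℕ) / m : ℝ) : ℂ) * ζ))) =
        (pos ε (rnd ε (f (((j / m : ℝ) : ℂ) * ζ))) - f (((j / m : ℝ) : ℂ) * ζ)) +
          (f (((j / m : ℝ) : ℂ) * ζ) - f ((((j + 1 : ℕ) / m : ℝ) : ℂ) * ζ)) +
          -(pos ε (rnd ε (f ((((j + 1 : ℕ) / m : ℝ) : ℂ) * ζ))) -
            f ((((j + 1 : ℕ) / m : ℝ) : ℂ) * ζ)) := by ring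
    rw [h7]
    refine (norm_add₃_le).trans ?_
    rw [norm_neg]
    linarith
  have hChi : ∀ ζ : ℂ, IncrE (ES T) (fun F => ∀ j < m + 1, An T (xs ζ j) N F) :=
    fun ζ F G hFG hG hF j hj => An_incr _ _ _ _ F G hFG hG (hF j hj)
  have hChp : ∀ ζ : ℂ, ‖ζ‖ ≤ 1 - t1 →
      c1 ^ (m + 1) ≤ Pr hf (ES T) (fun F => ∀ j < m + 1, An T (xs ζ j) N F) := by
    intro ζ hζ
    refine CHN.harris_fin okhalf (fun j => An T (xs ζ j) N) (fun j => An_incr _ _ _ _) hc1.le
      (m + 1) (fun j hj => ?_)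
    rw [hc1e, hxs]
    exact pr_An hI (by omega) (anchor _ (hnj ζ hζ j (by omega)))
  -- the key step
  have key : ∀ x ∈ T, ∃ A : Finset Edg → Prop, IncrE (ES T) A ∧ c0 ≤ Pr hf (ES T) A ∧
      ∀ F ⊆ ES T, A F → (∃ z ∈ T, BI T (rnd ε (f 0)) N z F) ∧
        ∀ z, BI T (rnd ε (f 0)) N z F →
          Blk T (fun u => sd u x ≤ N) (fun w => K * N ≤ sd w x) z F := by
    intro x hx
    obtain ⟨ζ, hζd, hζx⟩ : ∃ ζ ∈ disc, f ζ = pos ε x := (hTD x).1 hx
    rcases le_or_gt ‖ζ‖ (1 - t1) with hζ | hζ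
    · -- interior
      refine ⟨fun F => ∀ j < m + 1, An T (xs ζ j) N F, hChi ζ, ?_, ?_⟩
      · refine le_trans ?_ (hChp ζ hζ)
        rw [hc0e]
        calc min 1 cW * c1 ^ (m + 1) ≤ 1 * c1 ^ (m + 1) :=
              mul_le_mul_of_nonneg_right (min_le_left _ _) (pow_pos hc1 _).le
          _ = _ := one_mul _
      · intro F hF hA
        refine ⟨?_, fun z hz => ?_⟩
        · obtain ⟨⟨z, hzT, hz⟩, -⟩ := hA 0 (by omega)
          rw [hx0] at hz
          exact ⟨z, hzT, hz⟩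
        · have h1 := chain hF (hcl ζ hζ) hA (z := z) (by rw [hx0]; exact hz) m (by omega)
          rw [hxm, hζx, rnd_pos hε] at h1
          refine Blk.set h1 (fun u hu => hu) (fun w hw => ?_)
          have : 3 * N ≤ K * N := Nat.mul_le_mul_right N (by omega)
          omega
    · -- near the boundary
      have hζ1 : ‖ζ‖ ≤ 1 := by
        have := hζd
        unfold disc at this
        rwa [Metric.mem_closedBall, dist_zero_right] at this
      have hζ0 : 0 < ‖ζ‖ := by linarith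
      obtain ⟨θ, hθ⟩ : ∃ θ : ℝ, ζ = (‖ζ‖ : ℂ) * cir θ := ⟨Complex.arg ζ, by
        unfold cir
        exact (Complex.norm_mul_exp_arg_mul_I ζ).symm⟩
      obtain ⟨v, hvT, hv2, hvW⟩ := hbase θ
      obtain ⟨ξ, hξ⟩ : ∃ ξ : ℂ, ξ = ((1 - t1 : ℝ) : ℂ) * cir θ := ⟨_, rfl⟩
      have hξn : ‖ξ‖ = 1 - t1 := by
        rw [hξ, norm_mul, CHN.cir_norm, mul_one, Complex.norm_real,
          Real.norm_of_nonneg (by linarith)]
      have hξd : ξ ∈ disc := memd _ (by rw [hξn]; linarith)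
      -- distances
      have d1 : ‖f ζ - f (cir θ)‖ ≤ H * t1 := by
        refine (hlip _ hζd _ (CHN.cir_mem θ)).2.trans ?_
        refine mul_le_mul_of_nonneg_left ?_ hH.le
        have e : ζ - cir θ = -(((1 - ‖ζ‖ : ℝ) : ℂ) * cir θ) := by
          conv_lhs => rw [hθ]
          push_cast
          ring
        rw [e, norm_neg, norm_mul, CHN.cir_norm, mul_one, Complex.norm_real,
          Real.norm_of_nonneg (by linarith)]
        linarith
      have d2 : ‖f ξ - f (cir θ)‖ ≤ H * t1 := by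
        refine (hlip _ hξd _ (CHN.cir_mem θ)).2.trans ?_
        refine mul_le_mul_of_nonneg_left ?_ hH.le
        have e : ξ - cir θ = -(((t1 : ℝ) : ℂ) * cir θ) := by
          rw [hξ]
          push_cast
          ring
        rw [e, norm_neg, norm_mul, CHN.cir_norm, mul_one, Complex.norm_real,
          Real.norm_of_nonneg ht1pos.le]
      have d3 : l ≤ ‖f 0 - f (cir θ)‖ := by
        have h1 := hlip1 0 (memd 0 (by simp)) _ (CHN.cir_mem θ)
        rwa [zero_sub, norm_neg, CHN.cir_norm, mul_one] at h1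
      have hHt : H * t1 ≤ (M - 2) / 2 * ρ' := by
        rw [ht1]
        have h1 : 40 * H / l ≤ M - 2 := by linarith
        have h2 : H * (20 * ρ' / l) = (40 * H / l) / 2 * ρ' := by ring
        rw [h2]
        gcongr
      -- `x` and the end of the chain are close to `v`
      have hsx : sd x v + N ≤ M * N := by
        have h1 := sd_le_norm hε x v
        have h2 : pos ε x - pos ε v = (f ζ - f (cir θ)) + -(pos ε v - f (cir θ)) := by
          rw [hζx]
          ring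
        have h3 : ‖pos ε x - pos ε v‖ ≤ H * t1 + 2 * ε := by
          rw [h2]
          refine (norm_add_le _ _).trans ?_
          rw [norm_neg]
          linarith
        have h4 : ε * ((sd x v + N : ℕ) : ℝ) ≤ ε * ((M * N : ℕ) : ℝ) := by
          push_cast
          nlinarith
        exact_mod_cast le_of_mul_le_mul_left h4 hε
      have hsm : sd (rnd ε (f ξ)) v + N ≤ M * N := by
        have h1 := sd_le_norm hε (rnd ε (f ξ)) v
        have h0 := pos_rnd hε (f ξ)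
        have h2 : pos ε (rnd ε (f ξ)) - pos ε v = (pos ε (rnd ε (f ξ)) - f ξ) +
            (f ξ - f (cir θ)) + -(pos ε v - f (cir θ)) := by ring
        have h3 : ‖pos ε (rnd ε (f ξ)) - pos ε v‖ ≤ H * t1 + 4 * ε := by
          rw [h2]
          refine (norm_add₃_le).trans ?_
          rw [norm_neg]
          linarith
        have h4 : ε * ((sd (rnd ε (f ξ)) v + N : ℕ) : ℝ) ≤ ε * ((M * N : ℕ) : ℝ) := by
          push_cast
          nlinarith
        exact_mod_cast le_of_mul_le_mul_left h4 hε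
      -- the centre is far from `v`
      have hsc : 64 * (M * N) + N ≤ sd (rnd ε (f 0)) v := by
        have h1 := norm_le_sd hε (rnd ε (f 0)) v
        have h0 := pos_rnd hε (f 0)
        have h2 : f 0 - f (cir θ) = -(pos ε (rnd ε (f 0)) - f 0) +
            (pos ε (rnd ε (f 0)) - pos ε v) + (pos ε v - f (cir θ)) := by ring
        have h3 : l ≤ 4 * ε + ‖pos ε (rnd ε (f 0)) - pos ε v‖ := by
          refine d3.trans ?_
          rw [h2]
          refine (norm_add₃_le).trans ?_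
          rw [norm_neg]
          linarith
        have h4 : ε * ((64 * (M * N) + N : ℕ) : ℝ) ≤ ε * ((sd (rnd ε (f 0)) v : ℕ) : ℝ) := by
          push_cast
          have h5 : ε * (64 * (M * N) + N) = (64 * M + 1) * (ε * N) := by ring
          rw [h5]
          have h6 : (64 * (M : ℝ) + 1) * (ε * N) ≤ (64 * M + 1) * ρ' :=
            mul_le_mul_of_nonneg_left hN1 (by positivity)
          nlinarith
        exact_mod_cast le_of_mul_le_mul_left h4 hε
      have hL : 128 * ((M * N : ℕ) : ℤ) ≤ ⌊ρ / ε⌋ := by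
        rw [Int.le_floor, le_div_iff₀ hε]
        push_cast
        have h5 : 128 * ((M : ℝ) * N) * ε = 128 * M * (ε * N) := by ring
        rw [h5]
        have h6 : 128 * (M : ℝ) * (ε * N) ≤ 128 * M * ρ' :=
          mul_le_mul_of_nonneg_left hN1 (by positivity)
        linarith
      have hMN : N ≤ M * N := Nat.le_mul_of_pos_left N (by omega)
      obtain ⟨R, hR⟩ : ∃ R : ℤ, R = ((M * N : ℕ) : ℤ) := ⟨_, rfl⟩
      rw [← hR] at hL
      have hHT : cW ≤ Pr hf (ES T) (HT T v R (64 * R)) :=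
        (hwin T v ⌊ρ / ε⌋ hvW R (64 * R) (by omega) (by omega) (by omega)).2.2.2 (by omega)
      refine ⟨fun F => (∀ j < m + 1, An T (xs ξ j) N F) ∧ HT T v R (64 * R) F, ?_, ?_, ?_⟩
      · exact fun F G hFG hG hF => ⟨hChi ξ F G hFG hG hF.1,
          CHN.HT_incr _ _ _ _ _ F G hFG hG hF.2⟩
      · refine le_trans ?_ (Pr_harris okhalf (hChi ξ) (CHN.HT_incr (ES T) T v R (64 * R)))
        rw [hc0e, mul_comm]
        exact mul_le_mul (hChp ξ hξn.le) ((min_le_right _ _).trans hHT)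
          (lt_min one_pos hcW).le (Pr_nonneg okhalf _ _)
      · rintro F hF ⟨hA, z', hz'T, -, -, hz'⟩
        refine ⟨?_, fun z hz => ?_⟩
        · obtain ⟨⟨z, hzT, hz⟩, -⟩ := hA 0 (by omega)
          rw [hx0] at hz
          exact ⟨z, hzT, hz⟩
        · have h1 := chain hF (hcl ξ hξn.le) hA (z := z) (by rw [hx0]; exact hz) m (by omega)
          rw [hxm] at h1
          obtain ⟨u, huT, hu2, w, hwT, hw2, hr⟩ := (hA m (by omega)).2
          rw [hxm] at hu2 hw2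
          have e1 : Reach (F : Set Edg) z u := CHN.meets hF h1 huT (by omega) hwT (by omega) hr
          obtain ⟨u', huT', hu2', w', hwT', hw2', hr'⟩ := (hA 0 (by omega)).2
          rw [hx0] at hu2' hw2'
          have e2 : Reach (F : Set Edg) z u' :=
            CHN.meets hF hz huT' (by omega) hwT' (by omega) hr'
          have s1 := sd_tri u (rnd ε (f ξ)) v
          have s2 := sd_tri (rnd ε (f 0)) u' v
          have s3 := sd_comm (rnd ε (f 0)) u'
          have e3 : Reach (F : Set Edg) z' u := by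
            refine CHN.meets hF hz' huT ?_ huT' ?_ (e1.symm.trans e2)
            · have : sd u v ≤ M * N := by omega
              unfold TH976.sd at this
              rw [mem_BX]
              omega
            · have : 64 * (M * N) ≤ sd u' v := by omega
              unfold TH976.sd at this
              rw [mem_BX]
              omega
          refine Blk.set (CHN.Blk.congr hz' (e3.trans e1.symm)) (fun a ha => ?_) (fun b hb => ?_)
          · have s4 := sd_tri a x v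
            have : sd a v ≤ M * N := by omega
            unfold TH976.sd at this
            rw [mem_BX]
            omega
          · have s4 := sd_tri b v x
            have s5 := sd_comm v x
            have h9 : 65 * (M * N) ≤ K * N := by
              rw [← mul_assoc]
              exact Nat.mul_le_mul_right N (by omega)
            have : 64 * (M * N) ≤ sd b v := by omega
            unfold TH976.sd at this
            rw [mem_BX]
            omega
  -- conclusion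
  intro x hx y hy
  obtain ⟨A, hA1, hA2, hA3⟩ := key x hx
  obtain ⟨A', hA1', hA2', hA3'⟩ := key y hy
  have h1 : c0 * c0 ≤ Pr hf (ES T) A * Pr hf (ES T) A' :=
    mul_le_mul hA2 hA2' hc0.le (Pr_nonneg okhalf _ _)
  refine (h1.trans (Pr_harris okhalf hA1 hA1')).trans (Pr_mono okhalf fun F hF hAF => ?_)
  obtain ⟨⟨z, hzT, hz⟩, h2⟩ := hA3 F hF hAF.1
  exact ⟨z, hzT, h2 z hz, (hA3' F hF hAF.2).2 z hz⟩

end Pool.Agent.NH41.CK.LNK
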