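import Pool.Agent.NH41.CK.HGT

/-!
Project CK: the two-point function in terms of the profile.
-/

set_option autoImplicit false

namespace Pool.Agent.NH41.CK.TWO

open H974 H973 Finset Pool.Agent.Y989.SD Pool.Agent.NH41.CK.HGT
open TH976 (sd Cmp cx EH sd_pos min_cmp)

theorem cmp_of {k x y : ℝ} (hk : 1 ≤ k) (hx : 0 < x) (hy : 0 < y) (h1 : x ≤ k * y)
    (h2 : y ≤ k * x) : Cmp k x y := ⟨hk, hx, hy, h1, h2⟩

/-- The pseudo-hyperbolic distance. -/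
theorem den_sq (ζ ξ : ℂ) : ‖1 - (starRingEnd ℂ) ξ * ζ‖ ^ 2 =
    ‖ζ - ξ‖ ^ 2 + (1 - ‖ζ‖ ^ 2) * (1 - ‖ξ‖ ^ 2) := by
  rw [← Complex.normSq_eq_norm_sq, ← Complex.normSq_eq_norm_sq, ← Complex.normSq_eq_norm_sq,
    ← Complex.normSq_eq_norm_sq]
  simp only [Complex.normSq_apply, Complex.sub_re, Complex.sub_im, Complex.mul_re, Complex.mul_im,
    Complex.one_re, Complex.one_im, Complex.conj_re, Complex.conj_im]
  ring

theorem tau_sq {ζ ξ : ℂ} (_h : 0 < ‖ζ - ξ‖ ^ 2 + (1 - ‖ζ‖ ^ 2) * (1 - ‖ξ‖ ^ 2)) :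
    tau ζ ξ ^ 2 = ‖ζ - ξ‖ ^ 2 / (‖ζ - ξ‖ ^ 2 + (1 - ‖ζ‖ ^ 2) * (1 - ‖ξ‖ ^ 2)) := by
  unfold tau
  rw [norm_div, div_pow, den_sq]

/-- The product of the two profiles. -/
theorem EH_mul {n a b : ℝ} (hn : 0 < n) (ha : 0 < a) (hb : 0 < b) :
    EH a n * EH b n = n ^ (-(5 / 24 : ℝ)) * (min 1 (a / n) * min 1 (b / n)) ^ (11 / 48 : ℝ) := by
  unfold EH
  have m1 : 0 < min 1 (a / n) := lt_min one_pos (by positivity)
  have m2 : 0 < min 1 (b / n) := lt_min one_pos (by positivity)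
  rw [Real.mul_rpow m1.le m2.le, show (-(5 / 24 : ℝ)) = -(5 / 48) + -(5 / 48) by norm_num,
    Real.rpow_add hn]
  ring

/-- The function `gg` in other words. -/
theorem gg_real {s P Q τ : ℝ} (hs : 0 < s) (hP : 0 < P) (hQ : 0 < Q) (hτ : 0 ≤ τ)
    (h : τ ^ 2 = s ^ 2 / (s ^ 2 + Q)) :
    (P * Q) ^ (-(5 / 48) : ℝ) * τ ^ (-(5 / 24) : ℝ) * (1 - τ ^ 2) ^ (1 / 3 : ℝ) =
      P ^ (-(5 / 48 : ℝ)) * s ^ (-(5 / 24 : ℝ)) * (Q / (s ^ 2 + Q)) ^ (11 / 48 : ℝ) := by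
  have hD : 0 < s ^ 2 + Q := by positivity
  have e0 : (0 : ℝ) < s ^ 2 := by positivity
  have e1 : τ ^ (-(5 / 24) : ℝ) = (s ^ 2 / (s ^ 2 + Q)) ^ (-(5 / 48) : ℝ) := by
    rw [← h, ← Real.rpow_natCast τ 2, ← Real.rpow_mul hτ]
    norm_num
  have e2 : 1 - τ ^ 2 = Q / (s ^ 2 + Q) := by
    rw [h]
    field_simp
    ring
  have e3 : s ^ (-(5 / 24) : ℝ) = (s ^ 2) ^ (-(5 / 48) : ℝ) := by
    rw [← Real.rpow_natCast s 2, ← Real.rpow_mul hs.le]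
    norm_num
  rw [e1, e2, e3, Real.mul_rpow hP.le hQ.le, Real.div_rpow e0.le hD.le, Real.div_rpow hQ.le hD.le,
    Real.div_rpow hQ.le hD.le]
  have e4 : Q ^ (11 / 48 : ℝ) = Q ^ (-(5 / 48) : ℝ) * Q ^ (1 / 3 : ℝ) := by
    rw [← Real.rpow_add hQ]
    norm_num
  have e5 : (s ^ 2 + Q) ^ (11 / 48 : ℝ) = (s ^ 2 + Q) ^ (-(5 / 48) : ℝ) * (s ^ 2 + Q) ^ (1 / 3 : ℝ) := by
    rw [← Real.rpow_add hD]
    norm_num
  have p1 : 0 < (s ^ 2 + Q) ^ (-(5 / 48) : ℝ) := Real.rpow_pos_of_pos hD _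
  have p2 : 0 < (s ^ 2 + Q) ^ (1 / 3 : ℝ) := Real.rpow_pos_of_pos hD _
  rw [e4, e5]
  generalize (s ^ 2 + Q) ^ (-(5 / 48) : ℝ) = D1 at *
  generalize (s ^ 2 + Q) ^ (1 / 3 : ℝ) = D2 at *
  field_simp

/-- The comparison of the two expressions. -/
theorem real_cmp {s a b A B : ℝ} (hs : 0 < s) (ha : 0 < a) (hb : 0 < b) (hab : |a - b| ≤ s)
    (h1 : a ≤ A) (h2 : A ≤ 2 * a) (h3 : b ≤ B) (h4 : B ≤ 2 * b) :
    Cmp 48 (min 1 (a / s) * min 1 (b / s)) (A * B / (s ^ 2 + A * B)) := by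
  have k1 := min_cmp ha hb hs hab le_rfl (by nlinarith)
  have e1 : (1 + s ^ 2 / (a * b))⁻¹ = a * b / (s ^ 2 + a * b) := by
    field_simp
    ring
  rw [e1] at k1
  have c1 : Cmp 4 (a * b) (A * B) := by
    refine ⟨by norm_num, by positivity, by nlinarith [mul_pos ha hb], ?_, ?_⟩
    · nlinarith [mul_pos ha hb]
    · nlinarith [mul_pos ha hb]
  have c2 : Cmp 4 (s ^ 2 + a * b) (s ^ 2 + A * B) := by
    have q1 := c1.l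
    have q2 := c1.r
    have q3 := c1.hx
    have q4 := c1.hy
    have q5 : 0 < s ^ 2 := by positivity
    refine ⟨by norm_num, by linarith, by linarith, ?_, ?_⟩
    · linarith
    · linarith
  exact (k1.trans (c1.div c2)).weaken (by norm_num)

theorem one_sq {t : ℝ} (h0 : 0 ≤ t) (h1 : t < 1) :
    1 - t ≤ 1 - t ^ 2 ∧ 1 - t ^ 2 ≤ 2 * (1 - t) := by
  constructor <;> nlinarith

/-- The height and the distance to the circle. -/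
theorem hgt_cmp {g : ℂ → ℂ} {η : ℂ} {h ε H C P : ℝ} (he : 0 < ε) (hH : 0 < H) (hP1 : 1 ≤ P)
    (hP2 : 2 * H ≤ P) (h1 : ‖η‖ < 1) (h2 : ‖g η‖ ≤ H) (h3 : ε ≤ cr g η)
    (h4 : Cmp C h (max 1 ((1 - ‖η‖) / ε))) : Cmp (C * P) h ((1 - ‖η‖) / ε) := by
  refine h4.trans ?_
  obtain ⟨e0, e1⟩ := one_sq (norm_nonneg η) h1
  have h5 : ε ≤ H * (2 * (1 - ‖η‖)) := by
    unfold cr at h3
    calc ε ≤ ‖g η‖ * (1 - ‖η‖ ^ 2) := h3
      _ ≤ H * (1 - ‖η‖ ^ 2) := mul_le_mul_of_nonneg_right h2 (by linarith)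
      _ ≤ _ := mul_le_mul_of_nonneg_left e1 hH.le
  have h6 : 0 < (1 - ‖η‖) / ε := div_pos (by linarith) he
  have h7 : 1 ≤ 2 * H * ((1 - ‖η‖) / ε) := by
    rw [mul_div_assoc', le_div_iff₀ he]
    linarith
  refine ⟨hP1, lt_of_lt_of_le one_pos (le_max_left _ _), h6, ?_, ?_⟩
  · apply max_le
    · exact h7.trans (mul_le_mul_of_nonneg_right hP2 h6.le)
    · exact le_mul_of_one_le_left h6.le hP1
  · calc (1 - ‖η‖) / ε ≤ max 1 ((1 - ‖η‖) / ε) := le_max_right _ _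
      _ ≤ P * max 1 ((1 - ‖η‖) / ε) :=
        le_mul_of_one_le_left (le_trans zero_le_one (le_max_left _ _)) hP1

/-- The distance on the lattice and in the disc. -/
theorem dist_cmp {s r ε N l H P : ℝ} (he : 0 < ε) (hl : 0 < l) (hs : 0 < s)
    (hr : 1 ≤ r) (hP1 : 1 ≤ P) (hP2 : H ≤ P) (hP3 : 2 / l ≤ P) (h1 : ε * r ≤ N)
    (h2 : N ≤ 2 * ε * r) (h3 : l * s ≤ N) (h4 : N ≤ H * s) : Cmp P r (s / ε) := by
  refine ⟨hP1, by linarith, div_pos hs he, ?_, ?_⟩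
  · rw [mul_div_assoc', le_div_iff₀ he]
    have := mul_le_mul_of_nonneg_right hP2 hs.le
    linarith
  · rw [div_le_iff₀ he]
    have h5 : s ≤ 2 / l * (ε * r) := by
      rw [div_mul_eq_mul_div, le_div_iff₀ hl]
      linarith
    have h6 : 0 < ε * r := mul_pos he (by linarith)
    have h7 := mul_le_mul_of_nonneg_right hP3 h6.le
    linarith

/-- The heights over the distance. -/
theorem min_cmp' {h r a s ε C P : ℝ} (he : 0 < ε) (hs : 0 < s) (hCP : 1 ≤ C * P)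
    (h1 : Cmp C h (a / ε)) (h2 : Cmp P r (s / ε)) :
    Cmp (C * P) (min 1 (h / r)) (min 1 (a / s)) := by
  have h3 := h1.div h2
  have e1 : a / ε / (s / ε) = a / s := by
    field_simp
  rw [e1] at h3
  exact ((Cmp.refl one_pos).weaken hCP).min' h3

/-- The derivative. -/
theorem der_cmp {u v l H P : ℝ} (hl : 0 < l) (hP1 : 1 ≤ P) (hP2 : H ≤ P) (hP3 : 2 / l ≤ P)
    (h1 : l ≤ u) (h2 : u ≤ H) (h3 : l ≤ v) (h4 : v ≤ H) :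
    Cmp (P * P) 1 ((u * v) ^ (-(5 / 48 : ℝ))) := by
  have hPl : 1 ≤ P * l := by
    have e1 : 2 / l * l = 2 := by field_simp
    have := mul_le_mul_of_nonneg_right hP3 hl.le
    linarith
  have key : ∀ w, l ≤ w → w ≤ H → Cmp P 1 w := by
    intro w h5 h6
    refine ⟨hP1, one_pos, by linarith, ?_, by linarith⟩
    exact hPl.trans (mul_le_mul_of_nonneg_left h5 (by linarith))
  have c3 := ((key u h1 h2).mul (key v h3 h4)).rpow_neg (a := 5 / 48) (by norm_num) (by norm_num)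
  rwa [one_mul, Real.one_rpow] at c3

theorem gg_eq {g : ℂ → ℂ} {ζ ξ : ℂ} (hs : 0 < ‖ζ - ξ‖) (gx0 : 0 < ‖g ζ‖) (gy0 : 0 < ‖g ξ‖)
    (hQ : 0 < (1 - ‖ζ‖ ^ 2) * (1 - ‖ξ‖ ^ 2)) :
    gg g ζ ξ = (‖g ζ‖ * ‖g ξ‖) ^ (-(5 / 48 : ℝ)) * ‖ζ - ξ‖ ^ (-(5 / 24 : ℝ)) *
      ((1 - ‖ζ‖ ^ 2) * (1 - ‖ξ‖ ^ 2) /
        (‖ζ - ξ‖ ^ 2 + (1 - ‖ζ‖ ^ 2) * (1 - ‖ξ‖ ^ 2))) ^ (11 / 48 : ℝ) := by
  unfold gg
  have e1 : cr g ζ * cr g ξ = (‖g ζ‖ * ‖g ξ‖) * ((1 - ‖ζ‖ ^ 2) * (1 - ‖ξ‖ ^ 2)) := by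
    unfold cr
    ring
  rw [e1]
  exact gg_real hs (mul_pos gx0 gy0) hQ (norm_nonneg _) (tau_sq (by positivity))

theorem t_TWO : S_GA → S_HGT → S_TWO := by
  intro hGA hHGT f g M α hf ρ B ε0 hρ hε0 hGD
  obtain ⟨l, H, hl, hH, hlH, hg, -, -, -⟩ := hGA f g M α hf
  obtain ⟨C, ε1, hC, hε1, hgt'⟩ := hHGT f g M α hf ρ B ε0 hρ hε0 hGD
  -- the basic constants
  have hl2 : 0 < 2 / l := div_pos (by norm_num) hl
  obtain ⟨P, hP1, hP2, hP2', hP3⟩ : ∃ P : ℝ, 1 ≤ P ∧ 2 * H ≤ P ∧ H ≤ P ∧ 2 / l ≤ P :=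
    ⟨1 + 2 * H + 2 / l, by linarith, by linarith, by linarith, by linarith⟩
  have hCP : 1 ≤ C * P * P := Cmp.one_le_mul' (Cmp.one_le_mul' hC hP1) hP1
  refine ⟨P * (C * P * P * (C * P * P) * 48) * (P * P), ε1, ?_, hε1, ?_⟩
  · exact Cmp.one_le_mul' (Cmp.one_le_mul' hP1 (Cmp.one_le_mul' (Cmp.one_le_mul' hCP hCP)
      (by norm_num))) (Cmp.one_le_mul' hP1 hP1)
  intro ε he hε x hx y hy hxy ζ ξ hζ hξ hfx hfy hcx hcy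
  have hζd : ζ ∈ disc := by
    unfold disc
    rw [Metric.mem_closedBall, dist_zero_right]
    exact hζ.le
  have hξd : ξ ∈ disc := by
    unfold disc
    rw [Metric.mem_closedBall, dist_zero_right]
    exact hξ.le
  have hr1 : (1 : ℝ) ≤ (sd x y : ℝ) := by exact_mod_cast sd_pos hxy
  obtain ⟨n1, n2⟩ := norm_pos he x y
  obtain ⟨m1, m2⟩ := hlH ζ hζd ξ hξd
  rw [hfx, hfy] at m1 m2
  have hs : 0 < ‖ζ - ξ‖ := by
    by_contra hc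
    have h0 : ‖ζ - ξ‖ = 0 := le_antisymm (not_lt.mp hc) (norm_nonneg _)
    rw [h0, mul_zero] at m2
    have := mul_pos he (lt_of_lt_of_le one_pos hr1)
    linarith
  have hX := hgt' ε he hε x hx ζ hζd hfx
  have hY := hgt' ε he hε y hy ξ hξd hfy
  obtain ⟨gx1, gx2⟩ := hg ζ hζd
  obtain ⟨gy1, gy2⟩ := hg ξ hξd
  have hX' := hgt_cmp he hH hP1 hP2 hζ gx2 hcx hX
  have hY' := hgt_cmp he hH hP1 hP2 hξ gy2 hcy hY
  have hR : Cmp P (sd x y : ℝ) (‖ζ - ξ‖ / ε) :=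
    dist_cmp he hl hs hr1 hP1 hP2' hP3 n1 n2 m1 m2
  unfold pf
  generalize ((sd x y : ℕ) : ℝ) = r at *
  have hM := (min_cmp' he hs hCP hX' hR).mul (min_cmp' he hs hCP hY' hR)
  have hab : |(1 - ‖ζ‖) - (1 - ‖ξ‖)| ≤ ‖ζ - ξ‖ := by
    rw [abs_sub_comm]
    calc |1 - ‖ξ‖ - (1 - ‖ζ‖)| = |‖ζ‖ - ‖ξ‖| := by rw [sub_sub_sub_cancel_left]
      _ ≤ _ := abs_norm_sub_norm_le ζ ξ
  obtain ⟨hA1, hA2⟩ := one_sq (norm_nonneg ζ) hζ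
  obtain ⟨hB1, hB2⟩ := one_sq (norm_nonneg ξ) hξ
  have ha : 0 < 1 - ‖ζ‖ := sub_pos.mpr hζ
  have hb : 0 < 1 - ‖ξ‖ := sub_pos.mpr hξ
  have hM2 := hM.trans (real_cmp hs ha hb hab hA1 hA2 hB1 hB2)
  have hQ : 0 < (1 - ‖ζ‖ ^ 2) * (1 - ‖ξ‖ ^ 2) :=
    mul_pos (lt_of_lt_of_le ha hA1) (lt_of_lt_of_le hb hB1)
  have gx0 : 0 < ‖g ζ‖ := lt_of_lt_of_le hl gx1
  have gy0 : 0 < ‖g ξ‖ := lt_of_lt_of_le hl gy1
  have hG := der_cmp hl hP1 hP2' hP3 gx1 gx2 gy1 gy2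
  have hR2 := hR.rpow_neg (a := 5 / 24) (by norm_num) (by norm_num)
  have e2 : (‖ζ - ξ‖ / ε) ^ (-(5 / 24) : ℝ) = ε ^ (5 / 24 : ℝ) * ‖ζ - ξ‖ ^ (-(5 / 24) : ℝ) := by
    rw [Real.div_rpow hs.le he.le, Real.rpow_neg he.le, div_inv_eq_mul, mul_comm]
  rw [e2] at hR2
  have key := (hR2.mul (hM2.rpow (a := 11 / 48) (by norm_num) (by norm_num))).mul hG
  rw [EH_mul hR.hx hX.hx hY.hx, gg_eq hs gx0 gy0 hQ]
  refine key.congr (by rw [mul_one]) ?_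
  simp only [mul_assoc, mul_comm, mul_left_comm]

end Pool.Agent.NH41.CK.TWO
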