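import Pool.Agent.NH41.CK.ARM
import Pool.Agent.NH41.CK.LNK
import Pool.Agent.NH41.CK.GOOD3
import Pool.Agent.NH41.CK.KPT
import Pool.Agent.NH41.CK.TWO
import Pool.Agent.Y989.SD.Main
import Pool.Agent.H160R2.SA.Arm
import Pool.Agent.TH976.Scal

/-!
Project CK (helper41): the `k`-point connection probabilities in smooth Jordan domains.
-/

set_option autoImplicit false

namespace Pool.Agent.NH41.CK.FIN

open H974 H973 Finset Pool.Agent.Y989.SD
open TH976 (sd sd_self sd_comm sd_tri sd_pos Ar Cmp EH Reg Good PD kFun cx)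
open Pool.Agent.NH41.CK.HG Pool.Agent.NH41.CK.BLK
open Pool.Agent.NH41.CK.GOOD3 (Net2 S_GOOD2 t_GOOD2)
open Pool.Agent.NH41.CK.LNK (sd_le_norm)

theorem m_INT : S_INT := INT.t_INT
theorem m_BLK : S_BLK := BLK.t_BLK m_WIN m_INT
theorem m_ARM : S_ARM := ARM.t_ARM m_WIN EMB.t_EMB m_INT Pool.Agent.H160R2.SA.arSharp
theorem m_LNK : S_LNK := LNK.t_LNK m_WIN m_GA m_INT
theorem m_HGT : S_HGT := HGT.t_HGT m_GA
theorem m_TWO : S_TWO := TWO.t_TWO m_GA m_HGT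

theorem Dm_of {f : ℂ → ℂ} {ε ρ B α : ℝ} (hε : 0 < ε) (h : GDc f ε ρ B α) :
    Dm (TD f ε) ⌊ρ / ε⌋ B α := by
  intro u hu
  obtain ⟨θ, hθ⟩ := h.2.2 u hu
  obtain ⟨v, hv, hvθ, hW⟩ := h.2.1 θ
  refine ⟨v, hv, ?_, hW⟩
  have h1 := sd_le_norm hε u v
  have h2 : ‖pos ε u - pos ε v‖ ≤ 3 * ε := by
    have e : pos ε u - pos ε v = (pos ε u - f (cir θ)) - (pos ε v - f (cir θ)) := by ring
    rw [e]
    refine (norm_sub_le _ _).trans ?_
    linarith
  have h3 : (sd u v : ℝ) ≤ 5 := by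
    by_contra h4
    push Not at h4
    nlinarith
  exact_mod_cast h3

theorem LB_mono {T : Finset Vtx} {x y : Vtx} {r R R' : ℕ} (h2 : R ≤ R')
    {F : Finset Edg} (h : LB T x y r R F) : LB T x y r R' F := by
  obtain ⟨z, hz, h3, h4⟩ := h
  exact ⟨z, hz, Blk_imp (fun u hu => hu) (fun w hw => h2.trans hw) h3,
    Blk_imp (fun u hu => hu) (fun w hw => h2.trans hw) h4⟩

/-- the properties of the lattice domains -/
theorem net_of {f g : ℂ → ℂ} {Mf α ρ B ε0 : ℝ} (hW : SmW f g Mf α) (hρ : 0 < ρ) (hε0 : 0 < ε0)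
    (hGD : ∀ ε : ℝ, 0 < ε → ε ≤ ε0 → GDc f ε ρ B α) :
    ∃ (K M : ℕ) (c ε1 : ℝ), 0 < ε1 ∧ ∀ ε : ℝ, 0 < ε → ε ≤ ε1 →
      ∃ S : ℕ, Net2 (TD f ε) S K M c := by
  obtain ⟨K1, c1, hK1, hc1, hblk⟩ := m_BLK B α hW.al0
  obtain ⟨K2, C2, hK2, hC2, harm⟩ := m_ARM B α hW.al0
  obtain ⟨K3, hK3, hlnk⟩ := m_LNK f g Mf α hW ρ B ε0 hρ hε0 hGD
  obtain ⟨l, H, hl, hH, hlip, -, -, -, -⟩ := m_GA f g Mf α hW
  set K := max K1 K3 with hK
  have hK1' : K1 ≤ K := le_max_left _ _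
  have hK3' : K3 ≤ K := le_max_right _ _
  have hKR : (3 : ℝ) ≤ K := by exact_mod_cast hK1.trans hK1'
  have hK2R : (1 : ℝ) ≤ K2 := by exact_mod_cast hK2
  set ρ' := ρ / (K * K2) with hρ'
  have hρ'0 : 0 < ρ' := by positivity
  have hρK : (K : ℝ) * K2 * ρ' = ρ := by
    rw [hρ']
    field_simp
  have hKρ : (K : ℝ) * ρ' ≤ ρ := by
    have h1 : 0 < (K : ℝ) * ρ' := by positivity
    nlinarith
  have hK3ρ : (K3 : ℝ) * ρ' ≤ ρ := by
    have h1 : (K3 : ℝ) ≤ K := by exact_mod_cast hK3'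
    nlinarith
  obtain ⟨c3, ε1, hc3, hε1, hL⟩ := hlnk ρ' hρ'0 hK3ρ
  have hC20 : 0 < C2 := by linarith
  set c := min c1 (min c3 C2⁻¹) with hc
  have hc0 : 0 < c := lt_min hc1 (lt_min hc3 (inv_pos.mpr hC20))
  refine ⟨K, ⌈4 * H / ρ'⌉₊ + 1, c, min (min ε0 ε1) ρ', lt_min (lt_min hε0 hε1) hρ'0, ?_⟩
  intro ε hε hε'
  have hεε0 : ε ≤ ε0 := hε'.trans ((min_le_left _ _).trans (min_le_left _ _))
  have hεε1 : ε ≤ ε1 := hε'.trans ((min_le_left _ _).trans (min_le_right _ _))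
  have hερ : ε ≤ ρ' := hε'.trans (min_le_right _ _)
  have hG := hGD ε hε hεε0
  have hDm := Dm_of hε hG
  set S := ⌊ρ' / ε⌋₊ with hS
  have hq1 : 1 ≤ ρ' / ε := by rwa [le_div_iff₀ hε, one_mul]
  have hS1 : 1 ≤ S := Nat.le_floor (by exact_mod_cast hq1)
  have hSle : (S : ℝ) ≤ ρ' / ε := Nat.floor_le (by positivity)
  have hSlt : ρ' / ε < S + 1 := Nat.lt_floor_add_one _
  have hS1R : (1 : ℝ) ≤ S := by exact_mod_cast hS1
  have key : ∀ m : ℝ, m * ρ' ≤ ρ → 0 ≤ m → m * S ≤ ρ / ε := by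
    intro m hm hm0
    calc m * S ≤ m * (ρ' / ε) := mul_le_mul_of_nonneg_left hSle hm0
      _ = m * ρ' / ε := by ring
      _ ≤ ρ / ε := div_le_div_of_nonneg_right hm hε.le
  refine ⟨S, hK1.trans hK1', hS1, by omega, hc0, ?_, ?_, ?_, ?_⟩
  · intro x hx r hr hrS
    refine (min_le_left _ _).trans ((hblk (TD f ε) _ hDm x hx r hr ?_).trans (Pr_mono H974.okhalf ?_))
    · rw [Int.le_floor]
      push_cast
      refine le_trans ?_ (key K1 ?_ (by positivity))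
      · have : (r : ℝ) ≤ S := by exact_mod_cast hrS
        exact mul_le_mul_of_nonneg_left this (by positivity)
      · have : (K1 : ℝ) ≤ K := by exact_mod_cast hK1'
        nlinarith
    · intro F _ hF
      exact HB_mono le_rfl (Nat.mul_le_mul_right r hK1') hF
  · intro x hx y hy
    refine ((min_le_right _ _).trans (min_le_left _ _)).trans
      ((hL ε hε hεε1 x hx y hy).trans (Pr_mono H974.okhalf ?_))
    intro F _ hF
    exact LB_mono (Nat.mul_le_mul_right S hK3') hF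
  · intro x hx y hy
    obtain ⟨z, hz, hz'⟩ := (hG.1 x).mp hx
    obtain ⟨w, hw, hw'⟩ := (hG.1 y).mp hy
    have h1 := sd_le_norm hε x y
    rw [← hz', ← hw'] at h1
    have h2 := (hlip z hz w hw).2
    have h3 : ‖z - w‖ ≤ 2 := by
      unfold disc at hz hw
      rw [Metric.mem_closedBall, dist_zero_right] at hz hw
      refine (norm_sub_le _ _).trans ?_
      linarith
    have h4 : ε * (sd x y : ℝ) ≤ 2 * H := by nlinarith
    have h5 : (sd x y : ℝ) ≤ 2 * H / ε := by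
      rw [le_div_iff₀ hε]
      linarith
    have h6 : 2 * H / ε ≤ (4 * H / ρ') * S := by
      have h7 : ρ' / ε ≤ 2 * S := by linarith
      calc 2 * H / ε = 2 * H / ρ' * (ρ' / ε) := by field_simp
        _ ≤ 2 * H / ρ' * (2 * S) := mul_le_mul_of_nonneg_left h7 (by positivity)
        _ = _ := by ring
    have h8 : (4 * H / ρ') * S ≤ ((⌈4 * H / ρ'⌉₊ + 1 : ℕ) : ℝ) * S := by
      apply mul_le_mul_of_nonneg_right _ (by positivity)
      push_cast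
      linarith [Nat.le_ceil (4 * H / ρ')]
    exact_mod_cast (h5.trans h6).trans h8
  · intro x hx n hn hnK
    have h1 := harm (TD f ε) _ hDm x hx n hn ?_
    · refine h1.weaken ?_
      rw [le_inv_comm₀ hC20 hc0]
      exact (min_le_right _ _).trans (min_le_right _ _)
    · rw [Int.le_floor]
      push_cast
      have h2 : (n : ℝ) ≤ K * S := by exact_mod_cast hnK
      calc (K2 : ℝ) * n ≤ K2 * (K * S) := mul_le_mul_of_nonneg_left h2 (by positivity)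
        _ = (K * K2) * S := by ring
        _ ≤ ρ / ε := key _ hρK.le (by positivity)

/-- the inverse of `f` -/
noncomputable def fi (f : ℂ → ℂ) (ε : ℝ) (z : ℂ) : ℂ := Function.invFunOn f disc ((ε : ℂ) * z)

theorem cx_pos (ε : ℝ) (v : Vtx) : (ε : ℂ) * cx v = pos ε v := by
  unfold cx pos
  apply Complex.ext
  · simp
  · simp

theorem fi_eq {f : ℂ → ℂ} (hi : Set.InjOn f disc) {ε : ℝ} {v : Vtx} {ζ : ℂ} (hζ : ‖ζ‖ < 1)
    (h : f ζ = pos ε v) : fi f ε (cx v) = ζ := by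
  have hd : ζ ∈ disc := by
    unfold disc
    rw [Metric.mem_closedBall, dist_zero_right]
    exact hζ.le
  unfold fi
  rw [cx_pos, ← h]
  exact hi.leftInvOn_invFunOn hd

/-- scaling of the `k`-point functions -/
theorem kFun_smul {G G' : ℂ → ℂ → ℝ} {a : ℝ} (ha : 0 ≤ a) {z z' : ℕ → ℂ} {n : ℕ} (hn : 2 ≤ n)
    (h : ∀ i < n, ∀ j < n, i ≠ j → G (z i) (z j) = a ^ 2 * G' (z' i) (z' j)) :
    kFun G z n = a ^ n * kFun G' z' n := by
  induction n, hn using Nat.le_induction with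
  | base =>
    unfold kFun
    rw [Finset.Ico_self, Finset.prod_empty, mul_one, Finset.prod_empty, mul_one]
    exact h 0 (by norm_num) 1 (by norm_num) (by norm_num)
  | succ n hn ih =>
    have ih' := ih (fun i hi j hj hij => h i (by omega) j (by omega) hij)
    unfold kFun at ih' ⊢
    rw [Finset.prod_Ico_succ_top hn, Finset.prod_Ico_succ_top hn, ← mul_assoc, ← mul_assoc, ih']
    have key : (⨆ p : {p : Fin n × Fin n // p.1 < p.2},
        Real.sqrt (G (z n) (z p.1.1) * G (z n) (z p.1.2) / G (z p.1.1) (z p.1.2))) =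
        a * ⨆ p : {p : Fin n × Fin n // p.1 < p.2},
        Real.sqrt (G' (z' n) (z' p.1.1) * G' (z' n) (z' p.1.2) / G' (z' p.1.1) (z' p.1.2)) := by
      rw [Real.mul_iSup_of_nonneg ha]
      congr 1
      funext p
      obtain ⟨⟨⟨i, hi⟩, ⟨j, hj⟩⟩, hij⟩ := p
      have hij' : i < j := hij
      show Real.sqrt (G (z n) (z i) * G (z n) (z j) / G (z i) (z j)) =
        a * Real.sqrt (G' (z' n) (z' i) * G' (z' n) (z' j) / G' (z' i) (z' j))
      rw [h n (by omega) i (by omega) (by omega), h n (by omega) j (by omega) (by omega),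
        h i (by omega) j (by omega) (by omega)]
      rcases ha.eq_or_lt with h0 | h0
      · rw [← h0]
        simp
      · have : a ^ 2 * G' (z' n) (z' i) * (a ^ 2 * G' (z' n) (z' j)) /
            (a ^ 2 * G' (z' i) (z' j)) =
            a ^ 2 * (G' (z' n) (z' i) * G' (z' n) (z' j) / G' (z' i) (z' j)) := by
          rcases eq_or_ne (G' (z' i) (z' j)) 0 with h1 | h1
          · rw [h1]
            simp
          · field_simp
        rw [this, Real.sqrt_mul (by positivity), Real.sqrt_sq h0.le]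
    rw [key, pow_succ]
    ring

/-- **The `k`-point functions.** -/
theorem main {f g : ℂ → ℂ} {Mf α : ℝ} (hW : SmW f g Mf α) : ∃ C ε0 : ℝ, 1 ≤ C ∧ 0 < ε0 ∧
    ∀ ε : ℝ, 0 < ε → ε ≤ ε0 → (∀ v : Vtx, v ∈ TD f ε ↔ pos ε v ∈ f '' disc) ∧
      ∀ (n : ℕ) (x : ℕ → Vtx) (ζ : ℕ → ℂ), 2 ≤ n →
      (∀ i < n, ‖ζ i‖ < 1 ∧ f (ζ i) = pos ε (x i) ∧ ε ≤ cr g (ζ i)) →
      (∀ i < n, ∀ j < n, i ≠ j → x i ≠ x j) →
        Cmp (C ^ n) (PD (↑(TD f ε) : Set Vtx) (H362P.Cn ((Finset.range n).image x)))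
          ((ε ^ (5 / 48 : ℝ)) ^ n * kFun (gg g) ζ n) := by
  obtain ⟨ρ, B, e0, hρ, he0, hGD⟩ := m_GD f g Mf α hW
  obtain ⟨K, M, c, e1, he1, hnet⟩ := net_of hW hρ he0 hGD
  obtain ⟨k, hreg⟩ := REG.t_REG
  obtain ⟨c', hc', hgood⟩ := t_GOOD2 K M c k
  obtain ⟨K2, e2, hK2, he2, htwo⟩ := m_TWO f g Mf α hW ρ B e0 hρ he0 hGD
  have hregT : ∀ T : Finset Vtx, Reg (↑T : Set Vtx) (pf T) k := by
    intro T
    exact hreg (↑T : Set Vtx) (fun v => hgt T v) (fun v hv => HG.hgt_pos hv)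
      (fun u _ v _ => HG.hgt_lip T u v)
  refine ⟨max 1 (k ^ 12 * (1 + c'⁻¹) * (K2 * K2 * K2)), min e0 (min e1 e2), le_max_left _ _,
    lt_min he0 (lt_min he1 he2), ?_⟩
  intro ε hε hε'
  have hε0 : ε ≤ e0 := hε'.trans (min_le_left _ _)
  have hε1 : ε ≤ e1 := hε'.trans ((min_le_right _ _).trans (min_le_left _ _))
  have hε2 : ε ≤ e2 := hε'.trans ((min_le_right _ _).trans (min_le_right _ _))
  have hv := (hGD ε hε hε0).1
  refine ⟨hv, ?_⟩
  intro n x ζ hn hx hd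
  obtain ⟨S, hN⟩ := hnet ε hε hε1
  have hR := hregT (TD f ε)
  have hg := hgood (TD f ε) S hN hR
  set V : Set Vtx := {v | v ∈ TD f ε ∧ ∃ ζ : ℂ, ‖ζ‖ < 1 ∧ f ζ = pos ε v ∧ ε ≤ cr g ζ} with hV
  set G : ℂ → ℂ → ℝ := fun z w => ε ^ (5 / 24 : ℝ) * gg g (fi f ε z) (fi f ε w) with hG
  have hmem : ∀ {ζ : ℂ}, ‖ζ‖ < 1 → ζ ∈ disc := by
    intro ζ h
    unfold disc
    rw [Metric.mem_closedBall, dist_zero_right]
    exact h.le
  have hTV : TwoV V (pf (TD f ε)) G K2 := by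
    rintro v ⟨hv1, ζ1, h1, h2, h3⟩ w ⟨hw1, ζ2, h4, h5, h6⟩ hvw
    have := htwo ε hε hε2 v hv1 w hw1 hvw ζ1 ζ2 h1 h4 h2 h5 h3 h6
    show Cmp K2 _ (ε ^ (5 / 24 : ℝ) * gg g (fi f ε (cx v)) (fi f ε (cx w)))
    rw [fi_eq hW.inj h1 h2, fi_eq hW.inj h4 h5]
    exact this
  have hxV : ∀ i < n, x i ∈ V := by
    intro i hi
    obtain ⟨h1, h2, h3⟩ := hx i hi
    exact ⟨(hv (x i)).mpr ⟨ζ i, hmem h1, h2⟩, ζ i, h1, h2, h3⟩
  have t := KPT.t_KPT (↑(TD f ε) : Set Vtx) V (pf (TD f ε)) c' k K2 G (fun v hv => hv.1) hg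
    (fun v hv => GOOD.pf_one hv) hR hTV hK2 n x hn hxV hd
  have e : kFun G (fun i => cx (x i)) n = (ε ^ (5 / 48 : ℝ)) ^ n * kFun (gg g) ζ n := by
    refine kFun_smul (by positivity) hn ?_
    intro i hi j hj hij
    show ε ^ (5 / 24 : ℝ) * gg g (fi f ε (cx (x i))) (fi f ε (cx (x j))) = _
    obtain ⟨h1, h2, h3⟩ := hx i hi
    obtain ⟨h4, h5, h6⟩ := hx j hj
    rw [fi_eq hW.inj h1 h2, fi_eq hW.inj h4 h5, ← Real.rpow_natCast, ← Real.rpow_mul hε.le]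
    norm_num
  rw [e] at t
  refine t.weaken (pow_le_pow_left₀ ?_ (le_max_right _ _) _)
  have hk := hR.hk
  positivity

end Pool.Agent.NH41.CK.FIN
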