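import Pool.Agent.NH41.CK.TWO
import Pool.Agent.NH41.CK.FIN
import Pool.Agent.TH976.Scal

/-!
Project CK (helper41): conformal covariance of the conformal radius and of the pseudo-hyperbolic
distance, for conformal maps between smooth Jordan domains.
-/

set_option autoImplicit false

namespace Pool.Agent.NH41.CK.COV

open Complex Set Metric Filter Topology ComplexConjugate
open TH976 (UH UH_open Conf cay cayi cay_den cay_norm cay_lt cayi_den cayi_mem cayi_cay nsq kFun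
  kFun_cov kFun_cmp Cmp)

/-- the Cayley map of the disc -/
noncomputable def ca (ζ : ℂ) : ℂ := cayi I ζ

theorem I_mem : (I : ℂ) ∈ UH := by
  show 0 < (I : ℂ).im
  rw [Complex.I_im]
  norm_num

theorem ca_eq (ζ : ℂ) : ca ζ = I * (1 + ζ) / (1 - ζ) := by
  unfold ca cayi
  rw [Complex.conj_I]
  ring

theorem den_pos {ζ : ℂ} (h : ‖ζ‖ < 1) : 0 < ‖1 - ζ‖ := norm_pos_iff.mpr (cayi_den h)

theorem ca_im {ζ : ℂ} (h : ‖ζ‖ < 1) : (ca ζ).im = (1 - ‖ζ‖ ^ 2) / ‖1 - ζ‖ ^ 2 := by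
  have h1 := den_pos h
  have h2 : Complex.normSq (1 - ζ) ≠ 0 := by
    rw [Complex.normSq_eq_norm_sq]
    positivity
  rw [ca_eq, Complex.div_im, eq_div_iff (by positivity), ← Complex.normSq_eq_norm_sq (1 - ζ),
    sub_mul, div_mul_cancel₀ _ h2, div_mul_cancel₀ _ h2, nsq]
  simp only [Complex.sub_re, Complex.sub_im, Complex.mul_re, Complex.mul_im, Complex.add_re,
    Complex.add_im, Complex.one_re, Complex.one_im, Complex.I_re, Complex.I_im]
  ring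

theorem ca_sub {ζ ξ : ℂ} (h : ‖ζ‖ < 1) (h' : ‖ξ‖ < 1) :
    ca ζ - ca ξ = 2 * I * (ζ - ξ) / ((1 - ζ) * (1 - ξ)) := by
  have h1 := cayi_den h
  have h2 := cayi_den h'
  rw [ca_eq, ca_eq]
  field_simp
  ring

theorem ca_sub_norm {ζ ξ : ℂ} (h : ‖ζ‖ < 1) (h' : ‖ξ‖ < 1) :
    ‖ca ζ - ca ξ‖ = 2 * ‖ζ - ξ‖ / (‖1 - ζ‖ * ‖1 - ξ‖) := by
  rw [ca_sub h h', norm_div, norm_mul, norm_mul, norm_mul, Complex.norm_I, Complex.norm_two,
    mul_one]

theorem ca_deriv {ζ : ℂ} (h : ‖ζ‖ < 1) : HasDerivAt ca (2 * I / (1 - ζ) ^ 2) ζ := by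
  have h1 := cayi_den h
  have e : ca = fun ζ => I * (1 + ζ) / (1 - ζ) := by
    funext ζ
    exact ca_eq ζ
  rw [e]
  have a1 : HasDerivAt (fun ζ : ℂ => I * (1 + ζ)) I ζ := by
    have := ((hasDerivAt_id ζ).const_add 1).const_mul I
    simpa using this
  have a2 : HasDerivAt (fun ζ : ℂ => 1 - ζ) (-1) ζ := by
    have := (hasDerivAt_id ζ).const_sub 1
    simpa using this
  have a3 := a1.div a2 h1
  have e2 : 2 * I / (1 - ζ) ^ 2 = (I * (1 - ζ) - I * (1 + ζ) * -1) / (1 - ζ) ^ 2 := by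
    congr 1
    ring
  rw [e2]
  exact a3

theorem cay_ca {ζ : ℂ} (h : ‖ζ‖ < 1) : cay I (ca ζ) = ζ := by
  have h1 := cayi_den h
  have h2 : ca ζ - conj I ≠ 0 := cay_den I_mem (cayi_mem I_mem h)
  unfold cay
  rw [div_eq_iff h2, ca_eq, Complex.conj_I]
  field_simp
  ring

theorem conf_ca : Conf (ball 0 1) UH ca := by
  have hB : ∀ ζ ∈ ball (0 : ℂ) 1, ‖ζ‖ < 1 := fun ζ hζ => by rwa [mem_ball_zero_iff] at hζ
  refine ⟨fun ζ hζ => (ca_deriv (hB ζ hζ)).differentiableAt.differentiableWithinAt,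
    fun ζ hζ => cayi_mem I_mem (hB ζ hζ), cay I, ?_, ?_, fun ζ hζ => cay_ca (hB ζ hζ),
    fun w hw => cayi_cay I_mem hw⟩
  · intro z hz
    unfold cay
    apply DifferentiableWithinAt.div
    · fun_prop
    · fun_prop
    · exact cay_den I_mem hz
  · intro z hz
    rw [mem_ball_zero_iff]
    exact cay_lt I_mem hz

/-! ### invariants -/

/-- half of the conformal radius -/
noncomputable def Ru (u : ℂ → ℂ) (z : ℂ) : ℝ := (u z).im / ‖deriv u z‖

/-- the invariant of two points -/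
noncomputable def Xu (u : ℂ → ℂ) (z w : ℂ) : ℝ := ‖u z - u w‖ ^ 2 / ((u z).im * (u w).im)

theorem inv_cov {D D' : Set ℂ} (hD : IsOpen D) (hD' : IsOpen D') {u u' φ : ℂ → ℂ}
    (hu : Conf D UH u) (hu' : Conf D' UH u') (h : Conf D D' φ) :
    (∀ z ∈ D, Ru u' (φ z) = ‖deriv φ z‖ * Ru u z) ∧
    ∀ z ∈ D, ∀ w ∈ D, Xu u' (φ z) (φ w) = Xu u z w := by
  obtain ⟨v, hv, hv1, hv2⟩ := hu.symm
  have hF := (hv.comp h).comp hu'
  set F := u' ∘ φ ∘ v with hFd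
  have hF' : Conf UH UH F := hF
  have e1 : ∀ y ∈ D, F (u y) = u' (φ y) := by
    intro y hy
    show u' (φ (v (u y))) = _
    rw [hv1 y hy]
  have e2 : ∀ y ∈ D, deriv F (u y) * deriv u y = deriv u' (φ y) * deriv φ y := by
    intro y hy
    have d1 : HasDerivAt u (deriv u y) y := (hu.1.differentiableAt (hD.mem_nhds hy)).hasDerivAt
    have d2 : HasDerivAt F (deriv F (u y)) (u y) :=
      (hF'.1.differentiableAt (UH_open.mem_nhds (hu.2.1 hy))).hasDerivAt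
    have d3 : HasDerivAt φ (deriv φ y) y := (h.1.differentiableAt (hD.mem_nhds hy)).hasDerivAt
    have d4 : HasDerivAt u' (deriv u' (φ y)) (φ y) :=
      (hu'.1.differentiableAt (hD'.mem_nhds (h.2.1 hy))).hasDerivAt
    have d5 := d2.comp y d1
    have d6 := d4.comp y d3
    have d7 : (F ∘ u) =ᶠ[𝓝 y] (u' ∘ φ) := by
      filter_upwards [hD.mem_nhds hy] with y' hy'
      exact e1 y' hy'
    exact d5.unique (d6.congr_of_eventuallyEq d7)
  constructor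
  · intro z hz
    have k1 := hF'.deriv_UH (hu.2.1 hz)
    rw [e1 z hz] at k1
    have k2 := congrArg norm (e2 z hz)
    rw [norm_mul, norm_mul, k1] at k2
    have z0 : 0 < (u z).im := hu.2.1 hz
    have z1 : 0 < (u' (φ z)).im := hu'.2.1 (h.2.1 hz)
    have p1 : 0 < ‖deriv u z‖ := norm_pos_iff.mpr (hu.deriv_ne hD UH_open hz)
    have p2 : 0 < ‖deriv u' (φ z)‖ := norm_pos_iff.mpr (hu'.deriv_ne hD' UH_open (h.2.1 hz))
    unfold Ru
    rw [div_mul_eq_mul_div, div_eq_iff z0.ne'] at k2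
    rw [← mul_div_assoc, div_eq_div_iff p2.ne' p1.ne']
    linear_combination k2
  · intro z hz w hw
    have k1 := hF'.iso (hu.2.1 hz) (hu.2.1 hw)
    rw [e1 z hz, e1 w hw] at k1
    have z0 : 0 < (u z).im := hu.2.1 hz
    have z1 : 0 < (u' (φ z)).im := hu'.2.1 (h.2.1 hz)
    have w0 : 0 < (u w).im := hu.2.1 hw
    have w1 : 0 < (u' (φ w)).im := hu'.2.1 (h.2.1 hw)
    unfold Xu
    rw [div_eq_div_iff (by positivity) (by positivity)]
    linarith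

/-! ### the domain of a conformal map -/

/-- what is used of the parametrization -/
structure Par (f g : ℂ → ℂ) : Prop where
  inj : InjOn f (ball 0 1)
  der : ∀ z : ℂ, ‖z‖ < 1 → HasDerivAt f (g z) z
  ne : ∀ z : ℂ, ‖z‖ < 1 → g z ≠ 0

namespace Par
variable {f g : ℂ → ℂ}

theorem strict (h : Par f g) {z : ℂ} (hz : ‖z‖ < 1) : HasStrictDerivAt f (g z) z := by
  have h1 : DifferentiableOn ℂ f (ball 0 1) := fun w hw =>
    (h.der w (by rwa [mem_ball_zero_iff] at hw)).differentiableAt.differentiableWithinAt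
  have h2 : AnalyticAt ℂ f z := h1.analyticAt (isOpen_ball.mem_nhds (by rwa [mem_ball_zero_iff]))
  have h3 := h2.hasStrictDerivAt
  rwa [(h.der z hz).deriv] at h3

theorem map_nhds (h : Par f g) {z : ℂ} (hz : ‖z‖ < 1) : map f (𝓝 z) = 𝓝 (f z) :=
  (h.strict hz).map_nhds_eq (h.ne z hz)

theorem isOpen (h : Par f g) : IsOpen (f '' ball 0 1) := by
  rw [isOpen_iff_mem_nhds]
  rintro _ ⟨z, hz, rfl⟩
  have hz' : ‖z‖ < 1 := by rwa [mem_ball_zero_iff] at hz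
  rw [← h.map_nhds hz']
  exact image_mem_map (isOpen_ball.mem_nhds hz)

/-- the inverse -/
noncomputable def iv (f : ℂ → ℂ) : ℂ → ℂ := Function.invFunOn f (ball 0 1)

theorem iv_f (h : Par f g) {z : ℂ} (hz : ‖z‖ < 1) : iv f (f z) = z :=
  h.inj.leftInvOn_invFunOn (by rwa [mem_ball_zero_iff])

theorem iv_mem {w : ℂ} (hw : w ∈ f '' ball 0 1) : ‖iv f w‖ < 1 := by
  have := Function.invFunOn_mem hw
  rwa [mem_ball_zero_iff] at this

theorem f_iv {w : ℂ} (hw : w ∈ f '' ball 0 1) : f (iv f w) = w := Function.invFunOn_eq hw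

theorem iv_tendsto (h : Par f g) {z : ℂ} (hz : ‖z‖ < 1) : Tendsto (iv f) (𝓝 (f z)) (𝓝 z) := by
  rw [← h.map_nhds hz, tendsto_map'_iff]
  have : iv f ∘ f =ᶠ[𝓝 z] id := by
    filter_upwards [isOpen_ball.mem_nhds (show z ∈ ball (0 : ℂ) 1 by rwa [mem_ball_zero_iff])]
      with y hy
    exact h.iv_f (by rwa [mem_ball_zero_iff] at hy)
  exact tendsto_id.congr' this.symm

theorem iv_cont (h : Par f g) {w : ℂ} (hw : w ∈ f '' ball 0 1) : ContinuousAt (iv f) w := by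
  obtain ⟨z, hz, rfl⟩ := hw
  have hz' : ‖z‖ < 1 := by rwa [mem_ball_zero_iff] at hz
  show Tendsto _ _ (𝓝 (iv f (f z)))
  rw [h.iv_f hz']
  exact h.iv_tendsto hz'

theorem iv_der (h : Par f g) {z : ℂ} (hz : ‖z‖ < 1) : HasDerivAt (iv f) (g z)⁻¹ (f z) := by
  have hz' : z ∈ ball (0 : ℂ) 1 := by rwa [mem_ball_zero_iff]
  have h1 : HasDerivAt f (g z) (iv f (f z)) := by
    rw [h.iv_f hz]
    exact h.der z hz
  refine HasDerivAt.of_local_left_inverse (h.iv_cont ⟨z, hz', rfl⟩) h1 (h.ne z hz) ?_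
  filter_upwards [h.isOpen.mem_nhds ⟨z, hz', rfl⟩] with y hy
  exact f_iv hy

theorem conf_iv (h : Par f g) : Conf (f '' ball 0 1) (ball 0 1) (iv f) := by
  refine ⟨?_, ?_, f, ?_, ?_, ?_, ?_⟩
  · rintro _ ⟨z, hz, rfl⟩
    exact (h.iv_der (by rwa [mem_ball_zero_iff] at hz)).differentiableAt.differentiableWithinAt
  · intro w hw
    rw [mem_ball_zero_iff]
    exact iv_mem hw
  · intro z hz
    exact (h.der z (by rwa [mem_ball_zero_iff] at hz)).differentiableAt.differentiableWithinAt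
  · exact fun z hz => ⟨z, hz, rfl⟩
  · exact fun w hw => f_iv hw
  · exact fun z hz => h.iv_f (by rwa [mem_ball_zero_iff] at hz)

theorem conf (h : Par f g) : Conf (f '' ball 0 1) UH (ca ∘ iv f) := h.conf_iv.comp conf_ca

theorem Ru_eq (h : Par f g) {z : ℂ} (hz : ‖z‖ < 1) : Ru (ca ∘ iv f) (f z) = cr g z / 2 := by
  have h1 : HasDerivAt (ca ∘ iv f) (2 * I / (1 - z) ^ 2 * (g z)⁻¹) (f z) := by
    have := h.iv_f hz
    have a : HasDerivAt ca (2 * I / (1 - z) ^ 2) (iv f (f z)) := by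
      rw [this]
      exact ca_deriv hz
    exact a.comp (f z) (h.iv_der hz)
  have h2 := den_pos hz
  have h3 : 0 < ‖g z‖ := norm_pos_iff.mpr (h.ne z hz)
  unfold Ru cr
  rw [h1.deriv]
  show (ca (iv f (f z))).im / _ = _
  rw [h.iv_f hz, ca_im hz, norm_mul, norm_div, norm_mul, Complex.norm_two, Complex.norm_I,
    norm_pow, norm_inv]
  field_simp

theorem Xu_eq (h : Par f g) {z w : ℂ} (hz : ‖z‖ < 1) (hw : ‖w‖ < 1) :
    Xu (ca ∘ iv f) (f z) (f w) = 4 * ‖z - w‖ ^ 2 / ((1 - ‖z‖ ^ 2) * (1 - ‖w‖ ^ 2)) := by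
  have h1 := den_pos hz
  have h2 := den_pos hw
  have h3 : 0 < 1 - ‖z‖ ^ 2 := by nlinarith [norm_nonneg z]
  have h4 : 0 < 1 - ‖w‖ ^ 2 := by nlinarith [norm_nonneg w]
  unfold Xu
  show ‖ca (iv f (f z)) - ca (iv f (f w))‖ ^ 2 / ((ca (iv f (f z))).im * (ca (iv f (f w))).im) = _
  rw [h.iv_f hz, h.iv_f hw, ca_im hz, ca_im hw, ca_sub_norm hz hw]
  field_simp
  ring

end Par

theorem tau_nonneg (z w : ℂ) : 0 ≤ tau z w := norm_nonneg _

/-- covariance of the conformal radius, invariance of the distance -/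
theorem cov {f1 g1 f2 g2 φ : ℂ → ℂ} (h1 : Par f1 g1) (h2 : Par f2 g2)
    (h : Conf (f1 '' ball 0 1) (f2 '' ball 0 1) φ) :
    (∀ z w : ℂ, ‖z‖ < 1 → ‖w‖ < 1 → φ (f1 z) = f2 w → cr g2 w = ‖deriv φ (f1 z)‖ * cr g1 z) ∧
    ∀ z z' w w' : ℂ, ‖z‖ < 1 → ‖z'‖ < 1 → ‖w‖ < 1 → ‖w'‖ < 1 → φ (f1 z) = f2 w →
      φ (f1 z') = f2 w' → tau w w' = tau z z' := by
  obtain ⟨k1, k2⟩ := inv_cov h1.isOpen h2.isOpen h1.conf h2.conf h
  constructor
  · intro z w hz hw hφ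
    have := k1 (f1 z) ⟨z, by rwa [mem_ball_zero_iff], rfl⟩
    rw [hφ, h1.Ru_eq hz, h2.Ru_eq hw] at this
    linarith
  · intro z z' w w' hz hz' hw hw' hφ hφ'
    have := k2 (f1 z) ⟨z, by rwa [mem_ball_zero_iff], rfl⟩ (f1 z')
      ⟨z', by rwa [mem_ball_zero_iff], rfl⟩
    rw [hφ, hφ', h1.Xu_eq hz hz', h2.Xu_eq hw hw'] at this
    have p1 : 0 < 1 - ‖z‖ ^ 2 := by nlinarith [norm_nonneg z]
    have p2 : 0 < 1 - ‖z'‖ ^ 2 := by nlinarith [norm_nonneg z']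
    have p3 : 0 < 1 - ‖w‖ ^ 2 := by nlinarith [norm_nonneg w]
    have p4 : 0 < 1 - ‖w'‖ ^ 2 := by nlinarith [norm_nonneg w']
    have n1 := mul_pos p1 p2
    have n2 := mul_pos p3 p4
    have s1 := TWO.tau_sq (ζ := z) (ξ := z') (by positivity)
    have s2 := TWO.tau_sq (ζ := w) (ξ := w') (by positivity)
    have s3 : tau w w' ^ 2 = tau z z' ^ 2 := by
      rw [s1, s2]
      generalize (1 - ‖z‖ ^ 2) * (1 - ‖z'‖ ^ 2) = A at *
      generalize (1 - ‖w‖ ^ 2) * (1 - ‖w'‖ ^ 2) = B at *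
      have q1 := sq_nonneg ‖z - z'‖
      have q2 := sq_nonneg ‖w - w'‖
      generalize ‖z - z'‖ ^ 2 = a at *
      generalize ‖w - w'‖ ^ 2 = b at *
      rw [div_eq_div_iff n2.ne' n1.ne'] at this
      rw [div_eq_div_iff (by positivity) (by positivity)]
      nlinarith
    exact (pow_left_inj₀ (tau_nonneg _ _) (tau_nonneg _ _) two_ne_zero).mp s3

/-! ### the universal function -/

/-- the function of the distance -/
noncomputable def hh (z w : ℂ) : ℝ := tau z w ^ (-(5 / 24) : ℝ) * (1 - tau z w ^ 2) ^ (1 / 3 : ℝ)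

theorem cr_pos {f g : ℂ → ℂ} (h : Par f g) {z : ℂ} (hz : ‖z‖ < 1) : 0 < cr g z := by
  have h3 : 0 < ‖g z‖ := norm_pos_iff.mpr (h.ne z hz)
  have h4 : 0 < 1 - ‖z‖ ^ 2 := by nlinarith [norm_nonneg z]
  unfold cr
  positivity

theorem gg_hh {g : ℂ → ℂ} {z w : ℂ} (hz : 0 < cr g z) (hw : 0 < cr g w) :
    gg g z w = cr g z ^ (-(5 / 48) : ℝ) * cr g w ^ (-(5 / 48) : ℝ) * hh z w := by
  unfold gg hh
  rw [Real.mul_rpow hz.le hw.le]
  ring

theorem tau_pos {z w : ℂ} (hz : ‖z‖ < 1) (hw : ‖w‖ < 1) (h : z ≠ w) : 0 < tau z w := by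
  have p1 : 0 < 1 - ‖z‖ ^ 2 := by nlinarith [norm_nonneg z]
  have p2 : 0 < 1 - ‖w‖ ^ 2 := by nlinarith [norm_nonneg w]
  have p3 : 0 < ‖z - w‖ := norm_pos_iff.mpr (sub_ne_zero.mpr h)
  have p4 := mul_pos p1 p2
  have s1 := TWO.tau_sq (ζ := z) (ξ := w) (by positivity)
  have s2 : 0 < tau z w ^ 2 := by
    rw [s1]
    positivity
  rcases (tau_nonneg z w).eq_or_lt with h0 | h0
  · rw [← h0] at s2
    norm_num at s2
  · exact h0

theorem tau_lt {z w : ℂ} (hz : ‖z‖ < 1) (hw : ‖w‖ < 1) : tau z w ^ 2 < 1 := by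
  have p1 : 0 < 1 - ‖z‖ ^ 2 := by nlinarith [norm_nonneg z]
  have p2 : 0 < 1 - ‖w‖ ^ 2 := by nlinarith [norm_nonneg w]
  have p4 := mul_pos p1 p2
  rw [TWO.tau_sq (by positivity), div_lt_one (by positivity)]
  linarith

theorem hh_pos {z w : ℂ} (hz : ‖z‖ < 1) (hw : ‖w‖ < 1) (h : z ≠ w) : 0 < hh z w := by
  have h1 := tau_pos hz hw h
  have h2 := tau_lt hz hw
  have h3 : 0 < 1 - tau z w ^ 2 := by linarith
  unfold hh
  positivity

theorem den_ne {z w : ℂ} (hz : ‖z‖ < 1) (hw : ‖w‖ < 1) : 1 - conj w * z ≠ 0 := by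
  have p1 : 0 < 1 - ‖z‖ ^ 2 := by nlinarith [norm_nonneg z]
  have p2 : 0 < 1 - ‖w‖ ^ 2 := by nlinarith [norm_nonneg w]
  have p4 := mul_pos p1 p2
  have h1 := TWO.den_sq z w
  intro h0
  rw [h0, norm_zero] at h1
  have := sq_nonneg ‖z - w‖
  nlinarith

theorem hh_cont {z w : ℂ} (hz : ‖z‖ < 1) (hw : ‖w‖ < 1) (h : z ≠ w) :
    ContinuousAt (fun p : ℂ × ℂ => hh p.1 p.2) (z, w) := by
  have h1 := tau_pos hz hw h
  have h2 := tau_lt hz hw
  have c0 : ContinuousAt (fun p : ℂ × ℂ => (p.1 - p.2) / (1 - conj p.2 * p.1)) (z, w) := by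
    apply ContinuousAt.div
    · fun_prop
    · exact (continuous_const.sub ((Complex.continuous_conj.comp continuous_snd).mul
        continuous_fst)).continuousAt
    · exact den_ne hz hw
  have c1 : ContinuousAt (fun p : ℂ × ℂ => tau p.1 p.2) (z, w) := c0.norm
  unfold hh
  apply ContinuousAt.mul
  · exact c1.rpow_const (Or.inl h1.ne')
  · have c2 : ContinuousAt (fun p : ℂ × ℂ => 1 - tau p.1 p.2 ^ 2) (z, w) :=
      continuousAt_const.sub (c1.pow 2)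
    refine c2.rpow_const (Or.inl ?_)
    show 1 - tau z w ^ 2 ≠ 0
    linarith

/-! ### the `k`-point functions -/

theorem kFun_gg {f g : ℂ → ℂ} (h : Par f g) {ζ : ℕ → ℂ} {k : ℕ} (hk : 2 ≤ k)
    (hζ : ∀ i < k, ‖ζ i‖ < 1) :
    kFun (gg g) ζ k = (∏ i ∈ Finset.range k, cr g (ζ i) ^ (-(5 / 48) : ℝ)) * kFun hh ζ k := by
  refine kFun_cov (J := fun z => cr g z ^ (-(5 / 48) : ℝ)) (φ := id) hk ?_ ?_
  · intro i hi
    have := cr_pos h (hζ i hi)
    positivity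
  · intro i hi j hj _
    exact gg_hh (cr_pos h (hζ i hi)) (cr_pos h (hζ j hj))

theorem cr_cont {f g : ℂ → ℂ} (h : Par f g) {z : ℂ} (hz : ‖z‖ < 1) : ContinuousAt (cr g) z := by
  have hb : ball (0 : ℂ) 1 ∈ 𝓝 z := isOpen_ball.mem_nhds (by rwa [mem_ball_zero_iff])
  have h1 : DifferentiableOn ℂ f (ball 0 1) := fun w hw =>
    (h.der w (by rwa [mem_ball_zero_iff] at hw)).differentiableAt.differentiableWithinAt
  have h2 : ContinuousAt (deriv f) z :=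
    (h1.deriv isOpen_ball).differentiableAt hb |>.continuousAt
  have h3 : ContinuousAt g z := by
    refine h2.congr ?_
    filter_upwards [hb] with y hy
    exact (h.der y (by rwa [mem_ball_zero_iff] at hy)).deriv
  unfold cr
  exact h3.norm.mul (continuousAt_const.sub (continuous_norm.continuousAt.pow 2))

theorem gg_cont {f g : ℂ → ℂ} (h : Par f g) {z w : ℂ} (hz : ‖z‖ < 1) (hw : ‖w‖ < 1)
    (hzw : z ≠ w) : ContinuousAt (fun p : ℂ × ℂ => gg g p.1 p.2) (z, w) := by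
  have c1 := hh_cont hz hw hzw
  have c2 : ContinuousAt (fun p : ℂ × ℂ => cr g p.1) (z, w) :=
    ContinuousAt.comp (f := Prod.fst) (g := cr g) (cr_cont h hz) continuous_fst.continuousAt
  have c3 : ContinuousAt (fun p : ℂ × ℂ => cr g p.2) (z, w) :=
    ContinuousAt.comp (f := Prod.snd) (g := cr g) (cr_cont h hw) continuous_snd.continuousAt
  have p1 := cr_pos h hz
  have p2 := cr_pos h hw
  have c4 : ContinuousAt (fun p : ℂ × ℂ => (cr g p.1 * cr g p.2) ^ (-(5 / 48) : ℝ) * hh p.1 p.2)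
      (z, w) :=
    ((c2.mul c3).rpow_const (Or.inl (mul_pos p1 p2).ne')).mul c1
  have e : (fun p : ℂ × ℂ => gg g p.1 p.2) =
      (fun p : ℂ × ℂ => (cr g p.1 * cr g p.2) ^ (-(5 / 48) : ℝ) * hh p.1 p.2) := by
    funext p
    unfold gg hh
    ring
  rw [e]
  exact c4

theorem gg_pos {f g : ℂ → ℂ} (h : Par f g) {z w : ℂ} (hz : ‖z‖ < 1) (hw : ‖w‖ < 1)
    (hzw : z ≠ w) : 0 < gg g z w := by
  have p1 := cr_pos h hz
  have p2 := cr_pos h hw
  have p3 := hh_pos hz hw hzw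
  rw [gg_hh p1 p2]
  positivity

open Par in
/-- small perturbations -/
theorem near {f g : ℂ → ℂ} (h : Par f g) {z : ℕ → ℂ} {k : ℕ}
    (hz : ∀ i < k, z i ∈ f '' ball 0 1) (hd : ∀ i < k, ∀ j < k, i ≠ j → z i ≠ z j) :
    ∀ᶠ e : ℝ in 𝓝[>] 0, ∀ i ∈ Finset.range k, ∀ j ∈ Finset.range k, i ≠ j → ∀ a b : ℂ,
      ‖a - z i‖ ≤ 2 * e → ‖b - z j‖ ≤ 2 * e →
        a ∈ f '' ball 0 1 ∧ b ∈ f '' ball 0 1 ∧ a ≠ b ∧ e ≤ cr g (iv f a) ∧
        e ≤ cr g (iv f b) ∧ Cmp 2 (gg g (iv f a) (iv f b)) (gg g (iv f (z i)) (iv f (z j))) := by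
  rw [Finset.eventually_all]
  intro i hi
  rw [Finset.eventually_all]
  intro j hj
  rw [Finset.mem_range] at hi hj
  by_cases hij : i = j
  · filter_upwards with e h1
    exact absurd hij h1
  have hne := hd i hi j hj hij
  have mi := hz i hi
  have mj := hz j hj
  have ni := iv_mem mi
  have nj := iv_mem mj
  have hne' : iv f (z i) ≠ iv f (z j) := by
    intro h0
    apply hne
    rw [← f_iv mi, ← f_iv mj, h0]
  have hp := gg_pos h ni nj hne'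
  have ci := h.iv_cont mi
  have cj := h.iv_cont mj
  have pi := cr_pos h ni
  have pj := cr_pos h nj
  have di : ContinuousAt (fun p : ℂ × ℂ => iv f p.1) (z i, z j) :=
    ContinuousAt.comp (f := Prod.fst) (g := iv f) ci continuous_fst.continuousAt
  have dj : ContinuousAt (fun p : ℂ × ℂ => iv f p.2) (z i, z j) :=
    ContinuousAt.comp (f := Prod.snd) (g := iv f) cj continuous_snd.continuousAt
  have c0 : ContinuousAt (fun p : ℂ × ℂ => gg g (iv f p.1) (iv f p.2)) (z i, z j) :=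
    ContinuousAt.comp (f := fun p : ℂ × ℂ => (iv f p.1, iv f p.2))
      (g := fun p : ℂ × ℂ => gg g p.1 p.2) (gg_cont h ni nj hne') (di.prodMk dj)
  have k1 : ContinuousAt (fun p : ℂ × ℂ => cr g (iv f p.1)) (z i, z j) :=
    ContinuousAt.comp (f := fun p : ℂ × ℂ => iv f p.1) (g := cr g) (cr_cont h ni) di
  have k2 : ContinuousAt (fun p : ℂ × ℂ => cr g (iv f p.2)) (z i, z j) :=
    ContinuousAt.comp (f := fun p : ℂ × ℂ => iv f p.2) (g := cr g) (cr_cont h nj) dj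
  have e1 : ∀ᶠ p : ℂ × ℂ in 𝓝 (z i, z j), p.1 ∈ f '' ball 0 1 ∧ p.2 ∈ f '' ball 0 1 ∧
      p.1 ≠ p.2 ∧ cr g (iv f (z i)) / 2 < cr g (iv f p.1) ∧
      cr g (iv f (z j)) / 2 < cr g (iv f p.2) ∧
      Cmp 2 (gg g (iv f p.1) (iv f p.2)) (gg g (iv f (z i)) (iv f (z j))) := by
    have f1 : ∀ᶠ p : ℂ × ℂ in 𝓝 (z i, z j), p.1 ∈ f '' ball 0 1 :=
      continuous_fst.continuousAt.eventually (h.isOpen.mem_nhds mi)
    have f2 : ∀ᶠ p : ℂ × ℂ in 𝓝 (z i, z j), p.2 ∈ f '' ball 0 1 :=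
      continuous_snd.continuousAt.eventually (h.isOpen.mem_nhds mj)
    have f3 : ∀ᶠ p : ℂ × ℂ in 𝓝 (z i, z j), p.1 ≠ p.2 :=
      (isOpen_ne_fun continuous_fst continuous_snd).mem_nhds hne
    have f4 : ∀ᶠ p : ℂ × ℂ in 𝓝 (z i, z j), gg g (iv f p.1) (iv f p.2) <
        2 * gg g (iv f (z i)) (iv f (z j)) :=
      c0.eventually (Iio_mem_nhds (by linarith))
    have f5 : ∀ᶠ p : ℂ × ℂ in 𝓝 (z i, z j), gg g (iv f (z i)) (iv f (z j)) / 2 <
        gg g (iv f p.1) (iv f p.2) :=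
      c0.eventually (Ioi_mem_nhds (by linarith))
    have f6 : ∀ᶠ p : ℂ × ℂ in 𝓝 (z i, z j), cr g (iv f (z i)) / 2 < cr g (iv f p.1) :=
      k1.eventually (Ioi_mem_nhds (by linarith))
    have f7 : ∀ᶠ p : ℂ × ℂ in 𝓝 (z i, z j), cr g (iv f (z j)) / 2 < cr g (iv f p.2) :=
      k2.eventually (Ioi_mem_nhds (by linarith))
    filter_upwards [f1, f2, f3, f4, f5, f6, f7] with p q1 q2 q3 q4 q5 q6 q7
    exact ⟨q1, q2, q3, q6, q7, ⟨by norm_num, by linarith, hp, q4.le, by linarith⟩⟩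
  obtain ⟨δ, hδ, hδ'⟩ := Metric.eventually_nhds_iff.mp e1
  have e2 : ∀ᶠ e : ℝ in 𝓝[>] 0, e < δ / 2 :=
    nhdsWithin_le_nhds (Iio_mem_nhds (half_pos hδ))
  have e3 : ∀ᶠ e : ℝ in 𝓝[>] 0, e < cr g (iv f (z i)) / 2 :=
    nhdsWithin_le_nhds (Iio_mem_nhds (half_pos pi))
  have e4 : ∀ᶠ e : ℝ in 𝓝[>] 0, e < cr g (iv f (z j)) / 2 :=
    nhdsWithin_le_nhds (Iio_mem_nhds (half_pos pj))
  filter_upwards [e2, e3, e4] with e he he3 he4 _ a b ha hb
  have := hδ' (y := (a, b)) (by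
    rw [Prod.dist_eq, max_lt_iff, dist_eq_norm, dist_eq_norm]
    constructor
    · show ‖a - z i‖ < δ
      linarith
    · show ‖b - z j‖ < δ
      linarith)
  obtain ⟨q1, q2, q3, q4, q5, q6⟩ := this
  exact ⟨q1, q2, q3, he3.le.trans q4.le, he4.le.trans q5.le, q6⟩

open Par in
/-- the connection probabilities at small mesh -/
theorem lim {f g : ℂ → ℂ} (h : Par f g) {P : ℝ → Finset (ℤ × ℤ) → ℝ} {C e0 : ℝ} (he0 : 0 < e0)
    (hP : ∀ ε : ℝ, 0 < ε → ε ≤ e0 → ∀ (n : ℕ) (x : ℕ → ℤ × ℤ) (ζ : ℕ → ℂ), 2 ≤ n →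
      (∀ i < n, ‖ζ i‖ < 1 ∧ f (ζ i) = Pool.Agent.Y989.SD.pos ε (x i) ∧ ε ≤ cr g (ζ i)) →
      (∀ i < n, ∀ j < n, i ≠ j → x i ≠ x j) →
        Cmp (C ^ n) (P ε ((Finset.range n).image x)) ((ε ^ (5 / 48 : ℝ)) ^ n * kFun (gg g) ζ n))
    {k : ℕ} (hk : 2 ≤ k) {z : ℕ → ℂ} (hz : ∀ i < k, z i ∈ f '' ball 0 1)
    (hd : ∀ i < k, ∀ j < k, i ≠ j → z i ≠ z j) :
    ∀ᶠ e : ℝ in 𝓝[>] 0, ∀ x : ℕ → ℤ × ℤ,
      (∀ i < k, ‖Pool.Agent.Y989.SD.pos e (x i) - z i‖ ≤ 2 * e) →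
      Cmp ((8 * C) ^ k) (P e ((Finset.range k).image x))
        ((e ^ (5 / 48 : ℝ)) ^ k * kFun (gg g) (fun i => iv f (z i)) k) := by
  have e1 : ∀ᶠ e : ℝ in 𝓝[>] 0, 0 < e := self_mem_nhdsWithin
  have e2 : ∀ᶠ e : ℝ in 𝓝[>] 0, e < e0 := nhdsWithin_le_nhds (Iio_mem_nhds he0)
  filter_upwards [e1, e2, near h hz hd] with e he hee n1 x hx
  have other : ∀ i < k, ∃ j < k, i ≠ j := by
    intro i hi
    by_cases h0 : i = 0
    · exact ⟨1, by omega, by omega⟩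
    · exact ⟨0, by omega, h0⟩
  have hxV : ∀ i < k, Pool.Agent.Y989.SD.pos e (x i) ∈ f '' ball 0 1 ∧
      e ≤ cr g (iv f (Pool.Agent.Y989.SD.pos e (x i))) := by
    intro i hi
    obtain ⟨j, hj, hij⟩ := other i hi
    have := n1 i (Finset.mem_range.mpr hi) j (Finset.mem_range.mpr hj) hij _ _ (hx i hi)
      (hx j hj)
    exact ⟨this.1, this.2.2.2.1⟩
  have hxd : ∀ i < k, ∀ j < k, i ≠ j → x i ≠ x j := by
    intro i hi j hj hij heq
    have := (n1 i (Finset.mem_range.mpr hi) j (Finset.mem_range.mpr hj) hij _ _ (hx i hi)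
      (hx j hj)).2.2.1
    rw [heq] at this
    exact this rfl
  have t1 := hP e he hee.le k x (fun i => iv f (Pool.Agent.Y989.SD.pos e (x i))) hk
    (fun i hi => ⟨iv_mem (hxV i hi).1, f_iv (hxV i hi).1, (hxV i hi).2⟩) hxd
  have c1 := kFun_cmp (g := gg g) (z := fun i => iv f (z i))
    (z' := fun i => iv f (Pool.Agent.Y989.SD.pos e (x i))) hk
    (fun i hi j hj hij => (n1 i (Finset.mem_range.mpr hi) j (Finset.mem_range.mpr hj) hij _ _
      (hx i hi) (hx j hj)).2.2.2.2.2)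
  have a0 : 0 < (e ^ (5 / 48 : ℝ)) ^ k := by positivity
  have r1 := t1.trans ((Cmp.refl a0).mul c1)
  refine r1.weaken (le_of_eq ?_)
  rw [mul_pow]
  ring

theorem kFun_hh_congr {ζ ξ : ℕ → ℂ} {k : ℕ} (hk : 2 ≤ k)
    (h : ∀ i < k, ∀ j < k, i ≠ j → hh (ζ i) (ζ j) = hh (ξ i) (ξ j)) :
    kFun hh ζ k = kFun hh ξ k := by
  have := FIN.kFun_smul (G := hh) (G' := hh) (a := 1) zero_le_one (z := ζ) (z' := ξ) hk
    (fun i hi j hj hij => by rw [h i hi j hj hij]; ring)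
  rw [this, one_pow, one_mul]

open Par in
/-- exact covariance -/
theorem kFun_conf {f g f' g' φ : ℂ → ℂ} (h : Par f g) (h' : Par f' g')
    (hφ : Conf (f '' ball 0 1) (f' '' ball 0 1) φ) {k : ℕ} (hk : 2 ≤ k) {z : ℕ → ℂ}
    (hz : ∀ i < k, z i ∈ f '' ball 0 1) :
    kFun (gg g) (fun i => iv f (z i)) k =
      (∏ i ∈ Finset.range k, ‖deriv φ (z i)‖ ^ (5 / 48 : ℝ)) *
        kFun (gg g') (fun i => iv f' (φ (z i))) k := by
  obtain ⟨c1, c2⟩ := cov h h' hφ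
  have hz' : ∀ i < k, φ (z i) ∈ f' '' ball 0 1 := fun i hi => hφ.2.1 (hz i hi)
  have q : ∀ i < k, cr g' (iv f' (φ (z i))) = ‖deriv φ (z i)‖ * cr g (iv f (z i)) := by
    intro i hi
    have := c1 (iv f (z i)) (iv f' (φ (z i))) (iv_mem (hz i hi)) (iv_mem (hz' i hi))
      (by rw [f_iv (hz i hi), f_iv (hz' i hi)])
    rwa [f_iv (hz i hi)] at this
  rw [kFun_gg h hk (fun i hi => iv_mem (hz i hi)), kFun_gg h' hk (fun i hi => iv_mem (hz' i hi)),
    ← mul_assoc, ← Finset.prod_mul_distrib]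
  have e1 : kFun hh (fun i => iv f' (φ (z i))) k = kFun hh (fun i => iv f (z i)) k := by
    apply kFun_hh_congr hk
    intro i hi j hj _
    have := c2 (iv f (z i)) (iv f (z j)) (iv f' (φ (z i))) (iv f' (φ (z j))) (iv_mem (hz i hi))
      (iv_mem (hz j hj)) (iv_mem (hz' i hi)) (iv_mem (hz' j hj))
      (by rw [f_iv (hz i hi), f_iv (hz' i hi)]) (by rw [f_iv (hz j hj), f_iv (hz' j hj)])
    show hh (iv f' (φ (z i))) (iv f' (φ (z j))) = hh (iv f (z i)) (iv f (z j))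
    unfold hh
    rw [this]
  rw [e1]
  congr 1
  apply Finset.prod_congr rfl
  intro i hi
  rw [Finset.mem_range] at hi
  have p1 := cr_pos h (iv_mem (hz i hi))
  have p2 : 0 < ‖deriv φ (z i)‖ := norm_pos_iff.mpr (hφ.deriv_ne h.isOpen h'.isOpen (hz i hi))
  rw [q i hi, Real.mul_rpow p2.le p1.le, ← mul_assoc, ← Real.rpow_add p2]
  norm_num

end Pool.Agent.NH41.CK.COV
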