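import Pool.Agent.NH41.CK.Stm

/-!
The profile of a Lipschitz height function is regular; elementary lemmas on the height.
-/

set_option autoImplicit false

namespace Pool.Agent.NH41.CK.REG

open Finset H974 H973 Pool.Agent.Y989.SD
open TH976 (sd Reg EH EH_pos sd_comm sd_tri sd_pos)

theorem min_one_div {a n : ℝ} (hn : 0 < n) : min 1 (a / n) = min n a / n := by
  rw [← min_div_div_right hn.le, div_self hn.ne']

theorem key {a b r n : ℝ} (ha : 0 < a) (hb : 0 < b) (hr : 0 < r) (hrn : r ≤ n)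
    (h2 : b ≤ a + r) :
    min 1 (a / r) * min 1 (b / n) ≤ 2 * (min 1 (a / n) * min 1 (b / r)) := by
  have hn : 0 < n := lt_of_lt_of_le hr hrn
  rw [min_one_div hr, min_one_div hn, min_one_div hn, min_one_div hr]
  have e1 : min r a / r * (min n b / n) = (min r a * min n b) / (r * n) := by field_simp
  have e2 : 2 * (min n a / n * (min r b / r)) = (2 * (min n a * min r b)) / (r * n) := by
    field_simp
  rw [e1, e2]
  apply div_le_div_of_nonneg_right _ (by positivity)
  have m1 : min n b ≤ b := min_le_right _ _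
  have m2 : min n b ≤ n := min_le_left _ _
  have m0 : 0 < min n b := lt_min hn hb
  rcases le_total n a with h | h
  · rw [min_eq_left (hrn.trans h), min_eq_left h]
    rcases le_total r b with h' | h'
    · rw [min_eq_left h']
      nlinarith
    · rw [min_eq_right h']
      nlinarith
  · rw [min_eq_right h]
    rcases le_total r a with h3 | h3
    · rw [min_eq_left h3]
      rcases le_total r b with h' | h'
      · rw [min_eq_left h']
        nlinarith
      · rw [min_eq_right h']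
        nlinarith
    · rw [min_eq_right h3]
      rcases le_total r b with h' | h'
      · rw [min_eq_left h']
        nlinarith
      · rw [min_eq_right h']
        nlinarith

theorem EH_one (s : ℕ) (hs : 1 ≤ s) : EH s (1 : ℕ) = 1 := by
  unfold TH976.EH
  have h1 : (1 : ℝ) ≤ s := by exact_mod_cast hs
  rw [Nat.cast_one, Real.one_rpow, div_one, min_eq_left h1, Real.one_rpow, one_mul]

theorem EH_anti {s n m : ℝ} (hs : 0 < s) (hn : 0 < n) (hnm : n ≤ m) : EH s m ≤ EH s n := by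
  unfold TH976.EH
  have hm : 0 < m := lt_of_lt_of_le hn hnm
  have h1 : m ^ (-(5 / 48 : ℝ)) ≤ n ^ (-(5 / 48 : ℝ)) :=
    Real.rpow_le_rpow_of_nonpos hn hnm (by norm_num)
  have h2 : min 1 (s / m) ≤ min 1 (s / n) :=
    min_le_min (le_refl _) (div_le_div_of_nonneg_left hs.le hn hnm)
  have h3 : 0 < min 1 (s / m) := lt_min one_pos (by positivity)
  exact mul_le_mul h1 (Real.rpow_le_rpow h3.le h2 (by norm_num)) (by positivity) (by positivity)

theorem EH_dbl {s n : ℝ} (hs : 0 < s) (hn : 0 < n) : EH s n ≤ 3 * EH s (3 * n) := by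
  unfold TH976.EH
  set x := min 1 (s / n) with hx
  have hx0 : 0 < x := lt_min one_pos (by positivity)
  have h1 : (1 / 3 : ℝ) * x ≤ min 1 (s / (3 * n)) := by
    apply le_min
    · have := min_le_left 1 (s / n)
      linarith
    · have := min_le_right 1 (s / n)
      have e : s / (3 * n) = 1 / 3 * (s / n) := by field_simp
      rw [e]
      linarith
  have h2 : ((1 / 3 : ℝ) * x) ^ (11 / 48 : ℝ) ≤ (min 1 (s / (3 * n))) ^ (11 / 48 : ℝ) :=
    Real.rpow_le_rpow (by positivity) h1 (by norm_num)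
  rw [Real.mul_rpow (by norm_num) hx0.le] at h2
  have h3 : (3 * n) ^ (-(5 / 48 : ℝ)) = (1 / 3 : ℝ) ^ (5 / 48 : ℝ) * n ^ (-(5 / 48 : ℝ)) := by
    rw [Real.mul_rpow (by norm_num) hn.le]
    congr 1
    rw [one_div, Real.inv_rpow (by norm_num), Real.rpow_neg (by norm_num)]
  have h4 : (1 / 3 : ℝ) ≤ (1 / 3 : ℝ) ^ (5 / 48 : ℝ) * (1 / 3 : ℝ) ^ (11 / 48 : ℝ) := by
    rw [← Real.rpow_add (by norm_num)]
    calc (1 / 3 : ℝ) = (1 / 3 : ℝ) ^ (1 : ℝ) := (Real.rpow_one _).symm
      _ ≤ _ := Real.rpow_le_rpow_of_exponent_ge (by norm_num) (by norm_num) (by norm_num)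
  rw [h3]
  set A := n ^ (-(5 / 48 : ℝ)) with hA
  have hA0 : 0 < A := by positivity
  set Y := x ^ (11 / 48 : ℝ) with hY
  have hY0 : 0 < Y := by positivity
  calc A * Y = 3 * ((1 / 3) * (A * Y)) := by ring
    _ ≤ 3 * (((1 / 3 : ℝ) ^ (5 / 48 : ℝ) * (1 / 3 : ℝ) ^ (11 / 48 : ℝ)) * (A * Y)) := by
        apply mul_le_mul_of_nonneg_left _ (by norm_num)
        exact mul_le_mul_of_nonneg_right h4 (by positivity)
    _ = 3 * ((1 / 3 : ℝ) ^ (5 / 48 : ℝ) * A * ((1 / 3 : ℝ) ^ (11 / 48 : ℝ) * Y)) := by ring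
    _ ≤ _ := by
        apply mul_le_mul_of_nonneg_left _ (by norm_num)
        exact mul_le_mul_of_nonneg_left h2 (by positivity)

theorem EH_rat {a b r n : ℝ} (ha : 0 < a) (hb : 0 < b) (hr : 0 < r) (hrn : r ≤ n)
    (h2 : b ≤ a + r) : EH a r * EH b n ≤ 3 * (EH a n * EH b r) := by
  have hn : 0 < n := lt_of_lt_of_le hr hrn
  have hk := key ha hb hr hrn h2
  unfold TH976.EH
  have p1 : 0 < min 1 (a / r) := lt_min one_pos (by positivity)
  have p2 : 0 < min 1 (b / n) := lt_min one_pos (by positivity)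
  have p3 : 0 < min 1 (a / n) := lt_min one_pos (by positivity)
  have p4 : 0 < min 1 (b / r) := lt_min one_pos (by positivity)
  have h5 := Real.rpow_le_rpow (by positivity) hk (by norm_num : (0 : ℝ) ≤ 11 / 48)
  rw [Real.mul_rpow p1.le p2.le, Real.mul_rpow (by norm_num) (by positivity),
    Real.mul_rpow p3.le p4.le] at h5
  have h6 : (2 : ℝ) ^ (11 / 48 : ℝ) ≤ 2 := by
    calc (2 : ℝ) ^ (11 / 48 : ℝ) ≤ (2 : ℝ) ^ (1 : ℝ) :=
          Real.rpow_le_rpow_of_exponent_le (by norm_num) (by norm_num)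
      _ = 2 := Real.rpow_one 2
  generalize (min 1 (a / r)) ^ (11 / 48 : ℝ) = A1 at *
  generalize (min 1 (b / n)) ^ (11 / 48 : ℝ) = A2 at *
  have q3 : 0 < (min 1 (a / n)) ^ (11 / 48 : ℝ) := by positivity
  have q4 : 0 < (min 1 (b / r)) ^ (11 / 48 : ℝ) := by positivity
  generalize (min 1 (a / n)) ^ (11 / 48 : ℝ) = A3 at *
  generalize (min 1 (b / r)) ^ (11 / 48 : ℝ) = A4 at *
  have r1 : 0 < r ^ (-(5 / 48 : ℝ)) := by positivity
  have r2 : 0 < n ^ (-(5 / 48 : ℝ)) := by positivity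
  generalize r ^ (-(5 / 48 : ℝ)) = B1 at *
  generalize n ^ (-(5 / 48 : ℝ)) = B2 at *
  have h7 : A1 * A2 ≤ 3 * (A3 * A4) := by
    have : (2 : ℝ) ^ (11 / 48 : ℝ) * (A3 * A4) ≤ 3 * (A3 * A4) :=
      mul_le_mul_of_nonneg_right (by linarith) (by positivity)
    linarith
  calc B1 * A1 * (B2 * A2) = (B1 * B2) * (A1 * A2) := by ring
    _ ≤ (B1 * B2) * (3 * (A3 * A4)) := mul_le_mul_of_nonneg_left h7 (by positivity)
    _ = _ := by ring

/-- **The profile of a height function which is Lipschitz is regular.** -/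
theorem t_REG : S_REG := by
  refine ⟨3, fun D s hs hl => ⟨by norm_num, ?_, ?_, ?_, ?_⟩⟩
  · intro v hv n hn
    have h1 := hs v hv
    exact EH_pos (by exact_mod_cast hn) (by exact_mod_cast h1)
  · intro v hv n m hn hnm
    have h1 := hs v hv
    have hs' : (0 : ℝ) < s v := by exact_mod_cast h1
    have hn' : (0 : ℝ) < n := by exact_mod_cast hn
    have hm' : (0 : ℝ) < m := by exact_mod_cast (hn.trans hnm)
    have h2 := EH_anti hs' hn' (by exact_mod_cast hnm : (n : ℝ) ≤ m)
    have h3 := EH_pos hn' hs'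
    linarith
  · intro v hv n hn
    have h1 := hs v hv
    have h2 := EH_dbl (s := s v) (n := n) (by exact_mod_cast h1) (by exact_mod_cast hn)
    push_cast
    exact h2
  · intro u hu v hv r n h1 h2 h3
    have hu1 := hs u hu
    have hv1 := hs v hv
    have h4 : s v ≤ s u + r := by
      have := hl v hv u hu
      rw [sd_comm] at this
      omega
    exact EH_rat (by exact_mod_cast hu1) (by exact_mod_cast hv1) (by exact_mod_cast h2)
      (by exact_mod_cast h3) (by exact_mod_cast h4)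

/-! ### The height -/

theorem hgt_le {T : Finset Vtx} {x y : Vtx} (hy : y ∉ T) : hgt T x ≤ sd x y :=
  Nat.sInf_le ⟨y, hy, rfl⟩

theorem hgt_mem (T : Finset Vtx) (x : Vtx) : ∃ y : Vtx, y ∉ T ∧ sd x y = hgt T x := by
  have h : {d : ℕ | ∃ y : Vtx, y ∉ T ∧ sd x y = d}.Nonempty := by
    obtain ⟨y, hy⟩ := Infinite.exists_notMem_finset T
    exact ⟨sd x y, y, hy, rfl⟩
  exact Nat.sInf_mem h

theorem hgt_lip (T : Finset Vtx) (u v : Vtx) : hgt T u ≤ hgt T v + sd u v := by
  obtain ⟨y, hy, h⟩ := hgt_mem T v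
  have h1 := hgt_le (x := u) hy
  have h2 := sd_tri u v y
  omega

theorem hgt_pos {T : Finset Vtx} {x : Vtx} (hx : x ∈ T) : 1 ≤ hgt T x := by
  obtain ⟨y, hy, h⟩ := hgt_mem T x
  rw [← h]
  apply sd_pos
  rintro rfl
  exact hy hx

theorem hgt_ball {T : Finset Vtx} {x : Vtx} {n : ℕ} (hn : n < hgt T x) : BX x n ⊆ T := by
  intro y hy
  by_contra hcon
  have h1 := hgt_le (x := x) hcon
  rw [mem_BX] at hy
  have h2 : sd x y ≤ n := by
    unfold TH976.sd
    omega
  omega

theorem btT_aux {T : Finset Vtx} {x : Vtx} (hx : x ∈ T) (m : ℕ) : ∀ (N : ℕ) (y : Vtx),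
    (y.1 - x.1).natAbs + (y.2 - x.2).natAbs = N → y ∉ T → sd x y ≤ m →
    ∃ u, btT T u ∧ sd x u ≤ m := by
  intro N
  induction N with
  | zero =>
    intro y h hy _
    exfalso
    apply hy
    have : y = x := Prod.ext (by omega) (by omega)
    rw [this]
    exact hx
  | succ N ih =>
    intro y h hy hm
    obtain ⟨y1, y2⟩ := y
    obtain ⟨x1, x2⟩ := x
    unfold TH976.sd at hm
    simp only at h hm
    have step : ∀ z1 z2 : ℤ, (z1 - x1).natAbs + (z2 - x2).natAbs = N →
        max (x1 - z1).natAbs (x2 - z2).natAbs ≤ m →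
        ((z1 + 1, z2) ∉ T ∨ (z1 - 1, z2) ∉ T ∨ (z1, z2 + 1) ∉ T ∨ (z1, z2 - 1) ∉ T) →
        ∃ u, btT T u ∧ sd (x1, x2) u ≤ m := by
      intro z1 z2 hz1 hz2 hz3
      by_cases hz : (z1, z2) ∈ T
      · exact ⟨(z1, z2), ⟨hz, hz3⟩, hz2⟩
      · exact ih (z1, z2) hz1 hz hz2
    rcases lt_trichotomy x1 y1 with h1 | h1 | h1
    · refine step (y1 - 1) y2 (by omega) (by omega) (Or.inl ?_)
      rw [sub_add_cancel]
      exact hy
    · rcases lt_trichotomy x2 y2 with h2 | h2 | h2
      · refine step y1 (y2 - 1) (by omega) (by omega) (Or.inr (Or.inr (Or.inl ?_)))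
        rw [sub_add_cancel]
        exact hy
      · omega
      · refine step y1 (y2 + 1) (by omega) (by omega) (Or.inr (Or.inr (Or.inr ?_)))
        rw [add_sub_cancel_right]
        exact hy
    · refine step (y1 + 1) y2 (by omega) (by omega) (Or.inr (Or.inl ?_))
      rw [add_sub_cancel_right]
      exact hy

theorem hgt_btT {T : Finset Vtx} {x : Vtx} (hx : x ∈ T) : ∃ u, btT T u ∧ sd x u ≤ hgt T x := by
  obtain ⟨y, hy, h⟩ := hgt_mem T x
  exact btT_aux hx (hgt T x) _ y rfl hy h.le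

end Pool.Agent.NH41.CK.REG
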