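import Pool.Agent.NH41.CK.LOC
import Pool.Agent.NH41.CK.REG

/-!
Project CK (helper41): adding a point to a connected set of vertices of the lattice domain.
-/

set_option autoImplicit false

namespace Pool.Agent.NH41.CK.GOOD

open H974 H973 Finset Pool.Agent.Y989.SD
open TH976 (sd sd_self sd_comm sd_tri sd_pos Ar Cmp EH fkg incr_and Reg Good PD Near Diam)
open Pool.Agent.NH41.CK.HG Pool.Agent.NH41.CK.BLK Pool.Agent.NH41.CK.LOC
open Pool.Agent.H160R2.CV (P)
open Pool.Agent.H160R2.CV.Quad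
open H362P (Cn Cn_insert Cn_incr hit_or)

/-! ### removing wired edges -/

theorem unwire_in {T : Finset Vtx} {F : Finset Edg} (hF : F ⊆ ES T) {c : Vtx} {r R : ℕ}
    (h : HB T c r R F) {A : Set Edg}
    (hA : ∀ e ∈ A, (src e ∈ T ∧ sd (src e) c ≤ r) ∧ (tgt e ∈ T ∧ sd (tgt e) c ≤ r))
    {u v : Vtx} (hu : R ≤ sd u c) (hv : R ≤ sd v c) (hr : Reach (↑F ∪ A) u v) :
    Reach (↑F : Set Edg) u v := by
  obtain ⟨z, -, hz⟩ := h
  have key : ∀ u v : Vtx, R ≤ sd u c → Reach (↑F ∪ A) u v →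
      Reach (↑F : Set Edg) u v ∨ Reach (↑F : Set Edg) u z := by
    intro u v hu hr
    rcases hit_or (T := fun w => w ∈ T ∧ sd w c ≤ r) hA hr with h1 | ⟨w, h1, h2⟩
    · exact Or.inl h1
    · exact Or.inr (h2.trans (HB_meet hF hz h1.1 h1.2 hu h2.symm))
  rcases key u v hu hr with h1 | h1
  · exact h1
  · rcases key v u hv hr.symm with h2 | h2
    · exact h2.symm
    · exact h1.trans h2.symm

theorem unwire_out {T : Finset Vtx} {F : Finset Edg} (hF : F ⊆ ES T) {c : Vtx} {r R : ℕ}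
    (h : HB T c r R F) {A : Set Edg}
    (hA : ∀ e ∈ A, (src e ∈ T ∧ R ≤ sd (src e) c) ∧ (tgt e ∈ T ∧ R ≤ sd (tgt e) c))
    {u v : Vtx} (hu1 : u ∈ T) (hv1 : v ∈ T) (hu : sd u c ≤ r) (hv : sd v c ≤ r)
    (hr : Reach (↑F ∪ A) u v) : Reach (↑F : Set Edg) u v := by
  obtain ⟨z, -, hz⟩ := h
  have key : ∀ u v : Vtx, u ∈ T → sd u c ≤ r → Reach (↑F ∪ A) u v →
      Reach (↑F : Set Edg) u v ∨ Reach (↑F : Set Edg) u z := by
    intro u v hu1 hu hr
    rcases hit_or (T := fun w => w ∈ T ∧ R ≤ sd w c) hA hr with h1 | ⟨w, h1, h2⟩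
    · exact Or.inl h1
    · exact Or.inr (HB_meet hF hz hu1 hu h1.2 h2)
  rcases key u v hu1 hu hr with h1 | h1
  · exact h1
  · rcases key v u hv1 hv hr.symm with h2 | h2
    · exact h2.symm
    · exact h1.trans h2.symm

/-! ### upper bounds -/

/-- decoupling the neighbourhood of the new point -/
theorem upper1 {T X : Finset Vtx} {x y : Vtx} {r R : ℕ} (hy : y ∈ X)
    (hxy : r ≤ sd y x) (hX : ∀ u ∈ X, R ≤ sd u x) {c : ℝ}
    (hc : c ≤ Pr P (ES T) (HB T x r R)) :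
    c * Pr P (ES T) (fun F => Cn (insert x X) (↑F)) ≤
      aT T x r * Pr P (ES T) (fun F => Cn X (↑F)) := by
  classical
  set B := qT T x r with hB
  set S2 := ES T \ B with hS2
  set E : Finset Edg → Prop := fun F => Cn X (↑(F ∩ S2) ∪ ↑B) with hE
  have hEi : IncA E := by
    intro F G h hF
    refine H362P.Cn.mono (Set.union_subset_union_left _ ?_) hF
    exact_mod_cast Finset.inter_subset_inter_right h
  have hEl : LocE S2 E := by
    intro F
    rw [hE]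
    simp only [Finset.inter_assoc, Finset.inter_self]
  have hd : Disjoint B S2 := by rw [hS2]; exact Finset.disjoint_sdiff
  have s1 : Pr P (ES T) (fun F => Cn (insert x X) (↑F)) ≤
      Pr P (ES T) (fun F => ArL T x r F ∧ E F) := by
    apply Pr_mono okP
    intro F hFS hF
    refine ⟨ArL_of hFS le_rfl ⟨y, hxy,
      hF x (Finset.mem_insert_self _ _) y (Finset.mem_insert_of_mem hy)⟩, ?_⟩
    intro u hu v hv
    refine (hF u (Finset.mem_insert_of_mem hu) v (Finset.mem_insert_of_mem hv)).mono ?_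
    intro e he
    by_cases h1 : e ∈ B
    · exact Or.inr (by exact_mod_cast h1)
    · left
      rw [Finset.mem_coe, Finset.mem_inter, hS2, Finset.mem_sdiff]
      exact ⟨Finset.mem_coe.mp he, hFS (Finset.mem_coe.mp he), h1⟩
  have s2 := indep2 (ES T) B S2 hd (ArL_inc T x r) hEi (ArL_loc T x r) hEl
  have s4 : Pr P S2 E ≤ Pr P (ES T) E :=
    Pr_mono_set okP Finset.sdiff_subset (fun F G h _ => hEi F G h)
  have s5 : Pr P (ES T) E * Pr P (ES T) (HB T x r R) ≤ Pr P (ES T) (fun F => Cn X (↑F)) := by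
    refine (Pr_harris okP (fun F G h _ => hEi F G h) (HB_incr _ T x r R)).trans ?_
    apply Pr_mono okP
    rintro F hFS ⟨h1, h2⟩
    intro u hu v hv
    refine unwire_in hFS h2 (A := ↑B) ?_ (hX u hu) (hX v hv) ?_
    · intro e he
      rw [Finset.mem_coe, hB, qT, Finset.mem_inter, mem_ES] at he
      have := bo_ends he.2
      exact ⟨⟨he.1.1, this.1⟩, he.1.2, this.2⟩
    · refine (h1 u hu v hv).mono (Set.union_subset_union_left _ ?_)
      exact_mod_cast Finset.inter_subset_left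
  have p0 : 0 ≤ Pr P (ES T) E := Pr_nonneg okP _ _
  have p2 : 0 ≤ Pr P S2 E := Pr_nonneg okP _ _
  have p1 : 0 ≤ aT T x r := aT_nonneg T x r
  have p3 : 0 ≤ Pr P (ES T) (fun F => Cn X (↑F)) := Pr_nonneg okP _ _
  rcases le_total c 0 with h0 | h0
  · exact (mul_nonpos_of_nonpos_of_nonneg h0 (Pr_nonneg okP _ _)).trans (mul_nonneg p1 p3)
  have s6 : c * Pr P (ES T) E ≤ Pr P (ES T) (fun F => Cn X (↑F)) := by
    rw [mul_comm]
    exact (mul_le_mul_of_nonneg_left hc p0).trans s5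
  calc c * Pr P (ES T) (fun F => Cn (insert x X) (↑F)) ≤ c * (aT T x r * Pr P S2 E) :=
        mul_le_mul_of_nonneg_left (s1.trans (s2.trans
          (mul_le_mul_of_nonneg_right (pr_ArL T x r) p2))) h0
    _ = aT T x r * (c * Pr P S2 E) := by ring
    _ ≤ aT T x r * (c * Pr P (ES T) E) := by
        apply mul_le_mul_of_nonneg_left _ p1
        exact mul_le_mul_of_nonneg_left s4 h0
    _ ≤ _ := mul_le_mul_of_nonneg_left s6 p1

/-- the new point is far from the others -/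
theorem upper2 {T X : Finset Vtx} (hXT : ∀ u ∈ X, u ∈ T) {x y : Vtx} {n r R : ℕ}
    (hy : y ∈ X) (hxy : 2 * n + 1 ≤ sd x y) (hR : r ≤ R) (hRn : R ≤ n) (hX : ∀ u ∈ X, sd u y ≤ r)
    {c : ℝ} (hc : c ≤ Pr P (ES T) (HB T y r R)) :
    c * Pr P (ES T) (fun F => Cn (insert x X) (↑F)) ≤
      aT T x n * (bT T y R n * Pr P (ES T) (fun F => Cn X (↑F))) := by
  classical
  have hyT := hXT y hy
  set B := qT T y R with hB
  set A2 := qT T y n \ B with hA2
  set O : Set Edg := {e | e ∈ ES T ∧ e ∉ B} with hO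
  set E : Finset Edg → Prop := fun F => Cn X (↑(F ∩ B) ∪ O) with hE
  have hEi : IncA E := by
    intro F G h hF
    refine H362P.Cn.mono (Set.union_subset_union_left _ ?_) hF
    exact_mod_cast Finset.inter_subset_inter_right h
  have hEl : LocE B E := by
    intro F
    rw [hE]
    simp only [Finset.inter_assoc, Finset.inter_self]
  have hCi : IncA (CxL T y R n) := CxL_inc _ _ _ _
  have hCl : LocE A2 (CxL T y R n) := CxL_loc _ _ _ _
  have hd2 : Disjoint B A2 := by rw [hA2]; exact Finset.disjoint_sdiff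
  have hBn : B ⊆ qT T y n := Finset.inter_subset_inter_left (bo_mono hRn)
  have hd1 : Disjoint (qT T x n) (B ∪ A2) := by
    have h1 : B ∪ A2 ⊆ qT T y n := Finset.union_subset hBn (by rw [hA2]; exact Finset.sdiff_subset)
    refine Finset.disjoint_of_subset_right h1 ?_
    exact Finset.disjoint_of_subset_left Finset.inter_subset_right
      (Finset.disjoint_of_subset_right Finset.inter_subset_right (bo_disj' (by omega)))
  have hBi : IncA (fun F => E F ∧ CxL T y R n F) :=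
    fun F G h hF => ⟨hEi F G h hF.1, hCi F G h hF.2⟩
  have hBl : LocE (B ∪ A2) (fun F => E F ∧ CxL T y R n F) := by
    intro F
    show (E F ∧ CxL T y R n F) ↔ (E (F ∩ (B ∪ A2)) ∧ CxL T y R n (F ∩ (B ∪ A2)))
    rw [hEl F, hCl F, hEl (F ∩ (B ∪ A2)), hCl (F ∩ (B ∪ A2))]
    have e1 : F ∩ (B ∪ A2) ∩ B = F ∩ B := by
      ext e; simp only [Finset.mem_inter, Finset.mem_union]; tauto
    have e2 : F ∩ (B ∪ A2) ∩ A2 = F ∩ A2 := by
      ext e; simp only [Finset.mem_inter, Finset.mem_union]; tauto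
    rw [e1, e2]
  have s1 : Pr P (ES T) (fun F => Cn (insert x X) (↑F)) ≤
      Pr P (ES T) (fun F => ArL T x n F ∧ (E F ∧ CxL T y R n F)) := by
    apply Pr_mono okP
    intro F hFS hF
    have hxy' : Reach (↑F : Set Edg) x y :=
      hF x (Finset.mem_insert_self _ _) y (Finset.mem_insert_of_mem hy)
    refine ⟨ArL_of hFS le_rfl ⟨y, by rw [sd_comm]; omega, hxy'⟩, ?_, ?_⟩
    · intro u hu v hv
      refine (hF u (Finset.mem_insert_of_mem hu) v (Finset.mem_insert_of_mem hv)).mono ?_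
      intro e he
      by_cases h1 : e ∈ B
      · left
        rw [Finset.mem_coe, Finset.mem_inter]
        exact ⟨Finset.mem_coe.mp he, h1⟩
      · exact Or.inr ⟨hFS (Finset.mem_coe.mp he), h1⟩
    · exact CxL_of hFS hRn ⟨y, x, hyT, by rw [sd_self]; omega, by omega, hxy'.symm⟩
  have s2 := indep2 (ES T) (qT T x n) (B ∪ A2) hd1 (ArL_inc T x n) hBi (ArL_loc T x n) hBl
  have s2' := indep2 (B ∪ A2) B A2 hd2 hEi hCi hEl hCl
  have s3 : Pr P A2 (CxL T y R n) ≤ bT T y R n := pr_CxL T y R n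
  have s4 : Pr P B E ≤ Pr P (ES T) E := Pr_mono_set okP qT_ES (fun F G h _ => hEi F G h)
  have s5 : Pr P (ES T) E * Pr P (ES T) (HB T y r R) ≤ Pr P (ES T) (fun F => Cn X (↑F)) := by
    refine (Pr_harris okP (fun F G h _ => hEi F G h) (HB_incr _ T y r R)).trans ?_
    apply Pr_mono okP
    rintro F hFS ⟨h1, h2⟩
    intro u hu v hv
    refine unwire_out hFS h2 (A := O) ?_ (hXT u hu) (hXT v hv) (hX u hu) (hX v hv) ?_
    · rintro e ⟨he1, he2⟩
      have h3 : e ∉ bo y R := fun h => he2 (by rw [hB, qT]; exact Finset.mem_inter.mpr ⟨he1, h⟩)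
      have h4 := bo_ends' h3
      rw [mem_ES] at he1
      exact ⟨⟨he1.1, h4.1⟩, he1.2, h4.2⟩
    · refine (h1 u hu v hv).mono (Set.union_subset_union_left _ ?_)
      exact_mod_cast Finset.inter_subset_left
  have p0 : 0 ≤ Pr P (ES T) E := Pr_nonneg okP _ _
  have p00 : 0 ≤ Pr P B E := Pr_nonneg okP _ _
  have p1 : 0 ≤ aT T x n := aT_nonneg T x n
  have p2 : 0 ≤ bT T y R n := bT_nonneg _ _ _ _
  have p3 : 0 ≤ Pr P A2 (CxL T y R n) := Pr_nonneg okP _ _
  have p4 : 0 ≤ Pr P (ES T) (fun F => Cn X (↑F)) := Pr_nonneg okP _ _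
  rcases le_total c 0 with h0 | h0
  · exact (mul_nonpos_of_nonpos_of_nonneg h0 (Pr_nonneg okP _ _)).trans
      (mul_nonneg p1 (mul_nonneg p2 p4))
  have s6 : c * Pr P (ES T) E ≤ Pr P (ES T) (fun F => Cn X (↑F)) := by
    rw [mul_comm]
    exact (mul_le_mul_of_nonneg_left hc p0).trans s5
  have s7 : Pr P (ES T) (fun F => Cn (insert x X) (↑F)) ≤
      aT T x n * (Pr P (ES T) E * bT T y R n) := by
    refine (s1.trans s2).trans (mul_le_mul (pr_ArL T x n) ?_ (Pr_nonneg okP _ _) p1)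
    exact s2'.trans (mul_le_mul s4 s3 p3 p0)
  calc c * Pr P (ES T) (fun F => Cn (insert x X) (↑F))
      ≤ c * (aT T x n * (Pr P (ES T) E * bT T y R n)) := mul_le_mul_of_nonneg_left s7 h0
    _ = aT T x n * (bT T y R n * (c * Pr P (ES T) E)) := by ring
    _ ≤ _ := by
        apply mul_le_mul_of_nonneg_left _ p1
        exact mul_le_mul_of_nonneg_left s6 p2

theorem bT_le {T : Finset Vtx} {y : Vtx} (hy : y ∈ T) {r R n : ℕ} (hrR : r ≤ R) (hn : R ≤ n)
    {c : ℝ} (hc0 : 0 ≤ c) (hc : c ≤ Pr P (ES T) (HB T y r R)) :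
    c * (aT T y R * bT T y r n) ≤ aT T y n := by
  have q1 := fkg (HB_incr (ES T) T y r R) (Ar_incr (ES T) y R) (aT_nonneg T y R) hc le_rfl
  have q2 := fkg (incr_and (HB_incr (ES T) T y r R) (Ar_incr (ES T) y R)) (Cx_incr (ES T) T y r n)
    (bT_nonneg T y r n) q1 le_rfl
  calc c * (aT T y R * bT T y r n) = c * aT T y R * bT T y r n := by ring
    _ ≤ _ := q2
    _ ≤ aT T y n := by
      apply Pr_mono okP
      rintro F hF ⟨⟨⟨z, -, hz⟩, ⟨v, hv, hyv⟩⟩, ⟨u, w, hu, hu1, hw, huw⟩⟩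
      have m1 := HB_meet hF hz hy (by rw [sd_self]; omega) hv hyv
      have m2 := HB_meet hF hz hu hu1 (hn.trans hw) huw
      exact ⟨w, hw, (m1.trans m2.symm).trans huw⟩

/-! ### lower bounds -/

theorem LB_incr (S : Finset Edg) (T : Finset Vtx) (x y : Vtx) (r R : ℕ) :
    IncrE S (LB T x y r R) := by
  rintro F G hFG - ⟨z, h1, h2, h2'⟩
  have h3 : ∀ y, (y ∈ T ∧ ¬ Reach (G : Set Edg) z y) → (y ∈ T ∧ ¬ Reach (F : Set Edg) z y) :=
    fun y hy => ⟨hy.1, fun h2 => hy.2 (h2.mono (by exact_mod_cast hFG))⟩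
  have h4 : EV (fun y => y ∈ T ∧ ¬ Reach (G : Set Edg) z y) ⊆
      EV (fun y => y ∈ T ∧ ¬ Reach (F : Set Edg) z y) := by
    rintro e ⟨he1, he2⟩
    exact ⟨h3 _ he1, h3 _ he2⟩
  exact ⟨z, h1, fun u hu hA w hw hB hr => h2 u hu hA w hw hB (hr.mono h4),
    fun u hu hA w hw hB hr => h2' u hu hA w hw hB (hr.mono h4)⟩

theorem lower1 {T X : Finset Vtx} {x y : Vtx} (hx : x ∈ T) (hyT : y ∈ T) (hy : y ∈ X) {s R : ℕ}
    {c : ℝ} (hc : c ≤ Pr P (ES T) (LB T x y s R)) :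
    c * (aT T x R * aT T y R) * Pr P (ES T) (fun F => Cn X (↑F)) ≤
      Pr P (ES T) (fun F => Cn (insert x X) (↑F)) := by
  have p0 : 0 ≤ Pr P (ES T) (fun F => Cn X (↑F)) := Pr_nonneg okP _ _
  have n0 := LB_incr (ES T) T x y s R
  have n1 := Ar_incr (ES T) x R
  have n2 := Ar_incr (ES T) y R
  have i1 := fkg n0 n1 (aT_nonneg T x R) hc le_rfl
  have i2 := fkg (incr_and n0 n1) n2 (aT_nonneg T y R) i1 le_rfl
  have i3 := fkg (incr_and (incr_and n0 n1) n2) (Cn_incr (ES T) X) p0 i2 le_rfl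
  calc c * (aT T x R * aT T y R) * Pr P (ES T) (fun F => Cn X (↑F))
      = c * aT T x R * aT T y R * Pr P (ES T) (fun F => Cn X (↑F)) := by ring
    _ ≤ _ := i3
    _ ≤ _ := by
      apply Pr_mono okP
      rintro F hFS ⟨⟨⟨⟨z, -, h1, h2⟩, u, hu, hxu⟩, v, hv, hyv⟩, k5⟩
      have m1 := HB_meet hFS h1 hx (by rw [sd_self]; omega) hu hxu
      have m2 := HB_meet hFS h2 hyT (by rw [sd_self]; omega) hv hyv
      exact Cn_insert k5 hy (m1.trans m2.symm)

theorem lower2 {T X : Finset Vtx} {x y z0 : Vtx} (hx : x ∈ T) (hyT : y ∈ T) (hy : y ∈ X)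
    (hz0 : z0 ∈ X) {s R q Q : ℕ} (hqs : q ≤ s) (hQR : Q ≤ R) (hfar : Q ≤ sd z0 y)
    {c c' : ℝ} (hc' : 0 ≤ c') (hc : c ≤ Pr P (ES T) (LB T x y s R))
    (hc2 : c' ≤ Pr P (ES T) (HB T y q Q)) :
    c * c' * (aT T x R * bT T y q R) * Pr P (ES T) (fun F => Cn X (↑F)) ≤
      Pr P (ES T) (fun F => Cn (insert x X) (↑F)) := by
  have p0 : 0 ≤ Pr P (ES T) (fun F => Cn X (↑F)) := Pr_nonneg okP _ _
  have n0 := LB_incr (ES T) T x y s R
  have n1 := HB_incr (ES T) T y q Q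
  have n2 := Ar_incr (ES T) x R
  have n3 := Cx_incr (ES T) T y q R
  have i1 := fkg n0 n1 hc' hc hc2
  have i2 := fkg (incr_and n0 n1) n2 (aT_nonneg T x R) i1 le_rfl
  have i3 := fkg (incr_and (incr_and n0 n1) n2) n3 (bT_nonneg T y q R) i2 le_rfl
  have i4 := fkg (incr_and (incr_and (incr_and n0 n1) n2) n3) (Cn_incr (ES T) X) p0 i3 le_rfl
  calc c * c' * (aT T x R * bT T y q R) * Pr P (ES T) (fun F => Cn X (↑F))
      = c * c' * aT T x R * bT T y q R * Pr P (ES T) (fun F => Cn X (↑F)) := by ring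
    _ ≤ _ := i4
    _ ≤ _ := by
      apply Pr_mono okP
      rintro F hFS ⟨⟨⟨⟨⟨z, -, h1, h2⟩, ⟨z', -, h3⟩⟩, ⟨t, ht, hxt⟩⟩, ⟨u, w, huT, hu, hw, huw⟩⟩, k5⟩
      have m1 := HB_meet hFS h1 hx (by rw [sd_self]; omega) ht hxt
      have m2 := HB_meet hFS h2 huT (by omega) hw huw
      have m3 := HB_meet hFS h3 huT hu (by omega) huw
      have m4 := HB_meet hFS h3 hyT (by rw [sd_self]; omega) hfar (k5 y hy z0 hz0)
      exact Cn_insert k5 hy ((m1.trans m2.symm).trans (m3.trans m4.symm))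

/-! ### the profile -/

theorem dbl_pow {D : Set Vtx} {e : Vtx → ℕ → ℝ} {k : ℝ} (h : Reg D e k) {v : Vtx} (hv : v ∈ D)
    {n : ℕ} (hn : 1 ≤ n) (j : ℕ) : e v n ≤ k ^ j * e v (3 ^ j * n) := by
  have k0 : 0 < k := lt_of_lt_of_le one_pos h.hk
  induction j with
  | zero => simp
  | succ j ih =>
    have h1 := h.dbl v hv (3 ^ j * n) (Nat.mul_pos (pow_pos (by norm_num) j) hn)
    calc e v n ≤ k ^ j * e v (3 ^ j * n) := ih
      _ ≤ k ^ j * (k * e v (3 * (3 ^ j * n))) := mul_le_mul_of_nonneg_left h1 (by positivity)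
      _ = k ^ (j + 1) * e v (3 ^ (j + 1) * n) := by
          rw [pow_succ, pow_succ, mul_assoc]
          congr 3
          ring

theorem near {D : Set Vtx} {e : Vtx → ℕ → ℝ} {k : ℝ} (h : Reg D e k) {v : Vtx} (hv : v ∈ D)
    (M : ℕ) {n m : ℕ} (hn : 1 ≤ n) (hm : 1 ≤ m) (hnm : m ≤ M * n) :
    e v n ≤ k ^ (M + 1) * e v m := by
  have k0 : 0 < k := lt_of_lt_of_le one_pos h.hk
  have h1 := dbl_pow h hv hn M
  have h2 : m ≤ 3 ^ M * n := hnm.trans (Nat.mul_le_mul_right n (Nat.lt_pow_self (by norm_num)).le)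
  have h3 := h.anti v hv m (3 ^ M * n) hm h2
  calc e v n ≤ k ^ M * e v (3 ^ M * n) := h1
    _ ≤ k ^ M * (k * e v m) := mul_le_mul_of_nonneg_left h3 (by positivity)
    _ = _ := by rw [pow_succ]; ring

end Pool.Agent.NH41.CK.GOOD
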