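import Pool.Agent.NH41.CK.GOOD

/-!
Project CK (helper41): adding a point, in terms of the profile.
-/

set_option autoImplicit false

namespace Pool.Agent.NH41.CK.GOOD

open H974 H973 Finset Pool.Agent.Y989.SD
open TH976 (sd sd_self sd_comm sd_tri sd_pos Ar Cmp EH fkg incr_and Reg Good PD Near Diam)
open Pool.Agent.NH41.CK.HG Pool.Agent.NH41.CK.BLK Pool.Agent.NH41.CK.LOC
open Pool.Agent.H160R2.CV (P)
open Pool.Agent.H160R2.CV.Quad
open H362P (Cn Cn_insert Cn_incr hit_or)

/-- the data -/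
structure Dat (T : Finset Vtx) (S K : ℕ) (c k κ Q : ℝ) : Prop where
  net : Net T S K c
  reg : Reg (↑T : Set Vtx) (pf T) k
  hκ : κ = c⁻¹
  hκ1 : 1 ≤ κ
  hQ1 : 1 ≤ Q
  hkQ : k ≤ Q
  near : ∀ v ∈ T, ∀ n m : ℕ, 1 ≤ n → 1 ≤ m → m ≤ 12 * K ^ 3 * n → pf T v n ≤ Q * pf T v m

variable {T : Finset Vtx} {S K : ℕ} {c k κ Q : ℝ}

theorem Dat.of (hn : Net T S K c) (hr : Reg (↑T : Set Vtx) (pf T) k) {x : Vtx} (hx : x ∈ T) :
    Dat T S K c k c⁻¹ (k ^ (12 * K ^ 3 + 1)) := by
  have hk := hr.hk
  refine ⟨hn, hr, rfl, (hn.arm x hx 1 le_rfl ?_).hk, one_le_pow₀ hk, ?_, ?_⟩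
  · exact Nat.mul_pos (by linarith [hn.hK]) hn.hS
  · exact le_self_pow₀ hk (by omega)
  · intro v hv n m h1 h2 h3
    exact Pool.Agent.NH41.CK.GOOD.near hr hv (12 * K ^ 3) h1 h2 h3

theorem pf_one {v : Vtx} (hv : v ∈ T) : pf T v 1 = 1 := REG.EH_one _ (hgt_pos hv)

/-- `p ≤ κ q` from `c p ≤ q` -/
theorem Dat.inv (h : Dat T S K c k κ Q) {p q : ℝ} (hpq : c * p ≤ q) : p ≤ κ * q := by
  have hc := h.net.hc
  rw [h.hκ, inv_mul_eq_div, le_div_iff₀ hc, mul_comm]
  exact hpq

theorem Dat.up (h : Dat T S K c k κ Q) {v : Vtx} (hv : v ∈ T) {n : ℕ} (h1 : 1 ≤ n)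
    (h2 : n ≤ K * S) : aT T v n ≤ κ * pf T v n := by
  rw [h.hκ]
  exact (h.net.arm v hv n h1 h2).l

theorem Dat.lo (h : Dat T S K c k κ Q) {v : Vtx} (hv : v ∈ T) {n : ℕ} (h1 : 1 ≤ n)
    (h2 : n ≤ K * S) : pf T v n ≤ κ * aT T v n := by
  rw [h.hκ]
  exact (h.net.arm v hv n h1 h2).r

theorem Dat.pos (h : Dat T S K c k κ Q) {v : Vtx} (hv : v ∈ T) {n : ℕ} (h1 : 1 ≤ n) :
    0 < pf T v n := h.reg.pos v hv n h1

theorem pow_bd {κ Q : ℝ} (hκ1 : 1 ≤ κ) (hQ1 : 1 ≤ Q) {i j : ℕ} (hi : i ≤ 8) (hj : j ≤ 8) :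
    κ ^ i * Q ^ j ≤ (κ * Q) ^ 8 := by
  rw [mul_pow]
  exact mul_le_mul (pow_le_pow_right₀ hκ1 hi) (pow_le_pow_right₀ hQ1 hj) (by positivity)
    (by positivity)

theorem claimU (h : Dat T S K c k κ Q) {X : Finset Vtx} (hXT : ∀ u ∈ X, u ∈ T) {x y : Vtx}
    (hx : x ∈ T) (hy : y ∈ X) {a D : ℕ} (hxy : sd x y = a) (ha : 1 ≤ a) (hD : 1 ≤ D)
    (hX : ∀ u ∈ X, a ≤ sd u x) (hXD : ∀ u ∈ X, sd u y ≤ D) :
    pf T y D * Pr P (ES T) (fun F => Cn (insert x X) (↑F)) ≤
      (κ * Q) ^ 8 * ((pf T x a * pf T y (max a D)) * Pr P (ES T) (fun F => Cn X (↑F))) := by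
  have hyT := hXT y hy
  have hK := h.net.hK
  have hS := h.net.hS
  have haN : a ≤ K * S := by
    have := h.net.dia x hx y hyT
    omega
  have hκ1 := h.hκ1
  have hQ1 := h.hQ1
  have hκ0 : 0 < κ := by linarith
  have hQ0 : 0 < Q := by linarith
  have e1 := h.pos hx ha
  have e2 := h.pos hyT hD
  have e3 := h.pos hyT (n := max a D) (by omega)
  have pI : 0 ≤ Pr P (ES T) (fun F => Cn (insert x X) (↑F)) := Pr_nonneg okP _ _
  have pX : 0 ≤ Pr P (ES T) (fun F => Cn X (↑F)) := Pr_nonneg okP _ _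
  have hIX : Pr P (ES T) (fun F => Cn (insert x X) (↑F)) ≤ Pr P (ES T) (fun F => Cn X (↑F)) :=
    Pr_mono okP (fun F _ hF u hu v hv => hF u (Finset.mem_insert_of_mem hu) v
      (Finset.mem_insert_of_mem hv))
  have K3 : K * K ≤ K ^ 3 := by nlinarith [Nat.mul_pos (by omega : 0 < K) (by omega : 0 < K)]
  have K2 : 3 * K ≤ K * K := Nat.mul_le_mul_right K hK
  rcases Nat.lt_or_ge a K with haK | haK
  · -- small distance
    have n1 : 1 ≤ Q * pf T x a := by
      have := h.near x hx 1 a le_rfl ha (by nlinarith)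
      rwa [pf_one hx] at this
    have n2 : pf T y D ≤ Q * pf T y (max a D) := by
      apply h.near y hyT D (max a D) hD (by omega)
      have h1 : max a D ≤ K * D := max_le (by nlinarith) (by nlinarith)
      exact h1.trans (Nat.mul_le_mul_right D (by nlinarith))
    calc pf T y D * Pr P (ES T) (fun F => Cn (insert x X) (↑F))
        ≤ (Q * pf T y (max a D)) * Pr P (ES T) (fun F => Cn X (↑F)) :=
          mul_le_mul n2 hIX pI (by positivity)
      _ = 1 * ((Q * pf T y (max a D)) * Pr P (ES T) (fun F => Cn X (↑F))) := (one_mul _).symm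
      _ ≤ (Q * pf T x a) * ((Q * pf T y (max a D)) * Pr P (ES T) (fun F => Cn X (↑F))) :=
          mul_le_mul_of_nonneg_right n1 (by positivity)
      _ = (κ ^ 0 * Q ^ 2) * ((pf T x a * pf T y (max a D)) *
          Pr P (ES T) (fun F => Cn X (↑F))) := by ring
      _ ≤ _ := mul_le_mul_of_nonneg_right (pow_bd hκ1 hQ1 (by norm_num) (by norm_num))
          (by positivity)
  · rcases Nat.lt_or_ge a (12 * K ^ 3 * D) with hsm | hbig
    · -- the diameter is not small
      set r := a / K with hr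
      have hKr : K * r ≤ a := Nat.mul_div_le a K
      have hrK : a < K * (r + 1) := Nat.lt_mul_div_succ a (by omega)
      have hr1 : 1 ≤ r := (Nat.one_le_div_iff (by omega)).mpr haK
      have hrS : r ≤ S := Nat.le_of_mul_le_mul_left (hKr.trans haN) (by omega)
      have hra : a ≤ 12 * K ^ 3 * r := by
        have h1 : a ≤ 2 * K * r := by nlinarith
        exact h1.trans (Nat.mul_le_mul_right r (by nlinarith))
      have hrN : r ≤ K * S := hrS.trans (Nat.le_mul_of_pos_left S (by omega))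
      have hr_le : r ≤ a := Nat.div_le_self a K
      have u1 := upper1 (T := T) (X := X) (x := x) (y := y) (r := r) (R := K * r) hy
        (by rw [sd_comm, hxy]; exact hr_le) (fun u hu => hKr.trans (hX u hu))
        (h.net.blk x hx r hr1 hrS)
      have u2 := h.inv u1
      have n1 : aT T x r ≤ κ * (Q * pf T x a) :=
        (h.up hx hr1 hrN).trans (mul_le_mul_of_nonneg_left (h.near x hx r a hr1 ha hra) hκ0.le)
      have n2 : pf T y D ≤ Q * pf T y (max a D) := by
        apply h.near y hyT D (max a D) hD (by omega)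
        exact max_le hsm.le (by nlinarith)
      calc pf T y D * Pr P (ES T) (fun F => Cn (insert x X) (↑F))
          ≤ (Q * pf T y (max a D)) * (κ * ((κ * (Q * pf T x a)) *
              Pr P (ES T) (fun F => Cn X (↑F)))) := by
            apply mul_le_mul n2 _ pI (by positivity)
            refine u2.trans (mul_le_mul_of_nonneg_left ?_ hκ0.le)
            exact mul_le_mul_of_nonneg_right n1 pX
        _ = (κ ^ 2 * Q ^ 2) * ((pf T x a * pf T y (max a D)) *
            Pr P (ES T) (fun F => Cn X (↑F))) := by ring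
        _ ≤ _ := mul_le_mul_of_nonneg_right (pow_bd hκ1 hQ1 (by norm_num) (by norm_num))
            (by positivity)
    · -- the new point is far from the others
      set n := a / 3 with hn
      have hn3 : 3 * n ≤ a := Nat.mul_div_le a 3
      have hna : a < 3 * (n + 1) := Nat.lt_mul_div_succ a (by norm_num)
      have hK0 : 0 < K := by omega
      have hK3 : 27 ≤ K ^ 3 := by
        calc 27 = 3 ^ 3 := by norm_num
          _ ≤ K ^ 3 := Nat.pow_le_pow_left hK 3
      have hK30 : 0 < K ^ 3 := by omega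
      have ha324 : 324 ≤ a := by nlinarith
      have hn1 : 1 ≤ n := by omega
      have hKKD : K * (K * D) ≤ n := by
        have h1 : K * (K * D) ≤ K ^ 3 * D := by
          calc K * (K * D) = (K * K) * D := by ring
            _ ≤ K ^ 3 * D := Nat.mul_le_mul_right D K3
        have h2 : 12 * (K ^ 3 * D) ≤ a := by
          calc 12 * (K ^ 3 * D) = 12 * K ^ 3 * D := by ring
            _ ≤ a := hbig
        omega
      have hKD : K * D ≤ K * (K * D) := Nat.le_mul_of_pos_left _ hK0
      have hDK : D ≤ K * D := Nat.le_mul_of_pos_left _ hK0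
      have hKDS : K * D ≤ S := by
        have h1 : K * (K * D) ≤ K * S := by omega
        exact Nat.le_of_mul_le_mul_left h1 hK0
      have hnN : n ≤ K * S := by omega
      have u1 := upper2 hXT (x := x) (y := y) (n := n) (r := D) (R := K * D) hy
        (by omega) hDK (by omega) hXD (h.net.blk y hyT D hD (by omega))
      have u2 := h.inv u1
      have b1 := bT_le hyT (r := K * D) (R := K * (K * D)) (n := n) hKD hKKD h.net.hc.le
        (h.net.blk y hyT (K * D) (by omega) hKDS)
      have b2 := h.inv b1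
      have n1 : aT T x n ≤ κ * (Q * pf T x a) :=
        (h.up hx hn1 hnN).trans (mul_le_mul_of_nonneg_left
          (h.near x hx n a hn1 ha (by nlinarith)) hκ0.le)
      have n2 : aT T y n ≤ κ * (Q * pf T y (max a D)) := by
        refine (h.up hyT hn1 hnN).trans (mul_le_mul_of_nonneg_left
          (h.near y hyT n (max a D) hn1 (by omega) ?_) hκ0.le)
        have h1 : max a D ≤ a := max_le le_rfl (by omega)
        nlinarith
      have n3 : pf T y D ≤ Q * (κ * aT T y (K * (K * D))) := by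
        have h1 : 1 ≤ K * (K * D) := by omega
        refine (h.near y hyT D (K * (K * D)) hD h1 ?_).trans
          (mul_le_mul_of_nonneg_left (h.lo hyT h1 (by omega)) hQ0.le)
        calc K * (K * D) = (K * K) * D := by ring
          _ ≤ 12 * K ^ 3 * D := Nat.mul_le_mul_right D (by nlinarith)
      have a0 := aT_nonneg T x n
      have a1 := aT_nonneg T y (K * (K * D))
      have a2 := bT_nonneg T y (K * D) n
      calc pf T y D * Pr P (ES T) (fun F => Cn (insert x X) (↑F))
          ≤ (Q * (κ * aT T y (K * (K * D)))) *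
              (κ * (aT T x n * (bT T y (K * D) n * Pr P (ES T) (fun F => Cn X (↑F))))) :=
            mul_le_mul n3 u2 pI (by positivity)
        _ = (Q * κ * κ) * (aT T x n * ((aT T y (K * (K * D)) * bT T y (K * D) n) *
              Pr P (ES T) (fun F => Cn X (↑F)))) := by ring
        _ ≤ (Q * κ * κ) * ((κ * (Q * pf T x a)) * ((κ * (κ * (Q * pf T y (max a D)))) *
              Pr P (ES T) (fun F => Cn X (↑F)))) := by
            apply mul_le_mul_of_nonneg_left _ (by positivity)
            apply mul_le_mul n1 _ (by positivity) (by positivity)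
            apply mul_le_mul_of_nonneg_right _ pX
            exact b2.trans (mul_le_mul_of_nonneg_left n2 hκ0.le)
        _ = (κ ^ 5 * Q ^ 3) * ((pf T x a * pf T y (max a D)) *
            Pr P (ES T) (fun F => Cn X (↑F))) := by ring
        _ ≤ _ := mul_le_mul_of_nonneg_right (pow_bd hκ1 hQ1 (by norm_num) (by norm_num))
            (by positivity)

/-- the link between two points -/
theorem link (h : Dat T S K c k κ Q) {x y : Vtx} (hx : x ∈ T) (hy : y ∈ T) {a : ℕ}
    (hxy : sd x y = a) (ha : 1 ≤ a) : ∃ s R : ℕ, a ≤ R ∧ R ≤ 3 * K * a ∧ R ≤ K * S ∧ 1 ≤ R ∧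
      (s = a ∨ s = S) ∧ c ≤ Pr P (ES T) (LB T x y s R) := by
  have hK := h.net.hK
  have hS := h.net.hS
  have haN : a ≤ K * S := by
    have := h.net.dia x hx y hy
    omega
  rcases Nat.lt_or_ge S (3 * a) with h1 | h1
  · refine ⟨S, K * S, haN, ?_, le_rfl, by omega, Or.inr rfl, h.net.lnk x hx y hy⟩
    calc K * S ≤ K * (3 * a) := Nat.mul_le_mul_left K h1.le
      _ = 3 * K * a := by ring
  · refine ⟨a, 3 * K * a, ?_, le_rfl, ?_, ?_, Or.inl rfl, ?_⟩
    · exact Nat.le_mul_of_pos_left a (by omega)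
    · calc 3 * K * a = K * (3 * a) := by ring
        _ ≤ K * S := Nat.mul_le_mul_left K h1
    · exact Nat.mul_pos (by omega) ha
    · refine (h.net.blk x hx (2 * a) (by omega) (by omega)).trans (Pr_mono okhalf ?_)
      rintro F - ⟨z, hz, hb⟩
      have hKa : 3 * a ≤ K * a := Nat.mul_le_mul_right a hK
      have e : 3 * K * a = 3 * (K * a) := by ring
      have e2 : K * (2 * a) = 2 * (K * a) := by ring
      refine ⟨z, hz, Blk_imp ?_ ?_ hb, Blk_imp ?_ ?_ hb⟩
      · intro u hu; omega
      · intro w hw; omega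
      · intro u hu
        have := sd_tri u y x
        have := sd_comm x y
        omega
      · intro w hw
        have := sd_tri w x y
        omega

theorem claimL (h : Dat T S K c k κ Q) {X : Finset Vtx} (hXT : ∀ u ∈ X, u ∈ T) {x y z0 : Vtx}
    (hx : x ∈ T) (hy : y ∈ X) (hz0 : z0 ∈ X) {a D : ℕ} (hxy : sd x y = a) (ha : 1 ≤ a)
    (hD : 1 ≤ D) (hcase : D ≤ 4 * K ∨ D ≤ 2 * sd z0 y) (hDN : D ≤ K * S) :
    (pf T x a * pf T y (max a D)) * Pr P (ES T) (fun F => Cn X (↑F)) ≤
      (κ * Q) ^ 8 * (pf T y D * Pr P (ES T) (fun F => Cn (insert x X) (↑F))) := by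
  have hyT := hXT y hy
  have hK := h.net.hK
  have hS := h.net.hS
  have haN : a ≤ K * S := by
    have := h.net.dia x hx y hyT
    omega
  have hκ1 := h.hκ1
  have hQ1 := h.hQ1
  have hκ0 : 0 < κ := by linarith
  have hQ0 : 0 < Q := by linarith
  have hk1 := h.reg.hk
  have hkQ := h.hkQ
  have e1 := h.pos hx ha
  have e2 := h.pos hyT hD
  have e3 := h.pos hyT (n := max a D) (by omega)
  have e4 := h.pos hyT ha
  have pI : 0 ≤ Pr P (ES T) (fun F => Cn (insert x X) (↑F)) := Pr_nonneg okP _ _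
  have pX : 0 ≤ Pr P (ES T) (fun F => Cn X (↑F)) := Pr_nonneg okP _ _
  have K3 : K * K ≤ K ^ 3 := by nlinarith [Nat.mul_pos (by omega : 0 < K) (by omega : 0 < K)]
  have K2 : 3 * K ≤ K * K := Nat.mul_le_mul_right K hK
  obtain ⟨s, R, r1, r2, r3, r4, r5, hlb⟩ := link h hx hyT hxy ha
  have hRM : R ≤ 12 * K ^ 3 * a := r2.trans (Nat.mul_le_mul_right a (by nlinarith))
  have g1 : pf T x a ≤ Q * (κ * aT T x R) :=
    (h.near x hx a R ha r4 hRM).trans (mul_le_mul_of_nonneg_left (h.lo hx r4 r3) hQ0.le)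
  have g2 : pf T y a ≤ Q * (κ * aT T y R) :=
    (h.near y hyT a R ha r4 hRM).trans (mul_le_mul_of_nonneg_left (h.lo hyT r4 r3) hQ0.le)
  have b0 := aT_nonneg T x R
  have b1 := aT_nonneg T y R
  by_cases hsm : D ≤ 4 * K ∨ a ≤ 4 * K
  · have l0 := lower1 hx hyT hy hlb
    have l1 : (aT T x R * aT T y R) * Pr P (ES T) (fun F => Cn X (↑F)) ≤
        κ * Pr P (ES T) (fun F => Cn (insert x X) (↑F)) := by
      apply h.inv
      rw [← mul_assoc]
      exact l0
    rcases hsm with hsm | hsm
    · have g3 : pf T y (max a D) ≤ Q * pf T y a :=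
        (h.reg.anti y hyT a (max a D) ha (le_max_left _ _)).trans
          (mul_le_mul_of_nonneg_right hkQ e4.le)
      have g4 : 1 ≤ Q * pf T y D := by
        have := h.near y hyT 1 D le_rfl hD (by nlinarith)
        rwa [pf_one hyT] at this
      calc (pf T x a * pf T y (max a D)) * Pr P (ES T) (fun F => Cn X (↑F))
          ≤ ((Q * (κ * aT T x R)) * (Q * (Q * (κ * aT T y R)))) *
              Pr P (ES T) (fun F => Cn X (↑F)) := by
            apply mul_le_mul_of_nonneg_right _ pX
            apply mul_le_mul g1 _ e3.le (by positivity)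
            exact g3.trans (mul_le_mul_of_nonneg_left g2 hQ0.le)
        _ = (Q ^ 3 * κ ^ 2) * ((aT T x R * aT T y R) * Pr P (ES T) (fun F => Cn X (↑F))) := by
            ring
        _ ≤ (Q ^ 3 * κ ^ 2) * (κ * Pr P (ES T) (fun F => Cn (insert x X) (↑F))) :=
            mul_le_mul_of_nonneg_left l1 (by positivity)
        _ = 1 * ((Q ^ 3 * κ ^ 2) * (κ * Pr P (ES T) (fun F => Cn (insert x X) (↑F)))) :=
            (one_mul _).symm
        _ ≤ (Q * pf T y D) * ((Q ^ 3 * κ ^ 2) *
              (κ * Pr P (ES T) (fun F => Cn (insert x X) (↑F)))) :=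
            mul_le_mul_of_nonneg_right g4 (by positivity)
        _ = (κ ^ 3 * Q ^ 4) * (pf T y D * Pr P (ES T) (fun F => Cn (insert x X) (↑F))) := by ring
        _ ≤ _ := mul_le_mul_of_nonneg_right (pow_bd hκ1 hQ1 (by norm_num) (by norm_num))
            (by positivity)
    · have g3 : pf T y (max a D) ≤ Q * pf T y D :=
        (h.reg.anti y hyT D (max a D) hD (le_max_right _ _)).trans
          (mul_le_mul_of_nonneg_right hkQ e2.le)
      have g5 : pf T x a ≤ Q := by
        have := h.reg.anti x hx 1 a le_rfl ha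
        rw [pf_one hx, mul_one] at this
        exact this.trans hkQ
      have hR1 : R ≤ 12 * K ^ 3 * 1 := by
        have h1 : R ≤ 3 * K * (4 * K) := r2.trans (Nat.mul_le_mul_left _ hsm)
        nlinarith
      have g6 : 1 ≤ Q * (κ * aT T x R) := by
        have := (h.near x hx 1 R le_rfl r4 hR1).trans
          (mul_le_mul_of_nonneg_left (h.lo hx r4 r3) hQ0.le)
        rwa [pf_one hx] at this
      have g7 : 1 ≤ Q * (κ * aT T y R) := by
        have := (h.near y hyT 1 R le_rfl r4 hR1).trans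
          (mul_le_mul_of_nonneg_left (h.lo hyT r4 r3) hQ0.le)
        rwa [pf_one hyT] at this
      have g8 : 1 ≤ (Q * (κ * aT T x R)) * (Q * (κ * aT T y R)) := by
        calc (1 : ℝ) = 1 * 1 := (one_mul 1).symm
          _ ≤ _ := mul_le_mul g6 g7 zero_le_one (by positivity)
      calc (pf T x a * pf T y (max a D)) * Pr P (ES T) (fun F => Cn X (↑F))
          ≤ (Q * (Q * pf T y D)) * Pr P (ES T) (fun F => Cn X (↑F)) := by
            apply mul_le_mul_of_nonneg_right _ pX
            exact mul_le_mul g5 g3 e3.le hQ0.le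
        _ = 1 * ((Q * (Q * pf T y D)) * Pr P (ES T) (fun F => Cn X (↑F))) := (one_mul _).symm
        _ ≤ ((Q * (κ * aT T x R)) * (Q * (κ * aT T y R))) * ((Q * (Q * pf T y D)) *
              Pr P (ES T) (fun F => Cn X (↑F))) := mul_le_mul_of_nonneg_right g8 (by positivity)
        _ = (Q ^ 4 * κ ^ 2 * pf T y D) * ((aT T x R * aT T y R) *
              Pr P (ES T) (fun F => Cn X (↑F))) := by ring
        _ ≤ (Q ^ 4 * κ ^ 2 * pf T y D) * (κ * Pr P (ES T) (fun F => Cn (insert x X) (↑F))) :=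
            mul_le_mul_of_nonneg_left l1 (by positivity)
        _ = (κ ^ 3 * Q ^ 4) * (pf T y D * Pr P (ES T) (fun F => Cn (insert x X) (↑F))) := by ring
        _ ≤ _ := mul_le_mul_of_nonneg_right (pow_bd hκ1 hQ1 (by norm_num) (by norm_num))
            (by positivity)
  · push Not at hsm
    obtain ⟨hD4, ha4⟩ := hsm
    have hfar : D ≤ 2 * sd z0 y := by
      rcases hcase with h1 | h1
      · omega
      · exact h1
    set m := min a D with hm
    set q := m / (2 * K) with hq
    have hK0 : 0 < 2 * K := by omega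
    have hqm : 2 * K * q ≤ m := Nat.mul_div_le m (2 * K)
    have hmq : m < 2 * K * (q + 1) := Nat.lt_mul_div_succ m hK0
    have hq1 : 1 ≤ q := (Nat.one_le_div_iff hK0).mpr (by omega)
    have hKq : K * q + K * q ≤ m := by
      calc K * q + K * q = 2 * K * q := by ring
        _ ≤ m := hqm
    have hqK : q ≤ K * q := Nat.le_mul_of_pos_left q (by omega)
    have hqS : q ≤ S := by
      have h1 : K * q ≤ K * S := by omega
      exact Nat.le_of_mul_le_mul_left h1 (by omega)
    have hqs : q ≤ s := by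
      rcases r5 with r5 | r5
      · omega
      · omega
    have hm1 : 1 ≤ m := by omega
    have l2 := lower2 hx hyT hy hz0 (s := s) (R := R) (q := q) (Q := K * q) hqs (by omega)
      (by omega) h.net.hc.le hlb (h.net.blk y hyT q hq1 hqS)
    have l3 : (aT T x R * bT T y q R) * Pr P (ES T) (fun F => Cn X (↑F)) ≤
        κ * (κ * Pr P (ES T) (fun F => Cn (insert x X) (↑F))) := by
      apply h.inv
      apply h.inv
      calc c * (c * ((aT T x R * bT T y q R) * Pr P (ES T) (fun F => Cn X (↑F))))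
          = c * c * (aT T x R * bT T y q R) * Pr P (ES T) (fun F => Cn X (↑F)) := by ring
        _ ≤ _ := l2
    have s1 : aT T y R ≤ aT T y q * bT T y q R :=
      aT_split hyT (c := y) (m := q) (r := q) (n := R) (N := R) (by rw [sd_self]; omega)
        (by omega) (by rw [sd_self]; omega)
    have s2 : aT T y q ≤ κ * (Q * pf T y m) := by
      refine (h.up hyT hq1 (by omega)).trans (mul_le_mul_of_nonneg_left
        (h.near y hyT q m hq1 hm1 ?_) hκ0.le)
      have h1 : m ≤ 4 * K * q := by nlinarith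
      exact h1.trans (Nat.mul_le_mul_right q (by nlinarith))
    have b2 := bT_nonneg T y q R
    have em := h.pos hyT hm1
    have hmm : pf T y (max a D) * pf T y m = pf T y D * pf T y a := by
      rcases le_total a D with h1 | h1
      · rw [hm, max_eq_right h1, min_eq_left h1]
      · rw [hm, max_eq_left h1, min_eq_right h1]; ring
    have s3 : pf T y (max a D) ≤ Q ^ 2 * κ ^ 2 * (pf T y D * bT T y q R) := by
      have s4 : pf T y (max a D) * pf T y m ≤
          (Q ^ 2 * κ ^ 2 * (pf T y D * bT T y q R)) * pf T y m := by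
        calc pf T y (max a D) * pf T y m = pf T y D * pf T y a := hmm
          _ ≤ pf T y D * (Q * (κ * ((κ * (Q * pf T y m)) * bT T y q R))) := by
              apply mul_le_mul_of_nonneg_left _ e2.le
              refine g2.trans (mul_le_mul_of_nonneg_left ?_ hQ0.le)
              apply mul_le_mul_of_nonneg_left _ hκ0.le
              exact s1.trans (mul_le_mul_of_nonneg_right s2 b2)
          _ = _ := by ring
      exact le_of_mul_le_mul_right s4 em
    calc (pf T x a * pf T y (max a D)) * Pr P (ES T) (fun F => Cn X (↑F))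
        ≤ ((Q * (κ * aT T x R)) * (Q ^ 2 * κ ^ 2 * (pf T y D * bT T y q R))) *
            Pr P (ES T) (fun F => Cn X (↑F)) := by
          apply mul_le_mul_of_nonneg_right _ pX
          exact mul_le_mul g1 s3 e3.le (by positivity)
      _ = (Q ^ 3 * κ ^ 3 * pf T y D) * ((aT T x R * bT T y q R) *
            Pr P (ES T) (fun F => Cn X (↑F))) := by ring
      _ ≤ (Q ^ 3 * κ ^ 3 * pf T y D) * (κ * (κ * Pr P (ES T) (fun F => Cn (insert x X) (↑F)))) :=
          mul_le_mul_of_nonneg_left l3 (by positivity)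
      _ = (κ ^ 5 * Q ^ 3) * (pf T y D * Pr P (ES T) (fun F => Cn (insert x X) (↑F))) := by ring
      _ ≤ _ := mul_le_mul_of_nonneg_right (pow_bd hκ1 hQ1 (by norm_num) (by norm_num))
          (by positivity)

/-! ### any vertex of `X` instead of the nearest one -/

theorem both (h : Dat T S K c k κ Q) {X : Finset Vtx} (hXT : ∀ u ∈ X, u ∈ T) {x y : Vtx}
    (hx : x ∈ T) (hxX : x ∉ X) (hy : y ∈ X) {a D : ℕ} (hn : Near x X a) (hd : Diam X D) :
    (pf T x a * pf T y (max a (max D 1))) * Pr P (ES T) (fun F => Cn X (↑F)) ≤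
      (κ * Q) ^ 9 * (pf T y (max D 1) * Pr P (ES T) (fun F => Cn (insert x X) (↑F))) ∧
    pf T y (max D 1) * Pr P (ES T) (fun F => Cn (insert x X) (↑F)) ≤
      (κ * Q) ^ 9 * ((pf T x a * pf T y (max a (max D 1))) *
        Pr P (ES T) (fun F => Cn X (↑F))) := by
  obtain ⟨⟨y0, hy0, hay⟩, hmin⟩ := hn
  obtain ⟨⟨p, hp, r, hr, hD⟩, hmax⟩ := hd
  have ha1 : 1 ≤ a := by
    rw [hay]
    apply sd_pos
    rintro rfl
    exact hxX hy0
  set D' := max D 1 with hD'
  have hD1 : 1 ≤ D' := le_max_right _ _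
  have hyT := hXT y hy
  have hy0T := hXT y0 hy0
  have hK := h.net.hK
  have hS := h.net.hS
  have hKS : K ≤ K * S := Nat.le_mul_of_pos_right K hS
  have hDN : D' ≤ K * S := by
    have := h.net.dia p (hXT p hp) r (hXT r hr)
    omega
  have hyy : sd y y0 ≤ D' := by
    have := hmax ⟨y, hy, y0, hy0, rfl⟩
    omega
  have hκ1 := h.hκ1
  have hQ1 := h.hQ1
  have hκ0 : 0 < κ := by linarith
  have hQ0 : 0 < Q := by linarith
  have hk1 := h.reg.hk
  have hkQ := h.hkQ
  have hkW : k ≤ κ * Q := by nlinarith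
  have q1 := h.reg.rat y hyT y0 hy0T D' (max a D') hyy hD1 (le_max_right a D')
  have q2 := h.reg.rat y0 hy0T y hyT D' (max a D') (by rw [sd_comm]; exact hyy) hD1
    (le_max_right a D')
  have a1 := h.pos hx ha1
  have u1 := h.pos hyT hD1
  have u2 := h.pos hy0T hD1
  have u3 := h.pos hyT (n := max a D') (by omega)
  have u4 := h.pos hy0T (n := max a D') (by omega)
  have pX : 0 ≤ Pr P (ES T) (fun F => Cn X (↑F)) := Pr_nonneg okP _ _
  have pI : 0 ≤ Pr P (ES T) (fun F => Cn (insert x X) (↑F)) := Pr_nonneg okP _ _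
  have hW0 : 0 < κ * Q := by positivity
  constructor
  · have hc : ∃ z0 ∈ X, D' ≤ 4 * K ∨ D' ≤ 2 * sd z0 y0 := by
      have h1 : D ≤ sd p y0 + sd r y0 := by
        rw [hD, sd_comm r y0]
        exact sd_tri p y0 r
      rcases Nat.lt_or_ge (sd p y0) (sd r y0) with h2 | h2
      · exact ⟨r, hr, by omega⟩
      · exact ⟨p, hp, by omega⟩
    obtain ⟨z0, hz0, hc⟩ := hc
    have hh := claimL h hXT hx hy0 hz0 hay.symm ha1 hD1 hc hDN
    generalize Pr P (ES T) (fun F => Cn (insert x X) (↑F)) = pI' at *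
    generalize Pr P (ES T) (fun F => Cn X (↑F)) = pX' at *
    generalize pf T x a = A at *
    generalize pf T y (max a D') = B at *
    generalize pf T y0 (max a D') = B' at *
    generalize pf T y D' = C at *
    generalize pf T y0 D' = C' at *
    have : ((A * B) * pX') * C' ≤ ((κ * Q) ^ 9 * (C * pI')) * C' := by
      calc ((A * B) * pX') * C' = (A * pX') * (C' * B) := by ring
        _ ≤ (A * pX') * (k * (B' * C)) := mul_le_mul_of_nonneg_left q2 (by positivity)
        _ = k * (((A * B') * pX') * C) := by ring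
        _ ≤ (κ * Q) * (((A * B') * pX') * C) := mul_le_mul_of_nonneg_right hkW (by positivity)
        _ ≤ (κ * Q) * (((κ * Q) ^ 8 * (C' * pI')) * C) := by
            apply mul_le_mul_of_nonneg_left _ hW0.le
            exact mul_le_mul_of_nonneg_right hh u1.le
        _ = _ := by ring
    exact le_of_mul_le_mul_right this u2
  · have hh := claimU h hXT hx hy0 hay.symm ha1 hD1 (fun u hu => by
      have := hmin ⟨u, hu, rfl⟩
      rw [sd_comm]
      exact this) (fun u hu => by
      have := hmax ⟨u, hu, y0, hy0, rfl⟩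
      omega)
    generalize Pr P (ES T) (fun F => Cn (insert x X) (↑F)) = pI' at *
    generalize Pr P (ES T) (fun F => Cn X (↑F)) = pX' at *
    generalize pf T x a = A at *
    generalize pf T y (max a D') = B at *
    generalize pf T y0 (max a D') = B' at *
    generalize pf T y D' = C at *
    generalize pf T y0 D' = C' at *
    have : (C * pI') * B' ≤ ((κ * Q) ^ 9 * ((A * B) * pX')) * B' := by
      calc (C * pI') * B' = pI' * (C * B') := by ring
        _ ≤ pI' * (k * (B * C')) := mul_le_mul_of_nonneg_left q1 pI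
        _ = k * ((C' * pI') * B) := by ring
        _ ≤ (κ * Q) * ((C' * pI') * B) := mul_le_mul_of_nonneg_right hkW (by positivity)
        _ ≤ (κ * Q) * (((κ * Q) ^ 8 * ((A * B') * pX')) * B) := by
            apply mul_le_mul_of_nonneg_left _ hW0.le
            exact mul_le_mul_of_nonneg_right hh u3.le
        _ = _ := by ring
    exact le_of_mul_le_mul_right this u4

theorem bD_eq (T : Finset Vtx) : ∃ m0 : ℕ, ∀ m : ℕ, m0 ≤ m →
    TH976.bD (↑T : Set Vtx) m = ES T := by
  refine ⟨T.sup (fun v => max v.1.natAbs v.2.natAbs), fun m hm => ?_⟩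
  ext e
  rw [TH976.mem_bD, mem_ES]
  unfold TH976.dE
  constructor
  · rintro ⟨-, h1, h2⟩
    exact ⟨h1, h2⟩
  · rintro ⟨h1, h2⟩
    refine ⟨?_, h1, h2⟩
    have k1 : max (src e).1.natAbs (src e).2.natAbs ≤ m :=
      (Finset.le_sup (f := fun v : Vtx => max v.1.natAbs v.2.natAbs) h1).trans hm
    have k2 : max (tgt e).1.natAbs (tgt e).2.natAbs ≤ m :=
      (Finset.le_sup (f := fun v : Vtx => max v.1.natAbs v.2.natAbs) h2).trans hm
    unfold boxE
    obtain ⟨a, b, _ | _⟩ := e
    · rw [mem_RE_false]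
      simp only [src_mk, tgt_false] at k1 k2
      omega
    · rw [mem_RE_true]
      simp only [src_mk, tgt_true] at k1 k2
      omega

theorem t_GOOD : S_GOOD := by
  intro K c k
  by_cases hck : 0 < c ∧ 1 ≤ k
  swap
  · refine ⟨1, one_pos, fun T S hn hr => ?_⟩
    exact absurd ⟨hn.hc, hr.hk⟩ hck
  obtain ⟨hc, hk⟩ := hck
  have hW : 0 < (c⁻¹ * k ^ (12 * K ^ 3 + 1)) ^ 9 := by positivity
  refine ⟨((c⁻¹ * k ^ (12 * K ^ 3 + 1)) ^ 9)⁻¹, inv_pos.mpr hW, fun T S hn hr => ?_⟩
  refine TH976.good_of (inv_pos.mpr hW) (fun v hv n hn' => hr.pos v hv n hn') ?_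
  intro X x y a d hX hx hxX hy hna hd
  obtain ⟨m0, hm0⟩ := bD_eq T
  refine ⟨m0, fun m hm => ?_⟩
  rw [hm0 m hm]
  have hD := Dat.of hn hr hx
  obtain ⟨h1, h2⟩ := both hD hX hx hxX hy hna hd
  constructor
  · rw [inv_mul_le_iff₀ hW]
    exact h1
  · rw [inv_mul_le_iff₀ hW]
    exact h2

end Pool.Agent.NH41.CK.GOOD
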