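import Pool.Agent.NH41.CK.Stm

/-!
Project CK: the height in the lattice domain is comparable to the distance of the preimage to the
unit circle, in units of the mesh.
-/

set_option autoImplicit false

namespace Pool.Agent.NH41.CK.HGT

open H974 H973 Finset Pool.Agent.Y989.SD
open TH976 (sd Cmp cx norm_cx sd_comm sd_tri sd_self sd_pos)

/-- Positions and distances. -/
theorem norm_pos {ε : ℝ} (he : 0 < ε) (x y : Vtx) :
    ε * (sd x y : ℝ) ≤ ‖pos ε x - pos ε y‖ ∧ ‖pos ε x - pos ε y‖ ≤ 2 * ε * (sd x y : ℝ) := by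
  obtain ⟨h1, h2⟩ := norm_cx x y
  have e1 : pos ε x - pos ε y = (ε : ℂ) * (cx x - cx y) := by
    apply Complex.ext
    · simp [pos, cx]
      ring
    · simp [pos, cx]
      ring
  have e2 : ‖pos ε x - pos ε y‖ = ε * ‖cx x - cx y‖ := by
    rw [e1, norm_mul, Complex.norm_real, Real.norm_eq_abs, abs_of_pos he]
  have s0 : (0 : ℝ) ≤ (sd x y : ℝ) := Nat.cast_nonneg _
  have h3 : ‖cx x - cx y‖ ≤ 2 * (sd x y : ℝ) := by
    have := norm_nonneg (cx x - cx y)
    nlinarith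
  rw [e2]
  constructor
  · exact mul_le_mul_of_nonneg_left h1 he.le
  · calc ε * ‖cx x - cx y‖ ≤ ε * (2 * (sd x y : ℝ)) := mul_le_mul_of_nonneg_left h3 he.le
      _ = _ := by ring

/-- A walk from `y` to `x` meets a boundary vertex. -/
theorem walk (T : Finset Vtx) (x : Vtx) (hx : x ∈ T) : ∀ (n : ℕ) (y : Vtx), y ∉ T →
    (x.1 - y.1).natAbs + (x.2 - y.2).natAbs = n → ∃ u, btT T u ∧ sd x u ≤ sd x y := by
  intro n
  induction n with
  | zero =>
    intro y hy h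
    exfalso
    apply hy
    have : y = x := Prod.ext (by omega) (by omega)
    rw [this]
    exact hx
  | succ n ih =>
    intro y hy h
    obtain ⟨y1, y2⟩ := y
    have key : ∀ z : Vtx, (x.1 - z.1).natAbs + (x.2 - z.2).natAbs = n → sd x z ≤ sd x (y1, y2) →
        (z ∈ T → btT T z) → ∃ u, btT T u ∧ sd x u ≤ sd x (y1, y2) := by
      intro z h1 h2 h3
      by_cases hz : z ∈ T
      · exact ⟨z, h3 hz, h2⟩
      · obtain ⟨u, h4, h5⟩ := ih z hz h1
        exact ⟨u, h4, h5.trans h2⟩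
    simp only at h
    rcases lt_trichotomy x.1 y1 with h1 | h1 | h1
    · apply key (y1 - 1, y2) (by simp only; omega) (by unfold sd; simp only; omega)
      intro hz
      refine ⟨hz, Or.inl ?_⟩
      simpa using hy
    · rcases lt_trichotomy x.2 y2 with h2 | h2 | h2
      · apply key (y1, y2 - 1) (by simp only; omega) (by unfold sd; simp only; omega)
        intro hz
        refine ⟨hz, Or.inr (Or.inr (Or.inl ?_))⟩
        simpa using hy
      · omega
      · apply key (y1, y2 + 1) (by simp only; omega) (by unfold sd; simp only; omega)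
        intro hz
        refine ⟨hz, Or.inr (Or.inr (Or.inr ?_))⟩
        simpa using hy
    · apply key (y1 + 1, y2) (by simp only; omega) (by unfold sd; simp only; omega)
      intro hz
      refine ⟨hz, Or.inr (Or.inl ?_)⟩
      simpa using hy

theorem hgt_spec (T : Finset Vtx) (x : Vtx) : ∃ y, y ∉ T ∧ sd x y = hgt T x := by
  have h1 : ({d : ℕ | ∃ y : Vtx, y ∉ T ∧ sd x y = d}).Nonempty := by
    obtain ⟨y, hy⟩ := Infinite.exists_notMem_finset T
    exact ⟨_, y, hy, rfl⟩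
  exact Nat.sInf_mem h1

theorem hgt_le (T : Finset Vtx) (x : Vtx) {y : Vtx} (hy : y ∉ T) : hgt T x ≤ sd x y :=
  Nat.sInf_le ⟨y, hy, rfl⟩

theorem hgt_pos {T : Finset Vtx} {x : Vtx} (hx : x ∈ T) : 1 ≤ hgt T x := by
  obtain ⟨y, h1, h2⟩ := hgt_spec T x
  rw [← h2]
  apply sd_pos
  rintro rfl
  exact h1 hx

theorem norm_cir (θ : ℝ) : ‖cir θ‖ = 1 := Complex.norm_exp_ofReal_mul_I θ

theorem cir_mem (θ : ℝ) : cir θ ∈ disc := by
  unfold disc
  rw [Metric.mem_closedBall, dist_zero_right, norm_cir]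

/-- There is a vertex outside `T` next to the base of a window. -/
theorem win_out {T : Finset Vtx} {v : Vtx} {L : ℤ} {B α : ℝ} (hL : 1 ≤ L) (h : Win T v L B α) :
    ∃ y, y ∉ T ∧ sd v y ≤ 1 := by
  obtain ⟨e, he, k, s, h1, -, -, h2⟩ := h
  refine ⟨emb e v (0, -1), ?_, ?_⟩
  · have h3 := h2 (0, -1) (by rw [mem_QB]; simp only; omega)
    rw [h3]
    simp only
    rw [h1.zero]
    omega
  · rcases he with rfl | rfl | rfl | rfl <;> (unfold emb sd; simp only; omega)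

theorem t_HGT : S_GA → S_HGT := by
  intro hGA f g M α hf ρ B ε0 hρ hε0 hGD
  obtain ⟨l, H, hl, hH, hlH, -, -, -, -⟩ := hGA f g M α hf
  have hC1 : (1 : ℝ) ≤ H + 3 + 3 / l := by
    have := div_pos (by norm_num : (0 : ℝ) < 3) hl
    linarith
  refine ⟨H + 3 + 3 / l, min ε0 ρ, hC1, lt_min hε0 hρ, ?_⟩
  intro ε he hε x hx ζ hζ hfx
  have hT := hGD ε he (hε.trans (min_le_left _ _))
  obtain ⟨-, hT2, hT3⟩ := hT
  have hζ1 : ‖ζ‖ ≤ 1 := by
    unfold disc at hζ
    rwa [Metric.mem_closedBall, dist_zero_right] at hζ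
  have hh1 : (1 : ℝ) ≤ (hgt (TD f ε) x : ℝ) := by exact_mod_cast hgt_pos hx
  have hm1 : (1 : ℝ) ≤ max 1 ((1 - ‖ζ‖) / ε) := le_max_left _ _
  have hm2 : (1 - ‖ζ‖) / ε ≤ max 1 ((1 - ‖ζ‖) / ε) := le_max_right _ _
  have hl3 : 0 < 3 / l := div_pos (by norm_num) hl
  refine ⟨hC1, by linarith, by linarith, ?_, ?_⟩
  · -- upper bound
    obtain ⟨v, hv, hv1, hv2⟩ := hT2 (Complex.arg ζ)
    have hL : 1 ≤ ⌊ρ / ε⌋ := by
      rw [Int.le_floor]
      push_cast
      rw [le_div_iff₀ he, one_mul]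
      exact hε.trans (min_le_right _ _)
    obtain ⟨y, hy, hy1⟩ := win_out hL hv2
    have h1 : hgt (TD f ε) x ≤ sd x v + 1 :=
      (hgt_le _ x hy).trans ((sd_tri x v y).trans (by omega))
    have h1' : (hgt (TD f ε) x : ℝ) ≤ (sd x v : ℝ) + 1 := by exact_mod_cast h1
    have h2 := (norm_pos he x v).1
    have h3 : ‖ζ - cir (Complex.arg ζ)‖ = 1 - ‖ζ‖ := by
      have e1 : ζ - cir (Complex.arg ζ) = ((‖ζ‖ - 1 : ℝ) : ℂ) * cir (Complex.arg ζ) := by
        have e2 := Complex.norm_mul_exp_arg_mul_I ζ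
        unfold cir
        push_cast
        rw [sub_mul, one_mul, e2]
      rw [e1, norm_mul, norm_cir, mul_one, Complex.norm_real, Real.norm_eq_abs,
        abs_of_nonpos (by linarith)]
      ring
    have h4 := (hlH ζ hζ (cir (Complex.arg ζ)) (cir_mem _)).2
    rw [h3, hfx] at h4
    have h5 : ‖pos ε x - pos ε v‖ ≤ H * (1 - ‖ζ‖) + 2 * ε := by
      calc ‖pos ε x - pos ε v‖ ≤ ‖pos ε x - f (cir (Complex.arg ζ))‖ +
            ‖f (cir (Complex.arg ζ)) - pos ε v‖ := norm_sub_le_norm_sub_add_norm_sub _ _ _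
        _ ≤ _ := by
          rw [norm_sub_rev (f (cir (Complex.arg ζ)))]
          exact add_le_add h4 hv1
    have h6 : (sd x v : ℝ) ≤ H * ((1 - ‖ζ‖) / ε) + 2 := by
      have : ε * (sd x v : ℝ) ≤ ε * (H * ((1 - ‖ζ‖) / ε) + 2) := by
        calc ε * (sd x v : ℝ) ≤ H * (1 - ‖ζ‖) + 2 * ε := h2.trans h5
          _ = _ := by field_simp
      exact le_of_mul_le_mul_left this he
    have h7 := mul_le_mul_of_nonneg_left hm2 hH.le
    have h8 : 0 ≤ 3 / l * max 1 ((1 - ‖ζ‖) / ε) := by positivity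
    nlinarith
  · -- lower bound
    obtain ⟨y, hy1, hy2⟩ := hgt_spec (TD f ε) x
    obtain ⟨u, hu1, hu2⟩ := walk (TD f ε) x hx _ y hy1 rfl
    obtain ⟨θ, hθ⟩ := hT3 u hu1
    have hu3 : (sd x u : ℝ) ≤ (hgt (TD f ε) x : ℝ) := by
      rw [← hy2]
      exact_mod_cast hu2
    have h2 := (norm_pos he x u).2
    have h4 := (hlH ζ hζ (cir θ) (cir_mem _)).1
    rw [hfx] at h4
    have h3 : 1 - ‖ζ‖ ≤ ‖ζ - cir θ‖ := by
      have := norm_sub_norm_le (cir θ) ζ
      rw [norm_cir, norm_sub_rev] at this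
      exact this
    have h5 : ‖pos ε x - f (cir θ)‖ ≤ 2 * ε * (hgt (TD f ε) x : ℝ) + ε := by
      calc ‖pos ε x - f (cir θ)‖ ≤ ‖pos ε x - pos ε u‖ + ‖pos ε u - f (cir θ)‖ :=
            norm_sub_le_norm_sub_add_norm_sub _ _ _
        _ ≤ 2 * ε * (hgt (TD f ε) x : ℝ) + ε :=
          add_le_add (h2.trans (mul_le_mul_of_nonneg_left hu3 (by positivity))) hθ
    have h6 : l * (1 - ‖ζ‖) ≤ 3 * ε * (hgt (TD f ε) x : ℝ) := by
      have e1 := mul_le_mul_of_nonneg_left h3 hl.le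
      nlinarith
    have h7 : (1 - ‖ζ‖) / ε ≤ 3 / l * (hgt (TD f ε) x : ℝ) := by
      rw [div_le_iff₀ he, div_mul_eq_mul_div, div_mul_eq_mul_div, le_div_iff₀ hl]
      linarith
    apply max_le
    · nlinarith
    · nlinarith

end Pool.Agent.NH41.CK.HGT
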