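import Pool.Agent.NH41.CK.Stm
import Pool.Agent.TH976.Circ

/-!
Project CK (helper41): circuits around interior vertices are blocking clusters.
-/

set_option autoImplicit false

namespace Pool.Agent.NH41.CK.INT

open H974 H973 Finset Pool.Agent.Y989.SD
open TH976 (sd Ar Cmp EH Reg Good PD kFun cx pr_TB pr_LR fkg incr_and)

/-- crossings around `c` at distances between `R` and `3 R` -/
def CF (c : Vtx) (R : ℕ) (F : Finset Edg) : Prop :=
  (TBc (c.1 + R) (c.1 + 3 * R) (c.2 - 3 * R) (c.2 + 3 * R) F ∧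
    LRc (c.1 - 3 * R) (c.1 + 3 * R) (c.2 + R) (c.2 + 3 * R) F) ∧
  (TBc (c.1 - 3 * R) (c.1 - R) (c.2 - 3 * R) (c.2 + 3 * R) F ∧
    LRc (c.1 - 3 * R) (c.1 + 3 * R) (c.2 - 3 * R) (c.2 - R) F)

theorem CF_meet {c : Vtx} {R : ℕ} (hR : 1 ≤ R) {F : Finset Edg}
    (h : CF c R F) : ∃ z : Vtx, z ∈ BX c (3 * R) ∧ ∀ G : Finset Edg, F ⊆ G → ∀ u v : Vtx,
      sd u c ≤ R → 3 * R ≤ sd v c → Reach (↑G : Set Edg) u v → Reach (↑G : Set Edg) u z := by
  obtain ⟨⟨⟨xr, xr', hxr, hxr', hr⟩, ⟨yt, yt', hyt, hyt', ht⟩⟩,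
    ⟨⟨xl, xl', hxl, hxl', hl⟩, ⟨yb, yb', hyb, hyb', hb⟩⟩⟩ := h
  obtain ⟨c1, c2⟩ := c
  simp only at hr ht hl hb hxr hxr' hyt hyt' hxl hxl' hyb hyb'
  have hR' : (1 : ℤ) ≤ R := by exact_mod_cast hR
  refine ⟨(xr, c2 - 3 * (R : ℤ)), ?_, ?_⟩
  · rw [mem_BX]
    simp only
    omega
  intro G hFG u v huc hvc huv
  have toG : ∀ {E : Finset Edg} {x y : Vtx}, Reach ((↑F : Set Edg) ∩ ↑E) x y →
      Reach ((↑G : Set Edg) ∩ ↑E) x y := fun h =>
    h.mono (Set.inter_subset_inter_left _ (by exact_mod_cast hFG))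
  have hr' := (toG hr).mono (Set.inter_subset_inter_right (↑G : Set Edg)
    (by exact_mod_cast TBE_subset_RE :
      (↑(TBE (c1 + R) (c1 + 3 * R) (c2 - 3 * R) (c2 + 3 * R)) : Set Edg) ⊆ _))
  have ht' := (toG ht).mono (Set.inter_subset_inter_right (↑G : Set Edg)
    (by exact_mod_cast LRE_subset_RE :
      (↑(LRE (c1 - 3 * R) (c1 + 3 * R) (c2 + R) (c2 + 3 * R)) : Set Edg) ⊆ _))
  have hl' := (toG hl).mono (Set.inter_subset_inter_right (↑G : Set Edg)
    (by exact_mod_cast TBE_subset_RE :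
      (↑(TBE (c1 - 3 * R) (c1 - R) (c2 - 3 * R) (c2 + 3 * R)) : Set Edg) ⊆ _))
  have hb' := (toG hb).mono (Set.inter_subset_inter_right (↑G : Set Edg)
    (by exact_mod_cast LRE_subset_RE :
      (↑(LRE (c1 - 3 * R) (c1 + 3 * R) (c2 - 3 * R) (c2 - R)) : Set Edg) ⊆ _))
  have mTR : Reach (↑G ∩ ↑(RE (c1 - 3 * R) (c1 + 3 * R) (c2 - 3 * R)
      (c2 + 3 * R))) (c1 - 3 * (R : ℤ), yt) (xr, c2 - 3 * (R : ℤ)) :=
    cross_meet (a := c1 + R) (b := c1 + 3 * R) (c := c2 + R) (d := c2 + 3 * R) (by omega)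
      (by omega) le_rfl (by omega) (by omega) le_rfl ht' (by simp only; omega)
      (by simp only; omega) hr' (by simp only; omega) (by simp only; omega)
  have mTL : Reach (↑G ∩ ↑(RE (c1 - 3 * R) (c1 + 3 * R) (c2 - 3 * R)
      (c2 + 3 * R))) (c1 - 3 * (R : ℤ), yt) (xl, c2 - 3 * (R : ℤ)) :=
    cross_meet (a := c1 - 3 * R) (b := c1 - R) (c := c2 + R) (d := c2 + 3 * R) (by omega)
      (by omega) (by omega) (by omega) (by omega) le_rfl ht' (by simp only; omega)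
      (by simp only; omega) hl' (by simp only; omega) (by simp only; omega)
  have mBR : Reach (↑G ∩ ↑(RE (c1 - 3 * R) (c1 + 3 * R) (c2 - 3 * R)
      (c2 + 3 * R))) (c1 - 3 * (R : ℤ), yb) (xr, c2 - 3 * (R : ℤ)) :=
    cross_meet (a := c1 + R) (b := c1 + 3 * R) (c := c2 - 3 * R) (d := c2 - R) (by omega)
      (by omega) le_rfl (by omega) (by omega) (by omega) hb' (by simp only; omega)
      (by simp only; omega) hr' (by simp only; omega) (by simp only; omega)
  unfold TH976.sd at huc hvc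
  simp only at huc hvc
  obtain ⟨w, h1, h2, hP⟩ := first_exit (a := c1 - 3 * R) (b := c1 + 3 * R) (c := c2 - 3 * R)
    (d := c2 + 3 * R) (by unfold inR; omega) huv (by omega)
  unfold inR at h1
  rcases h2 with h2 | h2 | h2 | h2
  · -- left
    have m : Reach (↑G ∩ ↑(RE (c1 - 3 * R) (c1 + 3 * R) (c2 - 3 * R)
        (c2 + 3 * R))) w (xl, c2 - 3 * (R : ℤ)) :=
      cross_meet (a := c1 - 3 * R) (b := c1 - R) (c := c2 - 3 * R) (d := c2 + 3 * R)
        (by omega) (by omega) (by omega) le_rfl (by omega) le_rfl hP.symm (by omega)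
        (by omega) hl' (by simp only; omega) (by simp only; omega)
    exact (hP.trans (m.trans (mTL.symm.trans mTR))).mono Set.inter_subset_left
  · -- right
    exact (cross_meet (a := c1 + R) (b := c1 + 3 * R) (c := c2 - 3 * R)
      (d := c2 + 3 * R) (by omega) (by omega) le_rfl le_rfl (by omega) le_rfl hP (by omega)
      h2.ge hr' (by simp only; omega) (by simp only; omega)).mono Set.inter_subset_left
  · -- bottom
    have m : Reach (↑G ∩ ↑(RE (c1 - 3 * R) (c1 + 3 * R) (c2 - 3 * R)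
        (c2 + 3 * R))) (c1 - 3 * (R : ℤ), yb) w :=
      cross_meet (a := c1 - 3 * R) (b := c1 + 3 * R) (c := c2 - 3 * R) (d := c2 - R)
        le_rfl (by omega) le_rfl (by omega) (by omega) (by omega) hb' (by simp only; omega)
        (by simp only; omega) hP.symm (by omega) (by omega)
    exact (hP.trans (m.symm.trans mBR)).mono Set.inter_subset_left
  · -- top
    have m : Reach (↑G ∩ ↑(RE (c1 - 3 * R) (c1 + 3 * R) (c2 - 3 * R)
        (c2 + 3 * R))) (c1 - 3 * (R : ℤ), yt) u :=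
      cross_meet (a := c1 - 3 * R) (b := c1 + 3 * R) (c := c2 + R) (d := c2 + 3 * R)
        le_rfl (by omega) le_rfl (by omega) (by omega) le_rfl ht' (by simp only; omega)
        (by simp only; omega) hP (by omega) (by omega)
    exact (m.symm.trans mTR).mono Set.inter_subset_left

/-- a vertex which meets all crossings, also after adding edges, gives a blocking cluster -/
theorem Blk_of_meet {T : Finset Vtx} {F : Finset Edg} {A B : Vtx → Prop} {z : Vtx}
    (hAB : ∀ v, A v → B v → False)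
    (hz : ∀ G : Finset Edg, F ⊆ G → ∀ u v : Vtx, A u → B v → Reach (↑G : Set Edg) u v →
      Reach (↑G : Set Edg) u z) : Blk T A B z F := by
  classical
  intro u hu hAu w hw hBw hr
  set V : Vtx → Prop := fun y => y ∈ T ∧ ¬ Reach (F : Set Edg) z y with hV
  set G : Finset Edg := F ∪ (ES T).filter (fun e => e ∈ EV V) with hG
  have hEG : EV V ⊆ (↑G : Set Edg) := by
    intro e he
    rw [hG, Finset.mem_coe, Finset.mem_union, Finset.mem_filter, mem_ES]
    exact Or.inr ⟨⟨he.1.1, he.2.1⟩, he⟩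
  have h1 := hz G Finset.subset_union_left u w hAu hBw (hr.mono hEG)
  -- the cluster of `z` does not grow
  have key : ∀ y, Reach (↑G : Set Edg) z y → Reach (↑F : Set Edg) z y := by
    intro y hy
    induction hy with
    | refl => exact Reach.refl _ _
    | @tail a b _ hs ih =>
      obtain ⟨e, he, hc⟩ := hs
      rw [hG, Finset.coe_union] at he
      rcases he with he | he
      · exact ih.trans (Adj.reach ⟨e, he, hc⟩)
      · exfalso
        rw [Finset.mem_coe, Finset.mem_filter] at he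
        obtain ⟨-, hv1, hv2⟩ := he
        rcases hc with ⟨h3, h4⟩ | ⟨h3, h4⟩
        · rw [h3] at hv1
          exact hv1.2 ih
        · rw [h4] at hv2
          exact hv2.2 ih
  have h2 := key u h1.symm
  -- `u` is in `V`
  have h3 : u = w ∨ V u := by
    rcases Relation.ReflTransGen.cases_head hr with h | ⟨b, hb, -⟩
    · exact Or.inl h
    · right
      obtain ⟨e, he, hc⟩ := hb
      rcases hc with ⟨h4, -⟩ | ⟨-, h4⟩
      · rw [← h4]; exact he.1
      · rw [← h4]; exact he.2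
  rcases h3 with h3 | h3
  · rw [← h3] at hBw
    exact hAB u hAu hBw
  · exact h3.2 h2

theorem CF_HB {T : Finset Vtx} {c : Vtx} {R : ℕ} (hR : 1 ≤ R) (hT : BX c (3 * R) ⊆ T)
    {F : Finset Edg} (h : CF c R F) : HB T c R (3 * R) F := by
  obtain ⟨z, hz, hm⟩ := CF_meet hR h
  exact ⟨z, hT hz, Blk_of_meet (fun v h1 h2 => by omega) hm⟩

theorem CF_incr (S : Finset Edg) (c : Vtx) (R : ℕ) : IncrE S (CF c R) :=
  fun _ _ h _ hF => ⟨⟨hF.1.1.mono h, hF.1.2.mono h⟩, ⟨hF.2.1.mono h, hF.2.2.mono h⟩⟩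

theorem RE_sub_ES {T : Finset Vtx} {c : Vtx} {n : ℤ} (hT : BX c n ⊆ T) {a b c' d : ℤ}
    (h1 : c.1 - n ≤ a) (h2 : b ≤ c.1 + n) (h3 : c.2 - n ≤ c') (h4 : d ≤ c.2 + n) :
    RE a b c' d ⊆ ES T := by
  intro e he
  have h := mem_RE_ends he
  unfold inR at h
  rw [mem_ES]
  refine ⟨hT ?_, hT ?_⟩
  · rw [mem_BX]
    omega
  · rw [mem_BX]
    omega

theorem pr_CF {T : Finset Vtx} {c : Vtx} {R : ℕ} (hR : 1 ≤ R) (hT : BX c (3 * R) ⊆ T) :
    dlt ^ 4 ≤ Pr hf (ES T) (CF c R) := by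
  have hR' : (1 : ℤ) ≤ R := by exact_mod_cast hR
  have hd0 := dlt_pos.le
  change dlt ^ 4 ≤ Pr Pool.Agent.H160R2.CV.P (ES T) (CF c R)
  have p1 : dlt ≤ Pr Pool.Agent.H160R2.CV.P (ES T)
      (TBc (c.1 + R) (c.1 + 3 * R) (c.2 - 3 * R) (c.2 + 3 * R)) :=
    pr_TB (m := R) (RE_sub_ES hT (by omega) (by omega) (by omega) (by omega)) (by omega)
      (by omega) (by omega) (by omega)
  have p2 : dlt ≤ Pr Pool.Agent.H160R2.CV.P (ES T)
      (LRc (c.1 - 3 * R) (c.1 + 3 * R) (c.2 + R) (c.2 + 3 * R)) :=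
    pr_LR (m := R) (RE_sub_ES hT (by omega) (by omega) (by omega) (by omega)) (by omega)
      (by omega) (by omega) (by omega)
  have p3 : dlt ≤ Pr Pool.Agent.H160R2.CV.P (ES T)
      (TBc (c.1 - 3 * R) (c.1 - R) (c.2 - 3 * R) (c.2 + 3 * R)) :=
    pr_TB (m := R) (RE_sub_ES hT (by omega) (by omega) (by omega) (by omega)) (by omega)
      (by omega) (by omega) (by omega)
  have p4 : dlt ≤ Pr Pool.Agent.H160R2.CV.P (ES T)
      (LRc (c.1 - 3 * R) (c.1 + 3 * R) (c.2 - 3 * R) (c.2 - R)) :=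
    pr_LR (m := R) (RE_sub_ES hT (by omega) (by omega) (by omega) (by omega)) (by omega)
      (by omega) (by omega) (by omega)
  have i1 := TBc_incr (ES T) (c.1 + R) (c.1 + 3 * R) (c.2 - 3 * R) (c.2 + 3 * R)
  have i2 := LRc_incr (ES T) (c.1 - 3 * R) (c.1 + 3 * R) (c.2 + R) (c.2 + 3 * R)
  have i3 := TBc_incr (ES T) (c.1 - 3 * R) (c.1 - R) (c.2 - 3 * R) (c.2 + 3 * R)
  have i4 := LRc_incr (ES T) (c.1 - 3 * R) (c.1 + 3 * R) (c.2 - 3 * R) (c.2 - R)
  have q1 := fkg i1 i2 hd0 p1 p2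
  have q2 := fkg i3 i4 hd0 p3 p4
  have q3 := fkg (incr_and i1 i2) (incr_and i3 i4) (mul_nonneg hd0 hd0) q1 q2
  calc dlt ^ 4 = dlt * dlt * (dlt * dlt) := by ring
    _ ≤ _ := q3

theorem t_INT : S_INT := by
  refine ⟨dlt ^ 4, pow_pos dlt_pos 4, fun T x r hr hT => ?_⟩
  refine (pr_CF hr hT).trans (Pr_mono okhalf fun F _ h => CF_HB hr hT h)

end Pool.Agent.NH41.CK.INT
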