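import Pool.Agent.NH41.CK.BLK

/-!
Project CK (helper41): boxes, arms and crossings inside a finite set of vertices.
-/

set_option autoImplicit false

namespace Pool.Agent.NH41.CK.LOC

open H974 H973 Finset Pool.Agent.Y989.SD
open TH976 (sd sd_self sd_comm sd_tri sd_pos Ar)
open Pool.Agent.NH41.CK.HG
open Pool.Agent.H160R2.CV (P)
open Pool.Agent.H160R2.CV.Quad

theorem bo_sub {c c' : Vtx} {m m' : ℕ} (h : sd c c' + m ≤ m') : bo c m ⊆ bo c' m' := by
  unfold TH976.sd at h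
  rintro ⟨x, y, _ | _⟩ h
  · simp only [bo, mem_RE_false] at h ⊢
    omega
  · simp only [bo, mem_RE_true] at h ⊢
    omega

theorem bo_mono {c : Vtx} {m m' : ℕ} (h : m ≤ m') : bo c m ⊆ bo c m' :=
  bo_sub (by rw [sd_self]; omega)

theorem bo_disj' {x y : Vtx} {m m' : ℕ} (h : m + m' + 1 ≤ sd x y) :
    Disjoint (bo x m) (bo y m') := by
  rw [Finset.disjoint_left]
  unfold TH976.sd at h
  rintro ⟨a, b, _ | _⟩ h1 h2
  · simp only [bo, mem_RE_false] at h1 h2; omega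
  · simp only [bo, mem_RE_true] at h1 h2; omega

theorem bo_ends {c : Vtx} {m : ℕ} {e : Edg} (he : e ∈ bo c m) :
    sd (src e) c ≤ m ∧ sd (tgt e) c ≤ m := by
  obtain ⟨x, y, _ | _⟩ := e
  · simp only [bo, mem_RE_false] at he
    simp only [src_mk, tgt_false, TH976.sd]
    omega
  · simp only [bo, mem_RE_true] at he
    simp only [src_mk, tgt_true, TH976.sd]
    omega

theorem bo_ends' {c : Vtx} {m : ℕ} {e : Edg} (he : e ∉ bo c m) :
    m ≤ sd (src e) c ∧ m ≤ sd (tgt e) c := by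
  obtain ⟨x, y, _ | _⟩ := e
  · simp only [bo, mem_RE_false] at he
    simp only [src_mk, tgt_false, TH976.sd]
    omega
  · simp only [bo, mem_RE_true] at he
    simp only [src_mk, tgt_true, TH976.sd]
    omega

theorem bo_ES {T : Finset Vtx} {c : Vtx} {n : ℕ} (h : BX c (n : ℤ) ⊆ T) : bo c n ⊆ ES T := by
  intro e he
  have h1 := bo_ends he
  rw [mem_ES]
  exact ⟨h (mem_BX_sd.mpr h1.1), h (mem_BX_sd.mpr h1.2)⟩

/-- exit from a box -/
theorem exitB {F : Set Edg} {c u v : Vtx} {n : ℕ} (hu : sd u c ≤ n)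
    (hv : n ≤ sd v c) (h : Reach F u v) :
    ∃ w, sd w c = n ∧ Reach (F ∩ ↑(bo c n)) u w := by
  unfold TH976.sd at hu hv
  obtain ⟨w, h1, h2, h3⟩ := first_exit (a := c.1 - n) (b := c.1 + n) (c := c.2 - n)
    (d := c.2 + n) (by unfold inR; omega) h (by omega)
  refine ⟨w, ?_, h3⟩
  unfold inR at h1
  unfold TH976.sd
  omega

/-- a crossing of the annulus of radii `r`, `n` around `c` in `T` -/
def Cx (T : Finset Vtx) (c : Vtx) (r n : ℕ) (F : Finset Edg) : Prop :=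
  ∃ u v : Vtx, u ∈ T ∧ sd u c ≤ r ∧ n ≤ sd v c ∧ Reach (↑F) u v

theorem Cx.mono {T : Finset Vtx} {c : Vtx} {r n : ℕ} {F G : Finset Edg} (h : F ⊆ G)
    (hF : Cx T c r n F) : Cx T c r n G := by
  obtain ⟨u, v, h0, h1, h2, h3⟩ := hF
  exact ⟨u, v, h0, h1, h2, h3.mono (by exact_mod_cast h)⟩

theorem Cx_incr (S : Finset Edg) (T : Finset Vtx) (c : Vtx) (r n : ℕ) : IncrE S (Cx T c r n) :=
  fun _ _ h _ hF => hF.mono h

theorem Ar_loc {F : Finset Edg} {c : Vtx} {n m : ℕ} (hm : n ≤ m) (h : Ar c m F) :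
    Ar c n (F ∩ bo c n) := by
  obtain ⟨v, h1, h2⟩ := h
  obtain ⟨w, h3, h4⟩ := exitB (by rw [sd_self]; omega) (hm.trans h1) h2
  refine ⟨w, h3.ge, ?_⟩
  rw [Finset.coe_inter]
  exact h4

theorem memT {T : Finset Vtx} {F : Finset Edg} (hF : F ⊆ ES T) {u v : Vtx} (hu : u ∈ T)
    (h : Reach (↑F : Set Edg) u v) : v ∈ T :=
  reach_mem (F := (F : Set Edg)) (fun _ he => hF (Finset.mem_coe.mp he)) hu h

theorem Cx_loc {T : Finset Vtx} {F : Finset Edg} (hF : F ⊆ ES T) {c : Vtx} {r n : ℕ} (hrn : r ≤ n)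
    (h : Cx T c r n F) : Cx T c r n (F ∩ (bo c n \ bo c r)) := by
  obtain ⟨u, v, h0, h1, h2, h3⟩ := h
  obtain ⟨w, h4, h5⟩ := exitB (h1.trans hrn) h2 h3
  unfold TH976.sd at h1
  obtain ⟨u', h6, h7⟩ := last_exit (a := c.1 - r) (b := c.1 + r) (c := c.2 - r) (d := c.2 + r)
    (x := u) (by unfold inR; omega) h5
  have hw : w ∈ T := memT hF h0 (h5.mono Set.inter_subset_left)
  have hu' : u' ∈ T := memT hF hw
    ((h7.mono (Set.sdiff_subset.trans Set.inter_subset_left)).symm)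
  refine ⟨u', w, hu', ?_, h4.ge, h7.mono ?_⟩
  · unfold inR at h6
    unfold TH976.sd
    omega
  · rintro e ⟨⟨h8, h9⟩, h10⟩
    rw [Finset.coe_inter, Finset.coe_sdiff]
    exact ⟨h8, h9, h10⟩

/-- the edges of `T` in the box -/
noncomputable def qT (T : Finset Vtx) (c : Vtx) (n : ℕ) : Finset Edg := ES T ∩ bo c n

theorem qT_ES {T : Finset Vtx} {c : Vtx} {n : ℕ} : qT T c n ⊆ ES T := Finset.inter_subset_left

/-- the one-arm probability of `c` in `T` -/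
noncomputable def aT (T : Finset Vtx) (c : Vtx) (n : ℕ) : ℝ := Pr P (ES T) (Ar c n)

/-- the crossing probability of an annulus around `c` in `T` -/
noncomputable def bT (T : Finset Vtx) (c : Vtx) (r n : ℕ) : ℝ := Pr P (ES T) (Cx T c r n)

theorem aT_nonneg (T : Finset Vtx) (c : Vtx) (n : ℕ) : 0 ≤ aT T c n := Pr_nonneg okP _ _
theorem bT_nonneg (T : Finset Vtx) (c : Vtx) (r n : ℕ) : 0 ≤ bT T c r n := Pr_nonneg okP _ _
theorem aT_le_one (T : Finset Vtx) (c : Vtx) (n : ℕ) : aT T c n ≤ 1 := Pr_le_one okP _ _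
theorem bT_le_one (T : Finset Vtx) (c : Vtx) (r n : ℕ) : bT T c r n ≤ 1 := Pr_le_one okP _ _

theorem Ar_incr (S : Finset Edg) (c : Vtx) (n : ℕ) : IncrE S (Ar c n) :=
  fun _ _ h _ hF => hF.mono h

/-- localized events -/
def ArL (T : Finset Vtx) (c : Vtx) (n : ℕ) (F : Finset Edg) : Prop := Ar c n (F ∩ qT T c n)
def CxL (T : Finset Vtx) (c : Vtx) (r n : ℕ) (F : Finset Edg) : Prop :=
  Cx T c r n (F ∩ (qT T c n \ qT T c r))

theorem ArL_inc (T : Finset Vtx) (c : Vtx) (n : ℕ) : IncA (ArL T c n) :=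
  fun _ _ h hF => TH976.Ar.mono (Finset.inter_subset_inter_right h) hF

theorem CxL_inc (T : Finset Vtx) (c : Vtx) (r n : ℕ) : IncA (CxL T c r n) :=
  fun _ _ h hF => Cx.mono (Finset.inter_subset_inter_right h) hF

theorem ArL_loc (T : Finset Vtx) (c : Vtx) (n : ℕ) : LocE (qT T c n) (ArL T c n) := by
  intro F
  unfold ArL
  rw [Finset.inter_assoc, Finset.inter_self]

theorem CxL_loc (T : Finset Vtx) (c : Vtx) (r n : ℕ) :
    LocE (qT T c n \ qT T c r) (CxL T c r n) := by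
  intro F
  unfold CxL
  rw [Finset.inter_assoc, Finset.inter_self]

theorem ArL_of {T : Finset Vtx} {F : Finset Edg} (hF : F ⊆ ES T) {c : Vtx} {n m : ℕ}
    (hm : n ≤ m) (h : Ar c m F) : ArL T c n F := by
  unfold ArL
  have e : F ∩ qT T c n = F ∩ bo c n := by
    ext x
    unfold qT
    simp only [Finset.mem_inter]
    constructor
    · rintro ⟨h1, -, h2⟩; exact ⟨h1, h2⟩
    · rintro ⟨h1, h2⟩; exact ⟨h1, hF h1, h2⟩
  rw [e]
  exact Ar_loc hm h

theorem CxL_of {T : Finset Vtx} {F : Finset Edg} (hF : F ⊆ ES T) {c : Vtx} {r n : ℕ}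
    (hrn : r ≤ n) (h : Cx T c r n F) : CxL T c r n F := by
  unfold CxL
  have e : F ∩ (qT T c n \ qT T c r) = F ∩ (bo c n \ bo c r) := by
    ext x
    unfold qT
    simp only [Finset.mem_inter, Finset.mem_sdiff]
    constructor
    · rintro ⟨h1, ⟨h2, h3⟩, h4⟩; exact ⟨h1, h3, fun h5 => h4 ⟨h2, h5⟩⟩
    · rintro ⟨h1, h2, h3⟩; exact ⟨h1, ⟨hF h1, h2⟩, fun h4 => h3 h4.2⟩
  rw [e]
  exact Cx_loc hF hrn h

theorem pr_ArL (T : Finset Vtx) (c : Vtx) (n : ℕ) : Pr P (qT T c n) (ArL T c n) ≤ aT T c n := by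
  refine le_trans (Pr_mono okP (B := Ar c n) fun F _ h => TH976.Ar.mono Finset.inter_subset_left h)
    (Pr_mono_set okP qT_ES (Ar_incr _ c n))

theorem pr_CxL (T : Finset Vtx) (c : Vtx) (r n : ℕ) :
    Pr P (qT T c n \ qT T c r) (CxL T c r n) ≤ bT T c r n := by
  refine le_trans (Pr_mono okP (B := Cx T c r n) fun F _ h => Cx.mono Finset.inter_subset_left h)
    (Pr_mono_set okP (Finset.sdiff_subset.trans qT_ES) (Cx_incr _ T c r n))

theorem aT_anti {T : Finset Vtx} {c : Vtx} {n m : ℕ} (h : n ≤ m) : aT T c m ≤ aT T c n :=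
  Pr_mono okP fun _ _ ⟨v, h1, h2⟩ => ⟨v, h.trans h1, h2⟩

theorem qT_sdiff_disj (T : Finset Vtx) (x c : Vtx) {m r n : ℕ} (h : sd x c + m ≤ r) :
    Disjoint (qT T x m) (qT T c n \ qT T c r) := by
  rw [Finset.disjoint_left]
  intro e h1 h2
  unfold qT at h1 h2
  rw [Finset.mem_inter] at h1
  rw [Finset.mem_sdiff, Finset.mem_inter, Finset.mem_inter] at h2
  exact h2.2 ⟨h1.1, bo_sub h h1.2⟩

/-- arms and crossings: the upper bound -/
theorem aT_split {T : Finset Vtx} {x c : Vtx} (hx : x ∈ T) {m r n N : ℕ} (h1 : sd x c + m ≤ r)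
    (h2 : r ≤ n) (h3 : sd x c + n ≤ N) : aT T x N ≤ aT T x m * bT T c r n := by
  have hi := indep2 (ES T) _ _ (qT_sdiff_disj T x c (n := n) h1) (ArL_inc T x m)
    (CxL_inc T c r n) (ArL_loc T x m) (CxL_loc T c r n)
  refine le_trans (Pr_mono okP ?_) (hi.trans (mul_le_mul (pr_ArL T x m) (pr_CxL T c r n)
    (Pr_nonneg okP _ _) (aT_nonneg _ _ _)))
  intro F hF h
  refine ⟨ArL_of hF (by omega) h, CxL_of hF h2 ?_⟩
  obtain ⟨v, h4, h5⟩ := h
  have := sd_tri v c x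
  have := sd_comm x c
  exact ⟨x, v, hx, by omega, by omega, h5⟩

theorem Cx_XT {T : Finset Vtx} {F : Finset Edg} (hF : F ⊆ ES T) {c : Vtx} {r n : ℕ} (hn : 1 ≤ n) :
    Cx T c r n F ↔ XT T c r n F := by
  constructor
  · rintro ⟨u, v, h0, h1, h2, h3⟩
    exact ⟨u, h0, mem_BX_sd.mpr h1, v, memT hF h0 h3, (notMem_BX_sd hn).mpr h2, h3⟩
  · rintro ⟨u, h0, h1, v, h2, h3, h4⟩
    exact ⟨u, v, h0, mem_BX_sd.mp h1, (notMem_BX_sd hn).mp h3, h4⟩

theorem bT_eq (T : Finset Vtx) (c : Vtx) (r : ℕ) {n : ℕ} (hn : 1 ≤ n) :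
    bT T c r n = Pr hf (ES T) (XT T c r n) :=
  Pr_congr fun _ hF => Cx_XT hF hn

/-- a blocking cluster meets every crossing -/
theorem HB_meet {T : Finset Vtx} {F : Finset Edg} (hF : F ⊆ ES T) {c z : Vtx} {r R : ℕ}
    (hz : Blk T (fun u => sd u c ≤ r) (fun w => R ≤ sd w c) z F) {u v : Vtx} (hu : u ∈ T)
    (h1 : sd u c ≤ r) (h2 : R ≤ sd v c) (h : Reach (↑F : Set Edg) u v) :
    Reach (↑F : Set Edg) u z := by
  by_contra hc
  refine hz u hu h1 v (memT hF hu h) h2 ?_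
  have h1 := reach_EV (F := (F : Set Edg)) (V := fun y => y ∈ T ∧ ¬ Reach (F : Set Edg) z y)
    (R := Set.univ) (u := u) (v := v) (fun y hy => ⟨memT hF hu hy, fun h2 => hc (hy.trans h2.symm)⟩)
    (fun e _ => Set.mem_univ e) h
  exact h1.mono Set.inter_subset_left

theorem HB_incr (S : Finset Edg) (T : Finset Vtx) (x : Vtx) (r R : ℕ) : IncrE S (HB T x r R) := by
  rintro F G hFG - ⟨z, h1, h2⟩
  refine ⟨z, h1, ?_⟩
  intro u hu hA w hw hB hr
  refine h2 u hu hA w hw hB (hr.mono ?_)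
  have h3 : ∀ y, (y ∈ T ∧ ¬ Reach (G : Set Edg) z y) → (y ∈ T ∧ ¬ Reach (F : Set Edg) z y) :=
    fun y hy => ⟨hy.1, fun h2 => hy.2 (h2.mono (by exact_mod_cast hFG))⟩
  rintro e ⟨he1, he2⟩
  exact ⟨h3 _ he1, h3 _ he2⟩

end Pool.Agent.NH41.CK.LOC
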