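import Pool.Agent.Y989.SD.Stm3
import Pool.Agent.TH976.KPt

/-!
Project CK (helper41): the `k`-point connection probabilities in smooth Jordan domains.
Definitions and statements of the parts.
-/

set_option autoImplicit false

namespace Pool.Agent.NH41.CK

open H974 H973 Finset Pool.Agent.Y989.SD
open TH976 (sd Ar Cmp EH Reg Good PD kFun cx)

/-- The distance from `x` to the complement of `T`. -/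
noncomputable def hgt (T : Finset Vtx) (x : Vtx) : ℕ := sInf {d : ℕ | ∃ y : Vtx, y ∉ T ∧ sd x y = d}

/-- The profile: `n ^ (-5/48) * min (1, hgt / n) ^ (11/48)`. -/
noncomputable def pf (T : Finset Vtx) (v : Vtx) (n : ℕ) : ℝ := EH (hgt T v) n

/-- There is a window of size `L` near every boundary vertex. -/
def Dm (T : Finset Vtx) (L : ℤ) (B α : ℝ) : Prop :=
  ∀ u, btT T u → ∃ v ∈ T, sd u v ≤ 5 ∧ Win T v L B α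

/-- Some cluster blocks the annulus of radii `r`, `R` around `x` inside `T`. -/
def HB (T : Finset Vtx) (x : Vtx) (r R : ℕ) (F : Finset Edg) : Prop :=
  ∃ z ∈ T, Blk T (fun u => sd u x ≤ r) (fun w => R ≤ sd w x) z F

/-- The same cluster blocks the annuli of radii `r`, `R` around `x` and around `y`. -/
def LB (T : Finset Vtx) (x y : Vtx) (r R : ℕ) (F : Finset Edg) : Prop :=
  ∃ z ∈ T, Blk T (fun u => sd u x ≤ r) (fun w => R ≤ sd w x) z F ∧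
    Blk T (fun u => sd u y ≤ r) (fun w => R ≤ sd w y) z F

/-- A circuit around an interior vertex is a blocking cluster. -/
def S_INT : Prop := ∃ c : ℝ, 0 < c ∧ ∀ (T : Finset Vtx) (x : Vtx) (r : ℕ), 1 ≤ r →
  BX x (3 * r) ⊆ T → c ≤ Pr hf (ES T) (HB T x r (3 * r))

/-- Blocking clusters. -/
def S_BLK : Prop := ∀ B α : ℝ, 0 < α → ∃ (K : ℕ) (c : ℝ), 3 ≤ K ∧ 0 < c ∧
  ∀ (T : Finset Vtx) (L : ℤ), Dm T L B α → ∀ x ∈ T, ∀ r : ℕ, 1 ≤ r → (K : ℤ) * r ≤ L →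
    c ≤ Pr hf (ES T) (HB T x r (K * r))

/-- Arms. -/
def S_ARM : Prop := ∀ B α : ℝ, 0 < α → ∃ (K : ℕ) (C : ℝ), 1 ≤ K ∧ 1 ≤ C ∧
  ∀ (T : Finset Vtx) (L : ℤ), Dm T L B α → ∀ x ∈ T, ∀ n : ℕ, 1 ≤ n → (K : ℤ) * n ≤ L →
    Cmp C (Pr hf (ES T) (Ar x n)) (pf T x n)

/-- Macroscopic annuli are blocked by the same cluster. -/
def S_LNK : Prop := ∀ (f g : ℂ → ℂ) (M α : ℝ), SmW f g M α → ∀ ρ B ε0 : ℝ, 0 < ρ → 0 < ε0 →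
  (∀ ε : ℝ, 0 < ε → ε ≤ ε0 → GDc f ε ρ B α) → ∃ K : ℕ, 3 ≤ K ∧
  ∀ ρ' : ℝ, 0 < ρ' → K * ρ' ≤ ρ → ∃ c ε1 : ℝ, 0 < c ∧ 0 < ε1 ∧ ∀ ε : ℝ, 0 < ε → ε ≤ ε1 →
    ∀ x ∈ TD f ε, ∀ y ∈ TD f ε,
      c ≤ Pr hf (ES (TD f ε)) (LB (TD f ε) x y ⌊ρ' / ε⌋₊ (K * ⌊ρ' / ε⌋₊))

/-- The properties of the lattice domain which are used. -/
structure Net (T : Finset Vtx) (S K : ℕ) (c : ℝ) : Prop where
  hK : 3 ≤ K
  hS : 1 ≤ S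
  hc : 0 < c
  blk : ∀ x ∈ T, ∀ r : ℕ, 1 ≤ r → r ≤ S → c ≤ Pr hf (ES T) (HB T x r (K * r))
  lnk : ∀ x ∈ T, ∀ y ∈ T, c ≤ Pr hf (ES T) (LB T x y S (K * S))
  dia : ∀ x ∈ T, ∀ y ∈ T, sd x y ≤ K * S
  arm : ∀ x ∈ T, ∀ n : ℕ, 1 ≤ n → n ≤ K * S → Cmp c⁻¹ (Pr hf (ES T) (Ar x n)) (pf T x n)

/-- Adding a point. -/
def S_GOOD : Prop := ∀ (K : ℕ) (c k : ℝ), ∃ c' : ℝ, 0 < c' ∧ ∀ (T : Finset Vtx) (S : ℕ),
  Net T S K c → Reg (↑T : Set Vtx) (pf T) k → Good (↑T : Set Vtx) (pf T) c'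

/-- The profile of a height function which is Lipschitz is regular. -/
def S_REG : Prop := ∃ k : ℝ, ∀ (D : Set Vtx) (s : Vtx → ℕ), (∀ v ∈ D, 1 ≤ s v) →
  (∀ u ∈ D, ∀ v ∈ D, s u ≤ s v + sd u v) → Reg D (fun v n => EH (s v) n) k

/-- The height in the lattice domain. -/
def S_HGT : Prop := ∀ (f g : ℂ → ℂ) (M α : ℝ), SmW f g M α → ∀ ρ B ε0 : ℝ, 0 < ρ → 0 < ε0 →
  (∀ ε : ℝ, 0 < ε → ε ≤ ε0 → GDc f ε ρ B α) → ∃ C ε1 : ℝ, 1 ≤ C ∧ 0 < ε1 ∧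
  ∀ ε : ℝ, 0 < ε → ε ≤ ε1 → ∀ x ∈ TD f ε, ∀ ζ ∈ disc, f ζ = pos ε x →
    Cmp C (hgt (TD f ε) x) (max 1 ((1 - ‖ζ‖) / ε))

/-- The conformal radius. -/
noncomputable def cr (g : ℂ → ℂ) (ζ : ℂ) : ℝ := ‖g ζ‖ * (1 - ‖ζ‖ ^ 2)

/-- The pseudo-hyperbolic distance. -/
noncomputable def tau (ζ ξ : ℂ) : ℝ := ‖(ζ - ξ) / (1 - (starRingEnd ℂ) ξ * ζ)‖

/-- The two-point function of the domain. -/
noncomputable def gg (g : ℂ → ℂ) (ζ ξ : ℂ) : ℝ :=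
  (cr g ζ * cr g ξ) ^ (-(5 / 48) : ℝ) * tau ζ ξ ^ (-(5 / 24) : ℝ) *
    (1 - tau ζ ξ ^ 2) ^ (1 / 3 : ℝ)

/-- The two-point function in terms of the profile. -/
def S_TWO : Prop := ∀ (f g : ℂ → ℂ) (M α : ℝ), SmW f g M α → ∀ ρ B ε0 : ℝ, 0 < ρ → 0 < ε0 →
  (∀ ε : ℝ, 0 < ε → ε ≤ ε0 → GDc f ε ρ B α) → ∃ K ε1 : ℝ, 1 ≤ K ∧ 0 < ε1 ∧
  ∀ ε : ℝ, 0 < ε → ε ≤ ε1 → ∀ x ∈ TD f ε, ∀ y ∈ TD f ε, x ≠ y → ∀ ζ ξ : ℂ,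
    ‖ζ‖ < 1 → ‖ξ‖ < 1 → f ζ = pos ε x → f ξ = pos ε y → ε ≤ cr g ζ → ε ≤ cr g ξ →
    Cmp K (pf (TD f ε) x (sd x y) * pf (TD f ε) y (sd x y)) (ε ^ (5 / 24 : ℝ) * gg g ζ ξ)

/-- The profile gives the two-point function `G` on `V`. -/
def TwoV (V : Set Vtx) (e : Vtx → ℕ → ℝ) (G : ℂ → ℂ → ℝ) (K : ℝ) : Prop :=
  ∀ x ∈ V, ∀ y ∈ V, x ≠ y → Cmp K (e x (sd x y) * e y (sd x y)) (G (cx x) (cx y))

/-- The `k`-point functions, with an explicit constant. -/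
def S_KPT : Prop := ∀ (D V : Set Vtx) (e : Vtx → ℕ → ℝ) (c k K : ℝ) (G : ℂ → ℂ → ℝ), V ⊆ D →
  Good D e c → (∀ v ∈ D, e v 1 = 1) → Reg D e k → TwoV V e G K → 1 ≤ K →
  ∀ (n : ℕ) (x : ℕ → Vtx), 2 ≤ n → (∀ i < n, x i ∈ V) →
    (∀ i < n, ∀ j < n, i ≠ j → x i ≠ x j) →
      Cmp ((k ^ 12 * (1 + c⁻¹) * (K * K * K)) ^ n) (PD D (H362P.Cn ((Finset.range n).image x)))
        (kFun G (fun i => cx (x i)) n)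

end Pool.Agent.NH41.CK
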